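import Mathlib

/-!
Logarithmic derivative of rational polynomials as power series, and the fact that its coefficients
on cyclotomic polynomials depend only on the gcd with the order.
-/

namespace Pool.Agent.Helper81

open Polynomial

/-- `X f' / f` as a power series. -/
noncomputable def ld (f : ℚ[X]) : PowerSeries ℚ :=
  ((X * derivative f : ℚ[X]) : PowerSeries ℚ) * ((f : ℚ[X]) : PowerSeries ℚ)⁻¹

theorem constCoeff_ne {f : ℚ[X]} (hf : f.coeff 0 ≠ 0) :
    PowerSeries.constantCoeff ((f : ℚ[X]) : PowerSeries ℚ) ≠ 0 := by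
  rwa [← PowerSeries.coeff_zero_eq_constantCoeff_apply, coeff_coe]

theorem ld_mul_self {f : ℚ[X]} (hf : f.coeff 0 ≠ 0) :
    ld f * ((f : ℚ[X]) : PowerSeries ℚ) = ((X * derivative f : ℚ[X]) : PowerSeries ℚ) := by
  unfold ld
  rw [mul_assoc, PowerSeries.inv_mul_cancel _ (constCoeff_ne hf), mul_one]

theorem ld_eq_of_mul {f : ℚ[X]} (hf : f.coeff 0 ≠ 0) {g : PowerSeries ℚ}
    (h : g * ((f : ℚ[X]) : PowerSeries ℚ) = ((X * derivative f : ℚ[X]) : PowerSeries ℚ)) :
    ld f = g := by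
  unfold ld
  rw [← h, mul_assoc, PowerSeries.mul_inv_cancel _ (constCoeff_ne hf), mul_one]

theorem ld_mul {f g : ℚ[X]} (hf : f.coeff 0 ≠ 0) (hg : g.coeff 0 ≠ 0) :
    ld (f * g) = ld f + ld g := by
  have hfg : (f * g).coeff 0 ≠ 0 := by
    rw [mul_coeff_zero]; exact mul_ne_zero hf hg
  apply ld_eq_of_mul hfg
  rw [coe_mul, add_mul]
  have e1 : ld f * (((f : ℚ[X]) : PowerSeries ℚ) * ((g : ℚ[X]) : PowerSeries ℚ)) =
      ((X * derivative f : ℚ[X]) : PowerSeries ℚ) * ((g : ℚ[X]) : PowerSeries ℚ) := by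
    rw [← mul_assoc, ld_mul_self hf]
  have e2 : ld g * (((f : ℚ[X]) : PowerSeries ℚ) * ((g : ℚ[X]) : PowerSeries ℚ)) =
      ((X * derivative g : ℚ[X]) : PowerSeries ℚ) * ((f : ℚ[X]) : PowerSeries ℚ) := by
    rw [mul_comm ((f : ℚ[X]) : PowerSeries ℚ), ← mul_assoc, ld_mul_self hg]
  rw [e1, e2, ← coe_mul, ← coe_mul, ← coe_add, derivative_mul]
  congr 1
  ring

theorem ld_C {c : ℚ} (hc : c ≠ 0) : ld (C c) = 0 := by
  apply ld_eq_of_mul (by simpa using hc)
  simp

theorem ld_one : ld (1 : ℚ[X]) = 0 := by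
  have := ld_C (one_ne_zero (α := ℚ))
  simpa using this

theorem coeff_zero_finset_prod {ι : Type*} (s : Finset ι) (F : ι → ℚ[X])
    (h : ∀ i ∈ s, (F i).coeff 0 ≠ 0) : (∏ i ∈ s, F i).coeff 0 ≠ 0 := by
  rw [coeff_zero_prod]
  exact Finset.prod_ne_zero_iff.mpr h

theorem ld_finset_prod {ι : Type*} (s : Finset ι) (F : ι → ℚ[X])
    (h : ∀ i ∈ s, (F i).coeff 0 ≠ 0) : ld (∏ i ∈ s, F i) = ∑ i ∈ s, ld (F i) := by
  classical
  induction s using Finset.induction_on with
  | empty => simpa using ld_one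
  | insert a s ha ih =>
    rw [Finset.prod_insert ha, Finset.sum_insert ha, ld_mul, ih]
    · intro i hi; exact h i (Finset.mem_insert_of_mem hi)
    · exact h a (Finset.mem_insert_self _ _)
    · apply coeff_zero_finset_prod
      intro i hi; exact h i (Finset.mem_insert_of_mem hi)

theorem coeff_zero_multiset_prod (s : Multiset ℕ) (F : ℕ → ℚ[X])
    (h : ∀ i ∈ s, (F i).coeff 0 ≠ 0) : ((s.map F).prod).coeff 0 ≠ 0 := by
  induction s using Multiset.induction_on with
  | empty => simp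
  | cons a s ih =>
    rw [Multiset.map_cons, Multiset.prod_cons, mul_coeff_zero]
    exact mul_ne_zero (h a (Multiset.mem_cons_self _ _))
      (ih (fun i hi => h i (Multiset.mem_cons_of_mem hi)))

theorem ld_multiset_prod (s : Multiset ℕ) (F : ℕ → ℚ[X])
    (h : ∀ i ∈ s, (F i).coeff 0 ≠ 0) : ld ((s.map F).prod) = (s.map (fun i => ld (F i))).sum := by
  induction s using Multiset.induction_on with
  | empty => simpa using ld_one
  | cons a s ih =>
    rw [Multiset.map_cons, Multiset.prod_cons, Multiset.map_cons, Multiset.sum_cons, ld_mul, ih]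
    · intro i hi; exact h i (Multiset.mem_cons_of_mem hi)
    · exact h a (Multiset.mem_cons_self _ _)
    · apply coeff_zero_multiset_prod
      intro i hi; exact h i (Multiset.mem_cons_of_mem hi)

theorem ld_X_pow_sub_one {N : ℕ} (hN : 0 < N) :
    ld (X ^ N - 1) = PowerSeries.mk (fun m => if m ≠ 0 ∧ N ∣ m then -(N : ℚ) else 0) := by
  have h0 : ((X : ℚ[X]) ^ N - 1).coeff 0 ≠ 0 := by
    rw [coeff_sub, coeff_X_pow, coeff_one_zero, if_neg (by omega)]
    norm_num
  apply ld_eq_of_mul h0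
  ext m
  have hder : (X * derivative ((X : ℚ[X]) ^ N - 1) : ℚ[X]) = C (N : ℚ) * X ^ N := by
    obtain ⟨k, rfl⟩ : ∃ k, N = k + 1 := ⟨N - 1, by omega⟩
    simp
    ring
  rw [hder, coe_sub, coe_pow, coe_X, coe_one, mul_sub, mul_one, map_sub,
    PowerSeries.coeff_mul_X_pow', PowerSeries.coeff_mk, coeff_coe, coeff_C_mul, coeff_X_pow]
  by_cases hm : m = N
  · subst hm
    simp [hN.ne']
  · rw [if_neg hm, mul_zero]
    by_cases hle : N ≤ m
    · rw [if_pos hle, PowerSeries.coeff_mk]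
      have hlt : N < m := lt_of_le_of_ne hle (Ne.symm hm)
      have h1 : (m - N ≠ 0 ∧ N ∣ m - N) ↔ (m ≠ 0 ∧ N ∣ m) := by
        constructor
        · rintro ⟨_, h⟩
          exact ⟨by omega, by
            have := (Nat.dvd_add_right (dvd_refl N)).mpr h
            rwa [Nat.add_sub_cancel' hle] at this⟩
        · rintro ⟨_, h⟩
          exact ⟨by omega, Nat.dvd_sub h (dvd_refl N)⟩
      simp only [h1, sub_self]
    · rw [if_neg hle, PowerSeries.coeff_mk]
      have h2 : ¬ (m ≠ 0 ∧ N ∣ m) := by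
        rintro ⟨h3, h4⟩
        exact hle (Nat.le_of_dvd (Nat.pos_of_ne_zero h3) h4)
      rw [if_neg h2, sub_zero]

theorem cyclotomic_coeff_zero_ne (N : ℕ) : (cyclotomic N ℚ).coeff 0 ≠ 0 := by
  rcases Nat.lt_or_ge 1 N with h | h
  · rw [cyclotomic_coeff_zero _ h]; exact one_ne_zero
  · interval_cases N
    · simp
    · simp [cyclotomic_one]

/-- On cyclotomic polynomials the coefficients of the logarithmic derivative depend only on the
gcd with the order. -/
theorem ld_cyclotomic_coeff (N : ℕ) (hN : 0 < N) (m m' : ℕ) (hm : m ≠ 0) (hm' : m' ≠ 0)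
    (h : Nat.gcd m N = Nat.gcd m' N) :
    PowerSeries.coeff m (ld (cyclotomic N ℚ)) = PowerSeries.coeff m' (ld (cyclotomic N ℚ)) := by
  induction N using Nat.strong_induction_on with
  | _ N ih =>
    have hprod := prod_cyclotomic_eq_X_pow_sub_one hN ℚ
    have hld := congrArg ld hprod
    rw [ld_finset_prod _ _ (fun i _ => cyclotomic_coeff_zero_ne i), ld_X_pow_sub_one hN,
      ← Nat.cons_self_properDivisors hN.ne', Finset.sum_cons] at hld
    have e1 := congrArg (PowerSeries.coeff m) hld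
    have e2 := congrArg (PowerSeries.coeff m') hld
    rw [map_add, map_sum, PowerSeries.coeff_mk] at e1 e2
    have hsum : ∑ d ∈ N.properDivisors, PowerSeries.coeff m (ld (cyclotomic d ℚ)) =
        ∑ d ∈ N.properDivisors, PowerSeries.coeff m' (ld (cyclotomic d ℚ)) := by
      apply Finset.sum_congr rfl
      intro d hd
      rw [Nat.mem_properDivisors] at hd
      have hdpos : 0 < d := Nat.pos_of_dvd_of_pos hd.1 hN
      apply ih d hd.2 hdpos
      have g1 : Nat.gcd m d = Nat.gcd (Nat.gcd m N) d := by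
        rw [Nat.gcd_assoc, Nat.gcd_eq_right hd.1]
      have g2 : Nat.gcd m' d = Nat.gcd (Nat.gcd m' N) d := by
        rw [Nat.gcd_assoc, Nat.gcd_eq_right hd.1]
      rw [g1, g2, h]
    have hdvd : (N ∣ m) ↔ (N ∣ m') := by
      rw [← Nat.gcd_eq_right_iff_dvd, ← Nat.gcd_eq_right_iff_dvd, h]
    have hite : (if m ≠ 0 ∧ N ∣ m then -(N : ℚ) else 0) =
        (if m' ≠ 0 ∧ N ∣ m' then -(N : ℚ) else 0) := by
      simp only [ne_eq, hm, not_false_eq_true, true_and, hm', hdvd]
    rw [hite, ← e2, hsum] at e1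
    exact add_right_cancel e1

end Pool.Agent.Helper81
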