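import Mathlib

/-!
Trigonometric core: which orders `N` can occur for a root `exp (2 * pi * I / N)` of
`1 + z^b (1 + z + ... + z^(j-1)) + z^(2b+j-1)` with `b` even and `j` odd.
-/

namespace Pool.Agent.Helper81

open Real

theorem sin_three_gt {N : ℕ} (hN : 7 ≤ N) : 2 * sin (π / N) < sin (3 * (π / N)) := by
  have hNpos : (0 : ℝ) < N := by positivity
  have hN7 : (7 : ℝ) ≤ N := by exact_mod_cast hN
  have hx0 : 0 < π / N := by positivity
  have hx6 : π / N < π / 6 := by
    apply div_lt_div_of_pos_left Real.pi_pos (by norm_num)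
    linarith
  have hs0 : 0 < sin (π / N) := by
    apply Real.sin_pos_of_pos_of_lt_pi hx0
    have := Real.pi_pos
    linarith
  have hs : sin (π / N) < 1 / 2 := by
    rw [← Real.sin_pi_div_six]
    apply Real.sin_lt_sin_of_lt_of_le_pi_div_two
    · have := Real.pi_pos
      linarith
    · have := Real.pi_pos
      linarith
    · exact hx6
  rw [Real.sin_three_mul]
  nlinarith [mul_pos hs0 hs0, mul_pos hs0 (sub_pos.mpr hs)]

/-- The possible orders. -/
theorem order_cases (b j N : ℕ) (hb2 : 2 ≤ b) (hN : 0 < N) (hj : Odd j)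
    (h : sin (j * (π / N)) + 2 * sin (π / N) * cos ((2 * b + j - 1) * (π / N)) = 0) :
    N ∣ 3 * b ∨ N ∣ 6 * (b - 1) ∨ N ∣ (b - 2) ∨ N = 6 := by
  have hNpos : (0 : ℝ) < N := by exact_mod_cast hN
  have hNne : (N : ℝ) ≠ 0 := hNpos.ne'
  -- centred residue
  obtain ⟨q, r, hqr, hr1, hr2⟩ : ∃ q r : ℤ, (j : ℤ) = q * N + r ∧ 2 * r ≤ N ∧ -(N : ℤ) ≤ 2 * r := by
    have hN' : (0 : ℤ) < N := by exact_mod_cast hN
    refine ⟨((j : ℤ) * 2 + N) / (2 * N), (j : ℤ) - ((j : ℤ) * 2 + N) / (2 * N) * N, by ring, ?_, ?_⟩
    · have := Int.lt_ediv_add_one_mul_self ((j : ℤ) * 2 + N) (show (0 : ℤ) < 2 * N by positivity)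
      linarith
    · have := Int.ediv_mul_le ((j : ℤ) * 2 + N) (show (2 * (N : ℤ)) ≠ 0 by positivity)
      linarith
  have hjr : (j : ℝ) = q * N + r := by exact_mod_cast hqr
  -- reduce the equation
  have h' : sin (r * (π / N)) + 2 * sin (π / N) * cos ((2 * b + r - 1) * (π / N)) = 0 := by
    have e1 : (j : ℝ) * (π / N) = r * (π / N) + q * π := by
      rw [hjr]; field_simp; ring
    have e2 : (2 * (b : ℝ) + j - 1) * (π / N) = (2 * b + r - 1) * (π / N) + q * π := by
      rw [hjr]; field_simp; ring
    rw [e1, e2, Real.sin_add_int_mul_pi, Real.cos_add_int_mul_pi] at h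
    have h3 : (-1 : ℝ) ^ q * (sin (r * (π / N)) + 2 * sin (π / N) * cos ((2 * b + r - 1) * (π / N)))
        = 0 := by linarith
    rcases mul_eq_zero.mp h3 with h4 | h4
    · exact absurd h4 (zpow_ne_zero _ (by norm_num))
    · exact h4
  by_cases hrange : -2 ≤ r ∧ r ≤ 2
  · -- small residue
    obtain ⟨hl, hu⟩ := hrange
    by_cases hN1 : N = 1
    · left; rw [hN1]; exact one_dvd _
    have hN2 : 2 ≤ N := by omega
    have hN2' : (2 : ℝ) ≤ N := by exact_mod_cast hN2
    have hs0 : 0 < sin (π / N) := by
      apply Real.sin_pos_of_pos_of_lt_pi (by positivity)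
      rw [div_lt_iff₀ hNpos]
      nlinarith [Real.pi_pos]
    have hpi := Real.pi_pos
    have hpine := Real.pi_ne_zero
    -- parity: if `q * N` is odd then `N` is odd
    have hjodd : Odd ((j : ℤ)) := by exact_mod_cast hj
    interval_cases r
    · -- r = -2
      right
      have h5 : cos ((2 * b - 3) * (π / N)) = cos (π / N) := by
        have e : sin (((-2 : ℤ) : ℝ) * (π / N)) = - (2 * sin (π / N) * cos (π / N)) := by
          push_cast
          rw [show (-2 : ℝ) * (π / N) = -(2 * (π / N)) by ring, Real.sin_neg, Real.sin_two_mul]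
        rw [e] at h'
        have e2 : (2 * (b : ℝ) + ((-2 : ℤ) : ℝ) - 1) = 2 * b - 3 := by push_cast; ring
        rw [e2] at h'
        have : 2 * sin (π / N) * (cos ((2 * b - 3) * (π / N)) - cos (π / N)) = 0 := by linarith
        rcases mul_eq_zero.mp this with h6 | h6
        · linarith
        · linarith
      rw [Real.cos_eq_cos_iff] at h5
      obtain ⟨k, hk | hk⟩ := h5
      · -- π/N = 2kπ + (2b-3)π/N
        have : (1 : ℝ) = 2 * k * N + (2 * b - 3) := by
          field_simp at hk
          linarith
        have h7 : (1 : ℤ) = 2 * k * N + (2 * b - 3) := by exact_mod_cast this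
        right; left
        have h8 : ((b - 2 : ℕ) : ℤ) = (N : ℤ) * (-k) := by
          rw [Nat.cast_sub hb2]; push_cast; linarith
        exact_mod_cast Dvd.intro _ h8.symm
      · have : (1 : ℝ) = 2 * k * N - (2 * b - 3) := by
          field_simp at hk
          linarith
        have h7 : (1 : ℤ) = 2 * k * N - (2 * b - 3) := by exact_mod_cast this
        left
        have h8 : ((6 * (b - 1) : ℕ) : ℤ) = (N : ℤ) * (6 * k) := by
          rw [Nat.cast_mul, Nat.cast_sub (by omega : 1 ≤ b)]; push_cast; linarith
        exact_mod_cast Dvd.intro _ h8.symm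
    · -- r = -1
      right; left
      have h5 : cos ((2 * b - 2) * (π / N)) = cos (π / 3) := by
        have e : sin (((-1 : ℤ) : ℝ) * (π / N)) = - sin (π / N) := by
          push_cast
          rw [show (-1 : ℝ) * (π / N) = -(π / N) by ring, Real.sin_neg]
        rw [e] at h'
        have e2 : (2 * (b : ℝ) + ((-1 : ℤ) : ℝ) - 1) = 2 * b - 2 := by push_cast; ring
        rw [e2] at h'
        rw [Real.cos_pi_div_three]
        have : sin (π / N) * (2 * cos ((2 * b - 2) * (π / N)) - 1) = 0 := by linarith
        rcases mul_eq_zero.mp this with h6 | h6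
        · linarith
        · linarith
      rw [Real.cos_eq_cos_iff] at h5
      obtain ⟨k, hk | hk⟩ := h5
      · have : (N : ℝ) = 6 * k * N + 3 * (2 * b - 2) := by
          field_simp at hk
          linarith
        have h7 : (N : ℤ) = 6 * k * N + 3 * (2 * b - 2) := by exact_mod_cast this
        have h8 : ((6 * (b - 1) : ℕ) : ℤ) = (N : ℤ) * (1 - 6 * k) := by
          rw [Nat.cast_mul, Nat.cast_sub (by omega : 1 ≤ b)]; push_cast; linarith
        exact_mod_cast Dvd.intro _ h8.symm
      · have : (N : ℝ) = 6 * k * N - 3 * (2 * b - 2) := by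
          field_simp at hk
          linarith
        have h7 : (N : ℤ) = 6 * k * N - 3 * (2 * b - 2) := by exact_mod_cast this
        have h8 : ((6 * (b - 1) : ℕ) : ℤ) = (N : ℤ) * (6 * k - 1) := by
          rw [Nat.cast_mul, Nat.cast_sub (by omega : 1 ≤ b)]; push_cast; linarith
        exact_mod_cast Dvd.intro _ h8.symm
    · -- r = 0
      exfalso
      have h5 : cos ((2 * b - 1) * (π / N)) = 0 := by
        have e2 : (2 * (b : ℝ) + ((0 : ℤ) : ℝ) - 1) = 2 * b - 1 := by push_cast; ring
        rw [e2] at h'
        have e : sin (((0 : ℤ) : ℝ) * (π / N)) = 0 := by simp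
        rw [e, zero_add] at h'
        rcases mul_eq_zero.mp h' with h6 | h6
        · linarith
        · exact h6
      rw [Real.cos_eq_zero_iff] at h5
      obtain ⟨k, hk⟩ := h5
      have : (2 * (2 * b - 1) : ℝ) = (2 * k + 1) * N := by
        field_simp at hk
        linarith
      have h7 : (2 * (2 * b - 1) : ℤ) = (2 * k + 1) * N := by exact_mod_cast this
      have hodd : Odd (N : ℤ) := by
        rw [hqr, add_zero] at hjodd
        exact (Int.odd_mul.mp hjodd).2
      have h9 : Odd ((2 * k + 1) * (N : ℤ)) := (odd_two_mul_add_one k).mul hodd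
      rw [← h7] at h9
      exact (Int.not_odd_iff_even.mpr (even_two_mul _)) h9
    · -- r = 1
      left
      have h5 : cos (2 * b * (π / N)) = cos (2 * π / 3) := by
        have e2 : (2 * (b : ℝ) + ((1 : ℤ) : ℝ) - 1) = 2 * b := by push_cast; ring
        rw [e2] at h'
        have e : sin (((1 : ℤ) : ℝ) * (π / N)) = sin (π / N) := by simp
        rw [e] at h'
        have e3 : cos (2 * π / 3) = -(1 / 2) := by
          rw [show 2 * π / 3 = π - π / 3 by ring, Real.cos_pi_sub, Real.cos_pi_div_three]
        rw [e3]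
        have : sin (π / N) * (2 * cos (2 * b * (π / N)) + 1) = 0 := by linarith
        rcases mul_eq_zero.mp this with h6 | h6
        · linarith
        · linarith
      rw [Real.cos_eq_cos_iff] at h5
      obtain ⟨k, hk | hk⟩ := h5
      · have : (N : ℝ) = 3 * k * N + 3 * b := by
          field_simp at hk
          linarith
        have h7 : (N : ℤ) = 3 * k * N + 3 * b := by exact_mod_cast this
        have h8 : ((3 * b : ℕ) : ℤ) = (N : ℤ) * (1 - 3 * k) := by
          push_cast; linarith
        exact_mod_cast Dvd.intro _ h8.symm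
      · have : (N : ℝ) = 3 * k * N - 3 * b := by
          field_simp at hk
          linarith
        have h7 : (N : ℤ) = 3 * k * N - 3 * b := by exact_mod_cast this
        have h8 : ((3 * b : ℕ) : ℤ) = (N : ℤ) * (3 * k - 1) := by
          push_cast; linarith
        exact_mod_cast Dvd.intro _ h8.symm
    · -- r = 2
      exfalso
      have h5 : cos ((2 * b + 1) * (π / N)) = cos (π - π / N) := by
        have e2 : (2 * (b : ℝ) + ((2 : ℤ) : ℝ) - 1) = 2 * b + 1 := by push_cast; ring
        rw [e2] at h'
        have e : sin (((2 : ℤ) : ℝ) * (π / N)) = 2 * sin (π / N) * cos (π / N) := by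
          push_cast
          rw [Real.sin_two_mul]
        rw [e] at h'
        rw [Real.cos_pi_sub]
        have : 2 * sin (π / N) * (cos ((2 * b + 1) * (π / N)) + cos (π / N)) = 0 := by linarith
        rcases mul_eq_zero.mp this with h6 | h6
        · linarith
        · linarith
      have hodd : Odd (N : ℤ) := by
        rw [hqr] at hjodd
        have h10 : Odd (q * (N : ℤ)) := by
          have h11 := (Int.odd_add.mp hjodd)
          exact h11.mpr (by decide)
        exact (Int.odd_mul.mp h10).2
      rw [Real.cos_eq_cos_iff] at h5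
      obtain ⟨k, hk | hk⟩ := h5
      · have : (N - 1 : ℝ) = 2 * k * N + (2 * b + 1) := by
          field_simp at hk
          linarith
        have h7 : (N - 1 : ℤ) = 2 * k * N + (2 * b + 1) := by exact_mod_cast this
        have h9 : (N : ℤ) = 2 * (k * N + b + 1) := by linarith
        rw [h9] at hodd
        exact (Int.not_odd_iff_even.mpr (even_two_mul _)) hodd
      · have : (N - 1 : ℝ) = 2 * k * N - (2 * b + 1) := by
          field_simp at hk
          linarith
        have h7 : (N - 1 : ℤ) = 2 * k * N - (2 * b + 1) := by exact_mod_cast this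
        have h9 : (N : ℤ) = 2 * (k * N - b) := by linarith
        rw [h9] at hodd
        exact (Int.not_odd_iff_even.mpr (even_two_mul _)) hodd
  · -- large residue forces N = 6
    right; right; right
    have habs : 3 ≤ |r| := by
      by_contra hcon
      apply hrange
      have : |r| ≤ 2 := by omega
      exact abs_le.mp this
    have habs2 : 2 * |r| ≤ N := by
      rcases abs_cases r with ⟨h1, _⟩ | ⟨h1, _⟩ <;> rw [h1] <;> linarith
    have hN6 : 6 ≤ N := by
      have : (6 : ℤ) ≤ N := by linarith
      exact_mod_cast this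
    by_contra hne
    have hN7 : 7 ≤ N := by omega
    have hkey := sin_three_gt hN7
    have hs0 : 0 < sin (π / N) := by
      apply Real.sin_pos_of_pos_of_lt_pi (by positivity)
      rw [div_lt_iff₀ hNpos]
      have : (7 : ℝ) ≤ N := by exact_mod_cast hN7
      nlinarith [Real.pi_pos]
    have hmono : sin (3 * (π / N)) ≤ sin (|(r : ℝ)| * (π / N)) := by
      apply Real.sin_le_sin_of_le_of_le_pi_div_two
      · have : 0 ≤ 3 * (π / N) := by positivity
        linarith [Real.pi_pos]
      · have h1 : 2 * |(r : ℝ)| ≤ N := by exact_mod_cast habs2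
        rw [mul_div_assoc', div_le_iff₀ hNpos]
        nlinarith [Real.pi_pos]
      · apply mul_le_mul_of_nonneg_right _ (by positivity)
        exact_mod_cast habs
    have habssin : |sin (r * (π / N))| = sin (|(r : ℝ)| * (π / N)) := by
      have hnn : 0 ≤ sin (|(r : ℝ)| * (π / N)) := by
        have : 0 < sin (3 * (π / N)) := by linarith
        linarith
      rcases abs_cases (r : ℝ) with ⟨h1, _⟩ | ⟨h1, _⟩
      · rw [h1] at hnn ⊢
        exact abs_of_nonneg hnn
      · rw [h1] at hnn ⊢
        rw [neg_mul, Real.sin_neg] at hnn ⊢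
        rw [abs_of_nonpos (by linarith)]
    have hbound : |sin (r * (π / N))| ≤ 2 * sin (π / N) := by
      have e : sin (r * (π / N)) = -(2 * sin (π / N) * cos ((2 * b + r - 1) * (π / N))) := by
        linarith
      rw [e, abs_neg, abs_mul, abs_of_pos (by linarith : (0:ℝ) < 2 * sin (π / N))]
      have := Real.abs_cos_le_one ((2 * b + r - 1) * (π / N))
      nlinarith
    linarith

end Pool.Agent.Helper81
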