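import Mathlib
import Pool.Agent.Helper81.TrigCore
import Pool.Agent.Helper81.LogDeriv

/-!
The key polynomial `1 + X^b (1 - X + X^2 - ... ) + X^(2b+j-1)` is not a product of cyclotomic
polynomials when `b = 3k+2`, `k ≥ 1`, and `j ≥ 3` is odd.
-/

namespace Pool.Agent.Helper81

open Polynomial

/-- `g_j(t) = 1 - t + t^2 - ...` (`j` terms). -/
def altGeom {R : Type*} [CommRing R] (t : R) (j : ℕ) : R := ∑ i ∈ Finset.range j, (-t) ^ i

/-- `P_{b,j}(t) = 1 + t^b g_j(t) + t^(2b+j-1)`. -/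
def keyVal {R : Type*} [CommRing R] (b j : ℕ) (t : R) : R :=
  1 + t ^ b * altGeom t j + t ^ (2 * b + j - 1)

theorem altGeom_map {R S : Type*} [CommRing R] [CommRing S] (f : R →+* S) (t : R) (j : ℕ) :
    f (altGeom t j) = altGeom (f t) j := by
  simp [altGeom]

theorem keyVal_map {R S : Type*} [CommRing R] [CommRing S] (f : R →+* S) (b j : ℕ) (t : R) :
    f (keyVal b j t) = keyVal b j (f t) := by
  simp [keyVal, altGeom_map]

theorem one_add_mul_altGeom {R : Type*} [CommRing R] (t : R) (j : ℕ) :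
    (1 + t) * altGeom t j = 1 - (-t) ^ j := by
  unfold altGeom
  have := mul_neg_geom_sum (-t) j
  rw [sub_neg_eq_add] at this
  exact this

/-- value at the negative of a point of the unit circle, `b` even, `j` odd. -/
theorem keyVal_neg_eq (b j : ℕ) (hb : Even b) (hj : Odd j) (z : ℂ) :
    (1 - z) * keyVal b j (-z) = (1 - z) * (1 + z ^ (2 * b + j - 1)) + z ^ b - z ^ (b + j) := by
  have hn : Even (2 * b + j - 1) := by
    obtain ⟨c, hc⟩ := hj
    exact ⟨b + c, by omega⟩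
  have h1 := one_add_mul_altGeom (-z) j
  rw [neg_neg, ← sub_eq_add_neg] at h1
  unfold keyVal
  rw [hb.neg_pow, hn.neg_pow]
  calc (1 - z) * (1 + z ^ b * altGeom (-z) j + z ^ (2 * b + j - 1))
      = (1 - z) * (1 + z ^ (2 * b + j - 1)) + z ^ b * ((1 - z) * altGeom (-z) j) := by ring
    _ = _ := by rw [h1]; ring

/-- The trigonometric equation satisfied by a root `-exp(2 pi i / N)`. -/
theorem trig_of_root (b j N : ℕ) (hN : 0 < N) (hb : Even b) (hb2 : 2 ≤ b) (hj : Odd j)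
    (h : keyVal b j (-Complex.exp (2 * Real.pi * Complex.I / N)) = 0) :
    Real.sin (j * (Real.pi / N)) +
      2 * Real.sin (Real.pi / N) * Real.cos ((2 * b + j - 1) * (Real.pi / N)) = 0 := by
  have hNne : (N : ℂ) ≠ 0 := by exact_mod_cast hN.ne'
  set x : ℂ := ((Real.pi / N : ℝ) : ℂ) with hx
  have hxdef : x = Real.pi / N := by rw [hx]; push_cast; ring
  -- w = exp(i x), z = w^2
  set w : ℂ := Complex.exp (x * Complex.I) with hw
  have hwne : w ≠ 0 := Complex.exp_ne_zero _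
  have hz : Complex.exp (2 * Real.pi * Complex.I / N) = w ^ 2 := by
    rw [hw, ← Complex.exp_nat_mul]
    congr 1
    rw [hxdef]; push_cast; ring
  rw [hz] at h
  have h1 := keyVal_neg_eq b j hb hj (w ^ 2)
  rw [h, mul_zero] at h1
  have hj1 : 1 ≤ j := hj.pos
  -- express in terms of w and w⁻¹
  have hpow : ∀ m : ℕ, w ^ m * (w⁻¹) ^ m = 1 := by
    intro m; rw [← mul_pow, mul_inv_cancel₀ hwne, one_pow]
  have hE : ∀ m : ℕ, w ^ m = Complex.exp (m * x * Complex.I) := by
    intro m; rw [hw, ← Complex.exp_nat_mul]; congr 1; ring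
  have hE' : ∀ m : ℕ, (w⁻¹) ^ m = Complex.exp (-(m * x * Complex.I)) := by
    intro m; rw [inv_pow, hE, Complex.exp_neg]
  -- multiply h1 by w⁻¹^(2b+j)
  have h2 : ((w⁻¹) - w) * ((w⁻¹) ^ (2 * b + j - 1) + w ^ (2 * b + j - 1)) + (w⁻¹) ^ j - w ^ j = 0 := by
    have e0 : (w⁻¹) ^ (2 * b + j) * ((1 - w ^ 2) * (1 + (w ^ 2) ^ (2 * b + j - 1)) +
        (w ^ 2) ^ b - (w ^ 2) ^ (b + j)) = 0 := by rw [← h1, mul_zero]
    obtain ⟨n, hn⟩ : ∃ n, 2 * b + j = n + 1 := ⟨2 * b + j - 1, by omega⟩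
    have hn' : 2 * b + j - 1 = n := by omega
    rw [hn'] at e0 ⊢
    have a1 : (w⁻¹) ^ (2 * b + j) * (1 - w ^ 2) * (1 + (w ^ 2) ^ n) =
        ((w⁻¹) - w) * ((w⁻¹) ^ n + w ^ n) := by
      rw [hn, pow_succ]
      have : (w⁻¹) ^ n * (w ^ 2) ^ n = w ^ n := by
        rw [← pow_mul, two_mul, pow_add, ← mul_assoc, mul_comm ((w⁻¹) ^ n), hpow, one_mul]
      calc (w⁻¹) ^ n * w⁻¹ * (1 - w ^ 2) * (1 + (w ^ 2) ^ n)
          = (w⁻¹ * (1 - w ^ 2)) * ((w⁻¹) ^ n + (w⁻¹) ^ n * (w ^ 2) ^ n) := by ring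
        _ = _ := by
          rw [this]
          congr 1
          rw [mul_sub, mul_one, pow_two, ← mul_assoc, inv_mul_cancel₀ hwne, one_mul]
    have a2 : (w⁻¹) ^ (2 * b + j) * (w ^ 2) ^ b = (w⁻¹) ^ j := by
      rw [pow_add, ← pow_mul, mul_assoc, mul_comm ((w⁻¹) ^ j), ← mul_assoc,
        mul_comm ((w⁻¹) ^ (2 * b)), hpow, one_mul]
    have a3 : (w⁻¹) ^ (2 * b + j) * (w ^ 2) ^ (b + j) = w ^ j := by
      rw [← pow_mul, show 2 * (b + j) = (2 * b + j) + j by ring, pow_add w, ← mul_assoc,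
        mul_comm ((w⁻¹) ^ (2 * b + j)), hpow, one_mul]
    calc _ = (w⁻¹) ^ (2 * b + j) * (1 - w ^ 2) * (1 + (w ^ 2) ^ n) +
          (w⁻¹) ^ (2 * b + j) * (w ^ 2) ^ b - (w⁻¹) ^ (2 * b + j) * (w ^ 2) ^ (b + j) := by
            rw [a1, a2, a3]
      _ = 0 := by rw [← e0]; ring
  -- convert to sine and cosine
  have s1 : w⁻¹ - w = -2 * Complex.I * Complex.sin x := by
    rw [Complex.sin, hw, ← Complex.exp_neg]
    simp only [neg_mul]
    linear_combination (Complex.exp (-(x * Complex.I)) - Complex.exp (x * Complex.I)) *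
      Complex.I_sq
  have s2 : ∀ m : ℕ, (w⁻¹) ^ m - w ^ m = -2 * Complex.I * Complex.sin (m * x) := by
    intro m
    rw [Complex.sin, hE, hE']
    simp only [neg_mul]
    linear_combination (Complex.exp (-(m * x * Complex.I)) - Complex.exp (m * x * Complex.I)) *
      Complex.I_sq
  have s3 : ∀ m : ℕ, (w⁻¹) ^ m + w ^ m = 2 * Complex.cos (m * x) := by
    intro m
    rw [Complex.cos, hE, hE', neg_mul]
    ring
  have h3 : (-2 * Complex.I) * (Complex.sin (j * x) +
      2 * Complex.sin x * Complex.cos ((2 * b + j - 1 : ℕ) * x)) = 0 := by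
    rw [s1, s3, add_sub_assoc, s2] at h2
    linear_combination h2
  have h4 : Complex.sin (j * x) +
      2 * Complex.sin x * Complex.cos ((2 * b + j - 1 : ℕ) * x) = 0 := by
    rcases mul_eq_zero.mp h3 with h5 | h5
    · exfalso
      rcases mul_eq_zero.mp h5 with h6 | h6
      · norm_num at h6
      · exact Complex.I_ne_zero h6
    · exact h5
  have h6 : (((2 * b + j - 1 : ℕ) : ℝ)) = 2 * b + j - 1 := by
    rw [Nat.cast_sub (by omega)]; push_cast; ring
  have h7 : ((Real.sin (j * (Real.pi / N)) +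
      2 * Real.sin (Real.pi / N) * Real.cos (((2 * b + j - 1 : ℕ) : ℝ) * (Real.pi / N)) : ℝ) : ℂ)
      = 0 := by
    push_cast
    rw [← h4, hxdef]
  rw [h6] at h7
  exact_mod_cast h7


/-- If `Φ_N` divides the key polynomial (`b` even, `j` odd) then `gcd (b+1) N` divides `3`. -/
theorem gcd_dvd_three (b j N : ℕ) (hN : 0 < N) (hb : Even b) (hb2 : 2 ≤ b) (hj : Odd j)
    (h : cyclotomic N ℚ ∣ keyVal b j (X : ℚ[X])) : Nat.gcd (b + 1) N ∣ 3 := by
  have hζ := Complex.isPrimitiveRoot_exp N hN.ne'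
  set ζ : ℂ := Complex.exp (2 * Real.pi * Complex.I / N) with hζdef
  have hev : ∀ (z : ℂ) (p : ℚ[X]), aeval z (keyVal b j p) = keyVal b j (aeval z p) := by
    intro z p
    exact keyVal_map (aeval z : ℚ[X] →ₐ[ℚ] ℂ).toRingHom b j p
  have hroot : keyVal b j ζ = 0 := by
    have h1 : aeval ζ (keyVal b j (X : ℚ[X])) = 0 := by
      apply aeval_eq_zero_of_dvd_aeval_eq_zero h
      rw [cyclotomic_eq_minpoly_rat hζ hN]
      exact minpoly.aeval ℚ ζ
    rwa [hev, aeval_X] at h1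
  set μ : ℂ := -ζ with hμ
  have hμpow : μ ^ (2 * N) = 1 := by
    rw [hμ, (even_two_mul N).neg_pow, pow_mul', hζ.pow_eq_one, one_pow]
  have hN'pos : 0 < orderOf μ := by
    rw [orderOf_pos_iff]
    exact isOfFinOrder_iff_pow_eq_one.mpr ⟨2 * N, by positivity, hμpow⟩
  set N' := orderOf μ with hN'
  have hμprim : IsPrimitiveRoot μ N' := IsPrimitiveRoot.orderOf μ
  have hdvd : cyclotomic N' ℚ ∣ keyVal b j (-X : ℚ[X]) := by
    rw [cyclotomic_eq_minpoly_rat hμprim hN'pos]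
    apply minpoly.dvd
    rw [hev, map_neg, aeval_X, hμ, neg_neg, hroot]
  have hz := Complex.isPrimitiveRoot_exp N' hN'pos.ne'
  have hroot' : keyVal b j (-Complex.exp (2 * Real.pi * Complex.I / N')) = 0 := by
    have h1 : aeval (Complex.exp (2 * Real.pi * Complex.I / N')) (keyVal b j (-X : ℚ[X])) = 0 := by
      apply aeval_eq_zero_of_dvd_aeval_eq_zero hdvd
      rw [cyclotomic_eq_minpoly_rat hz hN'pos]
      exact minpoly.aeval ℚ _
    rwa [hev, map_neg, aeval_X] at h1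
  have htrig := trig_of_root b j N' hN'pos hb hb2 hj hroot'
  have hcases := order_cases b j N' hb2 hN'pos hj htrig
  have hN2 : N ∣ 2 * N' := by
    apply hζ.dvd_of_pow_eq_one
    have : ζ = -μ := by rw [hμ, neg_neg]
    rw [this, (even_two_mul N').neg_pow, pow_mul', hμprim.pow_eq_one, one_pow]
  have hodd : Odd (b + 1) := hb.add_one
  set g := Nat.gcd (b + 1) N with hg
  have hgb : g ∣ b + 1 := Nat.gcd_dvd_left _ _
  have hgN : g ∣ N := Nat.gcd_dvd_right _ _
  have hgodd : Odd g := hodd.of_dvd_nat hgb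
  have hgcop : Nat.Coprime g 2 := Nat.coprime_two_right.mpr hgodd
  have hgN' : g ∣ N' := hgcop.dvd_of_dvd_mul_left (hgN.trans hN2)
  rcases hcases with h1 | h1 | h1 | h1
  · have h2 : g ∣ 3 * b := hgN'.trans h1
    have h3 : g ∣ 3 * (b + 1) := Dvd.dvd.mul_left hgb 3
    have h4 : g ∣ 3 * (b + 1) - 3 * b := Nat.dvd_sub h3 h2
    have h5 : 3 * (b + 1) - 3 * b = 3 := by omega
    rwa [h5] at h4
  · have h2 : g ∣ 6 * (b - 1) := hgN'.trans h1
    have h3 : g ∣ 6 * (b + 1) := Dvd.dvd.mul_left hgb 6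
    have h4 : g ∣ 6 * (b + 1) - 6 * (b - 1) := Nat.dvd_sub h3 h2
    have h5 : 6 * (b + 1) - 6 * (b - 1) = 2 * (2 * 3) := by omega
    rw [h5] at h4
    exact hgcop.dvd_of_dvd_mul_left (hgcop.dvd_of_dvd_mul_left h4)
  · have h2 : g ∣ b - 2 := hgN'.trans h1
    have h4 : g ∣ (b + 1) - (b - 2) := Nat.dvd_sub hgb h2
    have h5 : (b + 1) - (b - 2) = 3 := by omega
    rwa [h5] at h4
  · rw [h1] at hgN'
    exact hgcop.dvd_of_dvd_mul_left (show g ∣ 2 * 3 from hgN')

theorem altGeom_coeff (j m : ℕ) (hm : m < j) :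
    (altGeom (X : ℚ[X]) j).coeff m = (-1) ^ m := by
  unfold altGeom
  rw [finsetSum_coeff]
  rw [Finset.sum_eq_single m]
  · rw [neg_pow, ← C_1, ← C_neg, ← C_pow, coeff_C_mul, coeff_X_pow, if_pos rfl, mul_one]
  · intro i _ hi
    rw [neg_pow, ← C_1, ← C_neg, ← C_pow, coeff_C_mul, coeff_X_pow, if_neg hi.symm, mul_zero]
  · intro h
    exact absurd (Finset.mem_range.mpr hm) h

/-- Low coefficients of the key polynomial. -/
theorem keyVal_coeff_lt (b j m : ℕ) (hb : 1 ≤ b) (hj : 2 ≤ j) (hm0 : m ≠ 0) (hm : m < b) :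
    (keyVal b j (X : ℚ[X])).coeff m = 0 := by
  unfold keyVal
  rw [coeff_add, coeff_add, coeff_one, if_neg hm0, coeff_X_pow_mul', if_neg (by omega),
    coeff_X_pow, if_neg (by omega)]
  norm_num

theorem keyVal_coeff_zero (b j : ℕ) (hb : 1 ≤ b) (hj : 2 ≤ j) :
    (keyVal b j (X : ℚ[X])).coeff 0 = 1 := by
  unfold keyVal
  rw [coeff_add, coeff_add, coeff_one_zero, coeff_X_pow_mul', if_neg (by omega),
    coeff_X_pow, if_neg (by omega)]
  norm_num

theorem keyVal_coeff_succ (b j : ℕ) (hb : 1 ≤ b) (hj : 2 ≤ j) :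
    (keyVal b j (X : ℚ[X])).coeff (b + 1) = -1 := by
  unfold keyVal
  rw [coeff_add, coeff_add, coeff_one, if_neg (by omega), coeff_X_pow_mul', if_pos (by omega),
    coeff_X_pow, if_neg (by omega)]
  rw [show b + 1 - b = 1 by omega, altGeom_coeff j 1 (by omega)]
  norm_num

theorem coeff_X_mul_derivative (f : ℚ[X]) (m : ℕ) :
    (X * derivative f).coeff m = m * f.coeff m := by
  cases m with
  | zero => simp
  | succ m => rw [coeff_X_mul, coeff_derivative]; push_cast; ring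

/-- coefficients of the logarithmic derivative of the key polynomial. -/
theorem ld_keyVal_coeff_lt (b j m : ℕ) (hb : 1 ≤ b) (hj : 2 ≤ j) (hm : m < b) :
    PowerSeries.coeff m (ld (keyVal b j (X : ℚ[X]))) = 0 := by
  have h0 : (keyVal b j (X : ℚ[X])).coeff 0 ≠ 0 := by
    rw [keyVal_coeff_zero b j hb hj]; exact one_ne_zero
  have h1 := congrArg (PowerSeries.coeff m) (ld_mul_self h0)
  rw [coeff_coe, coeff_X_mul_derivative, PowerSeries.coeff_mul] at h1
  rw [Finset.sum_eq_single (m, 0)] at h1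
  · rw [coeff_coe, keyVal_coeff_zero b j hb hj, mul_one] at h1
    rw [h1]
    by_cases hm0 : m = 0
    · rw [hm0]; simp
    · rw [keyVal_coeff_lt b j m hb hj hm0 hm, mul_zero]
  · rintro ⟨p, q⟩ hpq hne
    rw [Finset.HasAntidiagonal.mem_antidiagonal] at hpq
    simp only at hpq
    have hq0 : q ≠ 0 := by
      rintro rfl
      apply hne
      rw [← hpq, add_zero]
    rw [coeff_coe]
    simp only
    rw [keyVal_coeff_lt b j q hb hj hq0 (by omega), mul_zero]
  · intro h
    exfalso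
    apply h
    rw [Finset.HasAntidiagonal.mem_antidiagonal]
    simp

theorem ld_keyVal_coeff_succ (b j : ℕ) (hb : 2 ≤ b) (hj : 2 ≤ j) :
    PowerSeries.coeff (b + 1) (ld (keyVal b j (X : ℚ[X]))) = -((b : ℚ) + 1) := by
  have h0 : (keyVal b j (X : ℚ[X])).coeff 0 ≠ 0 := by
    rw [keyVal_coeff_zero b j (by omega) hj]; exact one_ne_zero
  have h1 := congrArg (PowerSeries.coeff (b + 1)) (ld_mul_self h0)
  rw [coeff_coe, coeff_X_mul_derivative, PowerSeries.coeff_mul] at h1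
  rw [Finset.sum_eq_single (b + 1, 0)] at h1
  · rw [coeff_coe, keyVal_coeff_zero b j (by omega) hj, mul_one] at h1
    rw [h1, keyVal_coeff_succ b j (by omega) hj]
    push_cast; ring
  · rintro ⟨p, q⟩ hpq hne
    rw [Finset.HasAntidiagonal.mem_antidiagonal] at hpq
    simp only at hpq
    have hq0 : q ≠ 0 := by
      rintro rfl
      apply hne
      rw [← hpq, add_zero]
    rw [coeff_coe]
    simp only
    by_cases hqb : q < b
    · rw [keyVal_coeff_lt b j q (by omega) hj hq0 hqb, mul_zero]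
    · rw [ld_keyVal_coeff_lt b j p (by omega) hj (by omega), zero_mul]
  · intro h
    exfalso
    apply h
    rw [Finset.HasAntidiagonal.mem_antidiagonal]
    simp

/-- even case -/
theorem keyVal_not_cyclotomic_even (k j : ℕ) (hk : 1 ≤ k) (hke : Even k) (hj3 : 3 ≤ j)
    (hj : Odd j) (M : Multiset ℕ) (hM : ∀ N ∈ M, 0 < N) (c : ℚ) (hc : c ≠ 0) :
    keyVal (3 * k + 2) j (X : ℚ[X]) ≠ C c * (M.map (fun N => cyclotomic N ℚ)).prod := by
  intro h
  set b := 3 * k + 2 with hb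
  have hbe : Even b := by
    rw [hb]
    exact (hke.mul_left 3).add (by decide)
  have hP0 : ∀ N ∈ M, (cyclotomic N ℚ).coeff 0 ≠ 0 := fun N _ => cyclotomic_coeff_zero_ne N
  have hld : ∀ m : ℕ, PowerSeries.coeff m (ld (keyVal b j (X : ℚ[X]))) =
      (M.map (fun N => PowerSeries.coeff m (ld (cyclotomic N ℚ)))).sum := by
    intro m
    rw [h, ld_mul (by simpa using hc) (coeff_zero_multiset_prod M _ hP0), ld_C hc, zero_add,
      ld_multiset_prod M _ hP0, map_multiset_sum, Multiset.map_map]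
    rfl
  have e1 := hld (b + 1)
  have e2 := hld 3
  have e3 : (M.map (fun N => PowerSeries.coeff (b + 1) (ld (cyclotomic N ℚ)))).sum =
      (M.map (fun N => PowerSeries.coeff 3 (ld (cyclotomic N ℚ)))).sum := by
    congr 1
    apply Multiset.map_congr rfl
    intro N hN
    apply ld_cyclotomic_coeff N (hM N hN) _ _ (by omega) (by omega)
    have hdvd : cyclotomic N ℚ ∣ keyVal b j (X : ℚ[X]) := by
      rw [h]
      apply Dvd.dvd.mul_left
      exact Multiset.dvd_prod (Multiset.mem_map_of_mem _ hN)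
    have hg := gcd_dvd_three b j N (hM N hN) hbe (by omega) hj hdvd
    have h3b : 3 ∣ b + 1 := ⟨k + 1, by omega⟩
    apply Nat.dvd_antisymm
    · exact Nat.dvd_gcd hg (Nat.gcd_dvd_right _ _)
    · exact Nat.dvd_gcd ((Nat.gcd_dvd_left 3 N).trans h3b) (Nat.gcd_dvd_right _ _)
  rw [← e1, ← e2, ld_keyVal_coeff_succ b j (by omega) (by omega),
    ld_keyVal_coeff_lt b j 3 (by omega) (by omega) (by omega)] at e3
  have : (0 : ℚ) < (b : ℚ) + 1 := by positivity
  linarith

/-- odd case: a real root in `(-1, 0)`. -/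
theorem keyVal_not_cyclotomic_odd (k j : ℕ) (hk : 1 ≤ k) (hko : Odd k) (hj3 : 3 ≤ j)
    (hj : Odd j) (M : Multiset ℕ) (hM : ∀ N ∈ M, 0 < N) (c : ℚ) (hc : c ≠ 0) :
    keyVal (3 * k + 2) j (X : ℚ[X]) ≠ C c * (M.map (fun N => cyclotomic N ℚ)).prod := by
  intro h
  set b := 3 * k + 2 with hb
  have hbo : Odd b := by
    rw [hb]
    exact (Odd.mul (by decide) hko).add_even (by decide)
  have hn : Even (2 * b + j - 1) := by
    obtain ⟨c, hc⟩ := hj
    exact ⟨b + c, by omega⟩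
  -- the real function x ↦ P(-x)
  have hval : ∀ x : ℝ, keyVal b j (-x) =
      1 - x ^ b * (∑ i ∈ Finset.range j, x ^ i) + x ^ (2 * b + j - 1) := by
    intro x
    unfold keyVal altGeom
    rw [hbo.neg_pow, hn.neg_pow, neg_neg]
    ring
  have hcont : Continuous (fun x : ℝ => keyVal b j (-x)) := by
    have : (fun x : ℝ => keyVal b j (-x)) = fun x =>
        1 - x ^ b * (∑ i ∈ Finset.range j, x ^ i) + x ^ (2 * b + j - 1) := by
      funext x; exact hval x
    rw [this]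
    fun_prop
  have h0 : keyVal b j (-(0 : ℝ)) = 1 := by
    rw [hval, zero_pow (by omega), zero_pow (by omega)]
    ring
  have h1 : keyVal b j (-(1 : ℝ)) = 2 - j := by
    rw [hval]
    simp
    ring
  have hj3' : (3 : ℝ) ≤ j := by exact_mod_cast hj3
  obtain ⟨x, hx, hx0⟩ : ∃ x ∈ Set.Icc (0 : ℝ) 1, keyVal b j (-x) = 0 := by
    have := intermediate_value_Icc' (show (0 : ℝ) ≤ 1 by norm_num) hcont.continuousOn
    have hmem : (0 : ℝ) ∈ Set.Icc (keyVal b j (-(1 : ℝ))) (keyVal b j (-(0 : ℝ))) := by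
      rw [h0, h1]
      constructor <;> linarith
    exact this hmem
  have hxlt : x < 1 := by
    rcases lt_or_eq_of_le hx.2 with h2 | h2
    · exact h2
    · rw [h2, h1] at hx0; linarith
  -- evaluate the product at -x
  have hev := congrArg (aeval (-x : ℝ)) h
  have hev' : aeval (-x : ℝ) (keyVal b j (X : ℚ[X])) = keyVal b j (-x) := by
    have := keyVal_map (aeval (-x : ℝ) : ℚ[X] →ₐ[ℚ] ℝ).toRingHom b j X
    simpa using this
  rw [hev', hx0, map_mul, aeval_C, map_multiset_prod, Multiset.map_map] at hev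
  have hcne : (algebraMap ℚ ℝ) c ≠ 0 := by
    simpa using hc
  have hprod : (Multiset.map (⇑(aeval (-x : ℝ)) ∘ fun N => cyclotomic N ℚ) M).prod = 0 := by
    rcases mul_eq_zero.mp hev.symm with h2 | h2
    · exact absurd h2 hcne
    · exact h2
  rw [Multiset.prod_eq_zero_iff, Multiset.mem_map] at hprod
  obtain ⟨N, hN, hNz⟩ := hprod
  have hNpos := hM N hN
  -- then (-x)^N = 1
  have hpow : (-x) ^ N = 1 := by
    have hdvd : cyclotomic N ℚ ∣ X ^ N - 1 := cyclotomic.dvd_X_pow_sub_one N ℚ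
    have h2 := aeval_eq_zero_of_dvd_aeval_eq_zero hdvd hNz
    simp only [map_sub, map_pow, aeval_X, map_one] at h2
    linarith
  have habs : |(-x) ^ N| < 1 := by
    rw [abs_pow, abs_neg, abs_of_nonneg hx.1]
    exact pow_lt_one₀ hx.1 hxlt hNpos.ne'
  rw [hpow, abs_one] at habs
  exact lt_irrefl _ habs

/-- The key polynomial is never a rational multiple of a product of cyclotomic polynomials. -/
theorem keyVal_not_cyclotomic (k j : ℕ) (hk : 1 ≤ k) (hj3 : 3 ≤ j)
    (hj : Odd j) (M : Multiset ℕ) (hM : ∀ N ∈ M, 0 < N) (c : ℚ) (hc : c ≠ 0) :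
    keyVal (3 * k + 2) j (X : ℚ[X]) ≠ C c * (M.map (fun N => cyclotomic N ℚ)).prod := by
  rcases Nat.even_or_odd k with hke | hko
  · exact keyVal_not_cyclotomic_even k j hk hke hj3 hj M hM c hc
  · exact keyVal_not_cyclotomic_odd k j hk hko hj3 hj M hM c hc

end Pool.Agent.Helper81
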