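import Mathlib
import Pool.Agent.Helper81.KeyPoly

/-!
# Q1 of MP_54f4f3_gt for the L-space knots T(3,q;2,s)

Closed braids are treated through the Artin braid groups and Markov moves (Alexander's and Markov's
theorems); the Alexander polynomial of a closed 3-braid is given by the reduced Burau matrix.
-/

namespace Pool.Agent.Helper81.ThreeBraidTwistedTorus

open Polynomial LaurentPolynomial

/-- The Artin relations for the braid group on `m + 1` strands, with generators `0, ..., m - 1`. -/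
def artinRels (m : ℕ) : Set (FreeGroup (Fin m)) :=
  {r | ∃ i j : Fin m,
      (i.val + 1 = j.val ∧
        r = FreeGroup.of i * FreeGroup.of j * FreeGroup.of i *
          (FreeGroup.of j * FreeGroup.of i * FreeGroup.of j)⁻¹) ∨
      (i.val + 2 ≤ j.val ∧
        r = FreeGroup.of i * FreeGroup.of j * (FreeGroup.of j * FreeGroup.of i)⁻¹)}

/-- The braid group on `m + 1` strands. -/
abbrev BraidGroup (m : ℕ) : Type := PresentedGroup (artinRels m)

/-- The Artin generator number `i` (crossing the strands `i` and `i + 1`). -/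
def sigma {m : ℕ} (i : Fin m) : BraidGroup m := PresentedGroup.of i

theorem artin_braid {m : ℕ} (i j : Fin m) (h : i.val + 1 = j.val) :
    sigma i * sigma j * sigma i = sigma j * sigma i * sigma j := by
  have : (PresentedGroup.mk (artinRels m)) (FreeGroup.of i * FreeGroup.of j * FreeGroup.of i *
          (FreeGroup.of j * FreeGroup.of i * FreeGroup.of j)⁻¹) = 1 :=
    PresentedGroup.one_of_mem ⟨i, j, Or.inl ⟨h, rfl⟩⟩
  rw [map_mul, map_inv, mul_inv_eq_one] at this
  simpa [sigma, PresentedGroup.of] using this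

theorem artin_comm {m : ℕ} (i j : Fin m) (h : i.val + 2 ≤ j.val) :
    sigma i * sigma j = sigma j * sigma i := by
  have : (PresentedGroup.mk (artinRels m)) (FreeGroup.of i * FreeGroup.of j *
          (FreeGroup.of j * FreeGroup.of i)⁻¹) = 1 :=
    PresentedGroup.one_of_mem ⟨i, j, Or.inr ⟨h, rfl⟩⟩
  rw [map_mul, map_inv, mul_inv_eq_one] at this
  simpa [sigma, PresentedGroup.of] using this

/-- The homomorphism that adds one trivial strand on the right. -/
def addStrand (m : ℕ) : BraidGroup m →* BraidGroup (m + 1) :=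
  PresentedGroup.toGroup (f := fun i : Fin m => sigma i.castSucc) (by
    rintro r ⟨i, j, ⟨h, rfl⟩ | ⟨h, rfl⟩⟩
    · simp only [map_mul, map_inv, FreeGroup.lift_apply_of]
      rw [mul_inv_eq_one]
      exact artin_braid _ _ h
    · simp only [map_mul, map_inv, FreeGroup.lift_apply_of]
      rw [mul_inv_eq_one]
      exact artin_comm _ _ h)

/-- The Markov moves on braids with any number of strands: conjugation, and stabilisation with a
positive or a negative crossing. -/
inductive MarkovMove : (Σ m : ℕ, BraidGroup m) → (Σ m : ℕ, BraidGroup m) → Prop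
  | conj (m : ℕ) (a b : BraidGroup m) : MarkovMove ⟨m, a⟩ ⟨m, b * a * b⁻¹⟩
  | stabPos (m : ℕ) (a : BraidGroup m) :
      MarkovMove ⟨m, a⟩ ⟨m + 1, addStrand m a * sigma (Fin.last m)⟩
  | stabNeg (m : ℕ) (a : BraidGroup m) :
      MarkovMove ⟨m, a⟩ ⟨m + 1, addStrand m a * (sigma (Fin.last m))⁻¹⟩

/-- Two braids are Markov equivalent; by Markov's theorem this means that their closures are the
same oriented link. -/
def SameClosure : (Σ m : ℕ, BraidGroup m) → (Σ m : ℕ, BraidGroup m) → Prop :=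
  Relation.EqvGen MarkovMove

/-- The braid `(σ_0 σ_1 ⋯ σ_(m-1))^q` on `m + 1` strands, whose closure is `T(m + 1, q)`. -/
def torusBraid (m q : ℕ) : BraidGroup m := ((List.ofFn (fun i : Fin m => sigma i)).prod) ^ q

/-- The closure of the braid is a torus knot `T(m + 1, q)`. -/
def IsTorusKnot (x : Σ m : ℕ, BraidGroup m) : Prop :=
  ∃ m q : ℕ, Nat.Coprime (m + 1) q ∧ SameClosure x ⟨m, torusBraid m q⟩

/-- The braid `(σ_0 σ_1)^q σ_0^(2 s)` on three strands. Its closure is the twisted torus knot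
`T(3, q; 2, s)`: the torus knot `T(3, q)` with `s` full twists on two adjacent strands. -/
def twistedTorus (q s : ℕ) : BraidGroup 2 := (sigma 0 * sigma 1) ^ q * sigma 0 ^ (2 * s)

/-! ### The reduced Burau representation of the braid group on three strands -/

theorem T_one_mul_T_neg_one : (T 1 : ℤ[T;T⁻¹]) * T (-1) = 1 := by
  rw [← T_add, add_neg_cancel, T_zero]

theorem T_neg_one_mul_T_one : (T (-1) : ℤ[T;T⁻¹]) * T 1 = 1 := by
  rw [← T_add, neg_add_cancel, T_zero]

theorem matA_inv {R : Type*} [CommRing R] (t u : R) (h : t * u = 1) :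
    (!![-t, 1; 0, 1] * !![-u, u; 0, 1] : Matrix (Fin 2) (Fin 2) R) = 1 := by
  rw [Matrix.mul_fin_two, Matrix.one_fin_two]
  simp [h]

theorem matB_inv {R : Type*} [CommRing R] (t u : R) (h : t * u = 1) :
    (!![1, 0; t, -t] * !![1, 0; 1, -u] : Matrix (Fin 2) (Fin 2) R) = 1 := by
  rw [Matrix.mul_fin_two, Matrix.one_fin_two]
  simp [h]

theorem matA_inv' {R : Type*} [CommRing R] (t u : R) (h : u * t = 1) :
    (!![-u, u; 0, 1] * !![-t, 1; 0, 1] : Matrix (Fin 2) (Fin 2) R) = 1 := by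
  rw [Matrix.mul_fin_two, Matrix.one_fin_two]
  simp [h]

theorem matB_inv' {R : Type*} [CommRing R] (t u : R) (h : u * t = 1) :
    (!![1, 0; 1, -u] * !![1, 0; t, -t] : Matrix (Fin 2) (Fin 2) R) = 1 := by
  rw [Matrix.mul_fin_two, Matrix.one_fin_two]
  simp [h]

/-- reduced Burau matrix of the first generator -/
noncomputable def burauA : GL (Fin 2) ℤ[T;T⁻¹] :=
  ⟨!![-T 1, 1; 0, 1], !![-T (-1), T (-1); 0, 1], matA_inv _ _ T_one_mul_T_neg_one,
    matA_inv' _ _ T_neg_one_mul_T_one⟩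

/-- reduced Burau matrix of the second generator -/
noncomputable def burauB : GL (Fin 2) ℤ[T;T⁻¹] :=
  ⟨!![1, 0; T 1, -T 1], !![1, 0; 1, -T (-1)], matB_inv _ _ T_one_mul_T_neg_one,
    matB_inv' _ _ T_neg_one_mul_T_one⟩

/-- The matrix of the first generator over any commutative ring. -/
def matA {R : Type*} [CommRing R] (t : R) : Matrix (Fin 2) (Fin 2) R := !![-t, 1; 0, 1]

/-- The matrix of the second generator over any commutative ring. -/
def matB {R : Type*} [CommRing R] (t : R) : Matrix (Fin 2) (Fin 2) R := !![1, 0; t, -t]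

theorem mat_braid {R : Type*} [CommRing R] (t : R) :
    matA t * matB t * matA t = matB t * matA t * matB t := by
  simp only [matA, matB, Matrix.mul_fin_two]
  simp

theorem burau_rel : burauA * burauB * burauA = burauB * burauA * burauB := by
  apply Units.ext
  exact mat_braid (T 1 : ℤ[T;T⁻¹])

/-- The reduced Burau representation of the braid group on three strands. -/
noncomputable def burau : BraidGroup 2 →* GL (Fin 2) ℤ[T;T⁻¹] :=
  PresentedGroup.toGroup (f := ![burauA, burauB]) (by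
    rintro r ⟨i, j, ⟨h, rfl⟩ | ⟨h, rfl⟩⟩
    · have hi : i = 0 := by omega
      have hj : j = 1 := by omega
      subst hi; subst hj
      simp only [map_mul, map_inv, FreeGroup.lift_apply_of]
      rw [mul_inv_eq_one]
      exact burau_rel
    · exfalso
      omega)

/-- Equality up to multiplication by a unit `± t^k`. -/
def UpToUnit (f g : ℤ[T;T⁻¹]) : Prop := ∃ k : ℤ, f = T k * g ∨ f = -(T k * g)

/-- `Δ` is the Alexander polynomial of the closure of the 3-braid `β` (a knot):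
`(1 + t + t^2) Δ(t) = det (I - burau β)` up to a unit `± t^k`. -/
def IsAlexander (β : BraidGroup 2) (Δ : ℤ[T;T⁻¹]) : Prop :=
  UpToUnit ((1 + T 1 + T 2) * Δ) (Matrix.det (1 - (burau β : Matrix (Fin 2) (Fin 2) ℤ[T;T⁻¹])))

/-- `Δ` is a product of cyclotomic polynomials (repetitions allowed) up to a unit `± t^k`. -/
def IsCyclotomicProduct (Δ : ℤ[T;T⁻¹]) : Prop :=
  ∃ M : Multiset ℕ, (∀ N ∈ M, 0 < N) ∧
    UpToUnit Δ (toLaurent (M.map (fun N => cyclotomic N ℤ)).prod)

/-! ### Matrix computations -/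

open Pool.Agent.Helper81

theorem matA_pow {R : Type*} [CommRing R] (t : R) (a : ℕ) :
    matA t ^ a = !![(-t) ^ a, altGeom t a; 0, 1] := by
  induction a with
  | zero => simp [altGeom, Matrix.one_fin_two]
  | succ a ih =>
    rw [pow_succ, ih, matA, Matrix.mul_fin_two]
    simp [altGeom, Finset.sum_range_succ, pow_succ, add_comm]

theorem matAB_cube {R : Type*} [CommRing R] (t : R) :
    (matA t * matB t) ^ 3 = t ^ 3 • (1 : Matrix (Fin 2) (Fin 2) R) := by
  rw [pow_succ, pow_two, matA, matB]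
  simp only [Matrix.mul_fin_two, Matrix.one_fin_two]
  ext i j
  fin_cases i <;> fin_cases j <;> simp <;> ring

theorem matAB_pow {R : Type*} [CommRing R] (t : R) (k e : ℕ) :
    (matA t * matB t) ^ (3 * k + e) = t ^ (3 * k) • (matA t * matB t) ^ e := by
  rw [pow_add, pow_mul, matAB_cube, _root_.smul_pow, one_pow, ← pow_mul, smul_mul_assoc, one_mul]

theorem det_one_sub_smul {R : Type*} [CommRing R] (t c : R) (a : ℕ) :
    Matrix.det (1 - c • (matA t ^ a * matB t)) =
      1 - c * ((-t) ^ a + altGeom t a * t - t) + c ^ 2 * (-t) ^ (a + 1) := by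
  rw [matA_pow, matB, Matrix.mul_fin_two, Matrix.one_fin_two, Matrix.det_fin_two]
  simp
  ring

theorem altGeom_succ {R : Type*} [CommRing R] (t : R) (j : ℕ) :
    altGeom t (j + 1) = altGeom t j + (-t) ^ j := by
  simp [altGeom, Finset.sum_range_succ]

theorem altGeom_succ' {R : Type*} [CommRing R] (t : R) (j : ℕ) :
    altGeom t (j + 1) = 1 - t * altGeom t j := by
  unfold altGeom
  rw [Finset.sum_range_succ', Finset.mul_sum]
  simp only [pow_succ, pow_zero]
  rw [sub_eq_add_neg, ← Finset.sum_neg_distrib, add_comm]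
  congr 1
  apply Finset.sum_congr rfl
  intro i _
  ring

theorem det_key {R : Type*} [CommRing R] (t : R) (k j : ℕ) (hj : Odd j) :
    Matrix.det (1 - t ^ (3 * k) • (matA t ^ (j + 2) * matB t)) = keyVal (3 * k + 2) j t := by
  rw [det_one_sub_smul]
  have h1 : altGeom t (j + 2) = 1 - t * (altGeom t j + (-t) ^ j) := by
    rw [altGeom_succ', altGeom_succ]
  have h2 : (-t) ^ (j + 2 + 1) = t ^ (j + 3) := by
    rw [show j + 2 + 1 = j + 3 by ring]
    exact (hj.add_odd (by decide)).neg_pow t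
  have h3 : (-t) ^ (j + 2) = (-t) ^ j * t ^ 2 := by
    rw [pow_add]; ring
  unfold keyVal
  rw [h1, h2, h3, show 2 * (3 * k + 2) + j - 1 = 3 * k + 3 * k + (j + 3) by omega]
  ring

theorem det_ab {R : Type*} [CommRing R] (t c : R) :
    Matrix.det (1 - c • (matA t ^ 1 * matB t)) = 1 + c * t + c ^ 2 * t ^ 2 := by
  rw [det_one_sub_smul]
  simp [altGeom]

theorem det_case_one {R : Type*} [CommRing R] (t : R) (k s : ℕ) :
    Matrix.det (1 - (matA t * matB t) ^ (3 * k + 1) * matA t ^ (2 * s)) =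
      Matrix.det (1 - t ^ (3 * k) • (matA t ^ (2 * s + 1) * matB t)) := by
  rw [Matrix.det_one_sub_mul_comm, matAB_pow, pow_one, mul_smul_comm, ← mul_assoc, ← pow_succ]

theorem det_case_two {R : Type*} [CommRing R] (t : R) (k s : ℕ) :
    Matrix.det (1 - (matA t * matB t) ^ (3 * k + 2) * matA t ^ (2 * s)) =
      Matrix.det (1 - t ^ (3 * k) • (matA t ^ (2 * s + 1 + 2) * matB t)) := by
  have h : (matA t * matB t) ^ (3 * k + 2) * matA t ^ (2 * s) =
      (t ^ (3 * k) • (matA t * matA t * matB t)) * matA t ^ (2 * s + 1) := by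
    rw [matAB_pow, pow_two]
    have e : matA t * matB t * (matA t * matB t) = matA t * matA t * matB t * matA t := by
      calc matA t * matB t * (matA t * matB t) = matA t * (matB t * matA t * matB t) := by
            simp only [mul_assoc]
        _ = matA t * (matA t * matB t * matA t) := by rw [mat_braid]
        _ = _ := by simp only [mul_assoc]
    rw [e, smul_mul_assoc, smul_mul_assoc, pow_succ' (matA t) (2 * s), mul_assoc _ (matA t) _]
  rw [h, Matrix.det_one_sub_mul_comm, mul_smul_comm]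
  congr 3
  rw [pow_add (matA t) (2 * s + 1) 2, pow_two]
  simp only [mul_assoc]

theorem burau_twisted (q s : ℕ) :
    (burau (twistedTorus q s) : Matrix (Fin 2) (Fin 2) ℤ[T;T⁻¹]) =
      (matA (T 1) * matB (T 1)) ^ q * matA (T 1) ^ (2 * s) := by
  have h0 : burau (sigma 0) = burauA := PresentedGroup.toGroup.of _
  have h1 : burau (sigma 1) = burauB := PresentedGroup.toGroup.of _
  unfold twistedTorus
  rw [map_mul, map_pow, map_mul, map_pow, h0, h1, Units.val_mul, Units.val_pow_eq_pow_val,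
    Units.val_pow_eq_pow_val, Units.val_mul]
  rfl

theorem keyVal_toLaurent (b j : ℕ) :
    keyVal b j (T 1 : ℤ[T;T⁻¹]) = toLaurent (keyVal b j (X : ℤ[X])) := by
  rw [keyVal_map, toLaurent_X]

/-! ### Cyclotomic factorisations -/

theorem trinomial_factor (q : ℕ) (hq0 : 0 < q) (hq : ¬ 3 ∣ q) :
    (1 + X ^ q + X ^ (2 * q) : ℤ[X]) = cyclotomic 3 ℤ *
      ((((3 * q).divisors \ q.divisors).erase 3).val.map (fun N => cyclotomic N ℤ)).prod := by
  have h3q : 0 < 3 * q := by positivity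
  have hsub : q.divisors ⊆ (3 * q).divisors :=
    Nat.divisors_subset_of_dvd h3q.ne' (Dvd.intro_left 3 rfl)
  have hmem : 3 ∈ (3 * q).divisors \ q.divisors := by
    rw [Finset.mem_sdiff, Nat.mem_divisors, Nat.mem_divisors]
    exact ⟨⟨Dvd.intro q rfl, h3q.ne'⟩, fun h => hq h.1⟩
  have hne : (X ^ q - 1 : ℤ[X]) ≠ 0 := X_pow_sub_one_ne_zero' q hq0
  apply mul_left_cancel₀ hne
  have e1 : (X ^ q - 1 : ℤ[X]) * (1 + X ^ q + X ^ (2 * q)) = X ^ (3 * q) - 1 := by ring
  rw [e1, ← prod_cyclotomic_eq_X_pow_sub_one h3q ℤ, ← prod_cyclotomic_eq_X_pow_sub_one hq0 ℤ,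
    ← Finset.prod_sdiff hsub, mul_comm]
  congr 1
  rw [← Finset.mul_prod_erase _ _ hmem]
  rfl
where
  X_pow_sub_one_ne_zero' (q : ℕ) (hq0 : 0 < q) : (X ^ q - 1 : ℤ[X]) ≠ 0 :=
    (monic_X_pow_sub_C (1 : ℤ) hq0.ne').ne_zero

theorem binomial_factor (a : ℕ) (ha : Odd a) :
    (1 + X ^ a : ℤ[X]) = (1 + X) *
      ((((2 * a).divisors \ a.divisors).erase 2).val.map (fun N => cyclotomic N ℤ)).prod := by
  have ha0 : 0 < a := ha.pos
  have h3q : 0 < 2 * a := by positivity
  have hsub : a.divisors ⊆ (2 * a).divisors :=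
    Nat.divisors_subset_of_dvd h3q.ne' (Dvd.intro_left 2 rfl)
  have hmem : 2 ∈ (2 * a).divisors \ a.divisors := by
    rw [Finset.mem_sdiff, Nat.mem_divisors, Nat.mem_divisors]
    exact ⟨⟨Dvd.intro a rfl, h3q.ne'⟩, fun h => (Nat.not_even_iff_odd.mpr ha)
      (even_iff_two_dvd.mpr h.1)⟩
  have hne : (X ^ a - 1 : ℤ[X]) ≠ 0 := (monic_X_pow_sub_C (1 : ℤ) ha0.ne').ne_zero
  apply mul_left_cancel₀ hne
  have e1 : (X ^ a - 1 : ℤ[X]) * (1 + X ^ a) = X ^ (2 * a) - 1 := by ring
  rw [e1, ← prod_cyclotomic_eq_X_pow_sub_one h3q ℤ, ← prod_cyclotomic_eq_X_pow_sub_one ha0 ℤ,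
    ← Finset.prod_sdiff hsub, mul_comm]
  congr 1
  rw [← Finset.mul_prod_erase _ _ hmem, cyclotomic_two, add_comm X 1]
  rfl

theorem keyVal_one (b : ℕ) : keyVal b 1 (X : ℤ[X]) = 1 + X ^ b + X ^ (2 * b) := by
  simp [keyVal, altGeom]

theorem keyVal_two (j : ℕ) (hj : Odd j) :
    keyVal 2 j (X : ℤ[X]) = cyclotomic 3 ℤ *
      ((((2 * (j + 2)).divisors \ (j + 2).divisors).erase 2).val.map
        (fun N => cyclotomic N ℤ)).prod := by
  have hne : (1 + X : ℤ[X]) ≠ 0 := by
    rw [add_comm]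
    exact (monic_X_add_C (1 : ℤ)).ne_zero
  apply mul_left_cancel₀ hne
  have h1 := one_add_mul_altGeom (X : ℤ[X]) j
  rw [hj.neg_pow] at h1
  have h2 := binomial_factor (j + 2) (hj.add_even (by decide))
  rw [← mul_assoc, mul_comm (1 + X) (cyclotomic 3 ℤ), mul_assoc, ← h2, cyclotomic_three]
  unfold keyVal
  calc (1 + X : ℤ[X]) * (1 + X ^ 2 * altGeom X j + X ^ (2 * 2 + j - 1))
      = (1 + X) * (1 + X ^ (2 * 2 + j - 1)) + X ^ 2 * ((1 + X) * altGeom X j) := by ring
    _ = _ := by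
      rw [h1, show 2 * 2 + j - 1 = j + 3 by omega]
      ring

theorem cyclotomic_three_dvd_keyVal (k j : ℕ) (hj : Odd j) :
    cyclotomic 3 ℤ ∣ keyVal (3 * k + 2) j (X : ℤ[X]) := by
  rw [cyclotomic_three]
  have h1 := one_add_mul_altGeom (X : ℤ[X]) j
  rw [hj.neg_pow] at h1
  have hD : ∀ m : ℕ, (X ^ 2 + X + 1 : ℤ[X]) ∣ X ^ (3 * m) - 1 := by
    intro m
    have e1 : (X ^ 2 + X + 1 : ℤ[X]) ∣ X ^ 3 - 1 := ⟨X - 1, by ring⟩
    have e2 : (X ^ 3 - 1 : ℤ[X]) ∣ X ^ (3 * m) - 1 := by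
      have := sub_dvd_pow_sub_pow (X ^ 3 : ℤ[X]) 1 m
      rwa [← pow_mul, one_pow] at this
    exact e1.trans e2
  have h2 : (X ^ 2 + X + 1 : ℤ[X]) ∣ (1 + X) * keyVal (3 * k + 2) j (X : ℤ[X]) := by
    have e : (1 + X) * keyVal (3 * k + 2) j (X : ℤ[X]) =
        ((1 + X) * X ^ j) * (X ^ (3 * (2 * k + 1)) - 1) + (X ^ 2 * (1 + X ^ j)) * (X ^ (3 * k) - 1)
          + (X ^ 2 + X + 1) * (1 + X ^ j) := by
      unfold keyVal
      calc (1 + X : ℤ[X]) * (1 + X ^ (3 * k + 2) * altGeom X j + X ^ (2 * (3 * k + 2) + j - 1))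
          = (1 + X) * (1 + X ^ (2 * (3 * k + 2) + j - 1)) +
              X ^ (3 * k + 2) * ((1 + X) * altGeom X j) := by ring
        _ = _ := by
          rw [h1, show 2 * (3 * k + 2) + j - 1 = j + 3 * (2 * k + 1) by omega, pow_add X j,
            pow_add X (3 * k) 2]
          ring
    rw [e]
    exact dvd_add (dvd_add (Dvd.dvd.mul_left (hD _) _) (Dvd.dvd.mul_left (hD _) _))
      (Dvd.intro _ rfl)
  have h3 : keyVal (3 * k + 2) j (X : ℤ[X]) =
      (-X) * ((1 + X) * keyVal (3 * k + 2) j (X : ℤ[X])) +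
        (X ^ 2 + X + 1) * keyVal (3 * k + 2) j (X : ℤ[X]) := by ring
  rw [h3]
  exact dvd_add (Dvd.dvd.mul_left h2 _) (Dvd.intro _ rfl)

/-! ### From Laurent polynomials to polynomials -/

theorem eq_of_toLaurent_eq {P Q : ℤ[X]} (hP : P.coeff 0 ≠ 0) (hQ : Q.coeff 0 ≠ 0) (k : ℤ)
    (h : toLaurent P = T k * toLaurent Q) : P = Q := by
  rcases le_total 0 k with hk | hk
  · obtain ⟨n, rfl⟩ := Int.eq_ofNat_of_zero_le hk
    have h1 : P = X ^ n * Q := by
      apply toLaurent_injective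
      rw [map_mul, toLaurent_X_pow, h]
    rcases Nat.eq_zero_or_pos n with h2 | h2
    · rw [h1, h2, pow_zero, one_mul]
    · exfalso
      apply hP
      rw [h1, coeff_X_pow_mul', if_neg (by omega)]
  · obtain ⟨n, hn⟩ := Int.eq_ofNat_of_zero_le (neg_nonneg.mpr hk)
    have h1 : Q = X ^ n * P := by
      apply toLaurent_injective
      rw [map_mul, toLaurent_X_pow, h, ← mul_assoc, ← T_add, ← hn,
        neg_add_cancel, T_zero, one_mul]
    rcases Nat.eq_zero_or_pos n with h2 | h2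
    · rw [h1, h2, pow_zero, one_mul]
    · exfalso
      apply hQ
      rw [h1, coeff_X_pow_mul', if_neg (by omega)]

theorem upToUnit_poly {P Q : ℤ[X]} (hP : P.coeff 0 ≠ 0) (hQ : Q.coeff 0 ≠ 0)
    (h : UpToUnit (toLaurent P) (toLaurent Q)) : P = Q ∨ P = -Q := by
  obtain ⟨k, h1 | h1⟩ := h
  · left
    exact eq_of_toLaurent_eq hP hQ k h1
  · right
    apply eq_of_toLaurent_eq hP (by rwa [coeff_neg, neg_ne_zero]) k
    rw [h1, map_neg, mul_neg]

theorem UpToUnit.symm {f g : ℤ[T;T⁻¹]} (h : UpToUnit f g) : UpToUnit g f := by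
  obtain ⟨k, h1 | h1⟩ := h
  · refine ⟨-k, Or.inl ?_⟩
    rw [h1, ← mul_assoc, ← T_add, neg_add_cancel, T_zero, one_mul]
  · refine ⟨-k, Or.inr ?_⟩
    rw [h1, mul_neg, neg_neg, ← mul_assoc, ← T_add, neg_add_cancel, T_zero, one_mul]

theorem UpToUnit.trans {f g h : ℤ[T;T⁻¹]} (h1 : UpToUnit f g) (h2 : UpToUnit g h) :
    UpToUnit f h := by
  obtain ⟨k, h1 | h1⟩ := h1 <;> obtain ⟨l, h2 | h2⟩ := h2
  · refine ⟨k + l, Or.inl ?_⟩
    rw [h1, h2, T_add, mul_assoc]
  · refine ⟨k + l, Or.inr ?_⟩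
    rw [h1, h2, T_add, mul_assoc, mul_neg]
  · refine ⟨k + l, Or.inr ?_⟩
    rw [h1, h2, T_add, mul_assoc]
  · refine ⟨k + l, Or.inl ?_⟩
    rw [h1, h2, T_add, mul_assoc, mul_neg, neg_neg]

theorem UpToUnit.mul_left {f g : ℤ[T;T⁻¹]} (c : ℤ[T;T⁻¹]) (h : UpToUnit f g) :
    UpToUnit (c * f) (c * g) := by
  obtain ⟨k, h1 | h1⟩ := h
  · exact ⟨k, Or.inl (by rw [h1]; ring)⟩
  · exact ⟨k, Or.inr (by rw [h1]; ring)⟩

theorem UpToUnit.mul_left_cancel {f g c : ℤ[T;T⁻¹]} (hc : c ≠ 0)
    (h : UpToUnit (c * f) (c * g)) : UpToUnit f g := by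
  obtain ⟨k, h1 | h1⟩ := h
  · refine ⟨k, Or.inl (mul_left_cancel₀ hc ?_)⟩
    rw [h1]; ring
  · refine ⟨k, Or.inr (mul_left_cancel₀ hc ?_)⟩
    rw [h1]; ring

/-- The factor `1 + t + t^2`. -/
theorem three_eq : (1 + T 1 + T 2 : ℤ[T;T⁻¹]) = toLaurent (cyclotomic 3 ℤ) := by
  rw [cyclotomic_three, map_add, map_add, map_one, toLaurent_X, toLaurent_X_pow]
  push_cast
  ring

theorem three_ne : (1 + T 1 + T 2 : ℤ[T;T⁻¹]) ≠ 0 := by
  rw [three_eq, Ne, toLaurent_eq_zero]
  exact (cyclotomic.monic 3 ℤ).ne_zero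

theorem cyclotomicZ_coeff_zero_ne (N : ℕ) : (cyclotomic N ℤ).coeff 0 ≠ 0 := by
  rcases Nat.lt_or_ge 1 N with h | h
  · rw [cyclotomic_coeff_zero _ h]; exact one_ne_zero
  · interval_cases N
    · simp
    · simp [cyclotomic_one]

theorem multisetZ_coeff_zero_ne (M : Multiset ℕ) :
    ((M.map (fun N => cyclotomic N ℤ)).prod).coeff 0 ≠ 0 := by
  induction M using Multiset.induction_on with
  | empty => simp
  | cons a s ih =>
    rw [Multiset.map_cons, Multiset.prod_cons, mul_coeff_zero]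
    exact mul_ne_zero (cyclotomicZ_coeff_zero_ne a) ih

theorem keyVal_not_prod (k j : ℕ) (hk : 1 ≤ k) (hj3 : 3 ≤ j) (hj : Odd j) (M : Multiset ℕ)
    (hM : ∀ N ∈ M, 0 < N) :
    keyVal (3 * k + 2) j (X : ℤ[X]) ≠ (M.map (fun N => cyclotomic N ℤ)).prod ∧
    keyVal (3 * k + 2) j (X : ℤ[X]) ≠ -(M.map (fun N => cyclotomic N ℤ)).prod := by
  have hmap : (keyVal (3 * k + 2) j (X : ℤ[X])).map (Int.castRingHom ℚ) =
      keyVal (3 * k + 2) j (X : ℚ[X]) := by
    have := keyVal_map (mapRingHom (Int.castRingHom ℚ)) (3 * k + 2) j (X : ℤ[X])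
    simpa using this
  have hprod : ((M.map (fun N => cyclotomic N ℤ)).prod).map (Int.castRingHom ℚ) =
      (M.map (fun N => cyclotomic N ℚ)).prod := by
    have := map_multiset_prod (mapRingHom (Int.castRingHom ℚ)) (M.map (fun N => cyclotomic N ℤ))
    rw [Multiset.map_map] at this
    simpa using this
  constructor
  · intro h
    have h1 := congrArg (Polynomial.map (Int.castRingHom ℚ)) h
    rw [hmap, hprod] at h1
    apply keyVal_not_cyclotomic k j hk hj3 hj M hM 1 one_ne_zero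
    rw [h1, C_1, one_mul]
  · intro h
    have h1 := congrArg (Polynomial.map (Int.castRingHom ℚ)) h
    rw [Polynomial.map_neg, hmap, hprod] at h1
    apply keyVal_not_cyclotomic k j hk hj3 hj M hM (-1) (by norm_num)
    rw [h1, C_neg, C_1, neg_mul, one_mul]

theorem keyValZ_coeff_zero (b j : ℕ) (hb : 1 ≤ b) : (keyVal b j (X : ℤ[X])).coeff 0 = 1 := by
  unfold keyVal
  rw [coeff_add, coeff_add, coeff_one_zero, coeff_X_pow_mul', if_neg (by omega),
    coeff_X_pow, if_neg (by omega)]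
  norm_num

/-- The condition on the parameters. -/
theorem key (q s : ℕ) (hq : Nat.Coprime 3 q) : ∃ P : ℤ[X], P.coeff 0 ≠ 0 ∧
    Matrix.det (1 - (burau (twistedTorus q s) : Matrix (Fin 2) (Fin 2) ℤ[T;T⁻¹])) =
      toLaurent P ∧
    ((q ≤ 2 ∨ s = 0 ∨ (s = 1 ∧ q % 3 = 1)) → ∃ M : Multiset ℕ, (∀ N ∈ M, 0 < N) ∧
      P = cyclotomic 3 ℤ * (M.map (fun N => cyclotomic N ℤ)).prod) ∧
    (¬ (q ≤ 2 ∨ s = 0 ∨ (s = 1 ∧ q % 3 = 1)) → ∀ M : Multiset ℕ, (∀ N ∈ M, 0 < N) →
      P ≠ (M.map (fun N => cyclotomic N ℤ)).prod ∧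
      P ≠ -(M.map (fun N => cyclotomic N ℤ)).prod) ∧
    cyclotomic 3 ℤ ∣ P := by
  have hpos : ∀ (n m e : ℕ), ∀ N ∈ (((n.divisors \ m.divisors).erase e).val), 0 < N := by
    intro n m e N hN
    have h1 : N ∈ (n.divisors \ m.divisors).erase e := hN
    have h2 := Finset.mem_of_mem_erase h1
    rw [Finset.mem_sdiff] at h2
    exact Nat.pos_of_mem_divisors h2.1
  rw [burau_twisted]
  have hq3 : ¬ 3 ∣ q := by
    intro h
    have := Nat.Coprime.eq_one_of_dvd hq h
    omega
  have hmod : q % 3 = 1 ∨ q % 3 = 2 := by omega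
  rcases hmod with hm | hm
  · -- q = 3k+1
    obtain ⟨k, rfl⟩ : ∃ k, q = 3 * k + 1 := ⟨q / 3, by omega⟩
    rw [det_case_one]
    rcases Nat.eq_zero_or_pos s with hs | hs
    · subst hs
      refine ⟨1 + X ^ (3 * k + 1) + X ^ (2 * (3 * k + 1)), ?_, ?_, ?_, ?_, ?_⟩
      · rw [coeff_add, coeff_add, coeff_one_zero, coeff_X_pow, coeff_X_pow, if_neg (by omega),
          if_neg (by omega)]
        norm_num
      · rw [mul_zero, zero_add, det_ab, ← toLaurent_X]
        simp only [map_add, map_one, map_pow]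
        ring
      · intro _
        exact ⟨_, hpos _ _ _, trinomial_factor (3 * k + 1) (by omega) hq3⟩
      · intro h
        exact absurd (Or.inr (Or.inl rfl)) h
      · rw [trinomial_factor (3 * k + 1) (by omega) hq3]
        exact Dvd.intro _ rfl
    · obtain ⟨r, rfl⟩ : ∃ r, s = r + 1 := ⟨s - 1, by omega⟩
      have hj : Odd (2 * r + 1) := odd_two_mul_add_one r
      refine ⟨keyVal (3 * k + 2) (2 * r + 1) X, ?_, ?_, ?_, ?_, ?_⟩
      · rw [keyValZ_coeff_zero _ _ (by omega)]; exact one_ne_zero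
      · rw [show 2 * (r + 1) + 1 = (2 * r + 1) + 2 by ring, det_key _ _ _ hj, keyVal_toLaurent]
      · intro hc
        by_cases hk : k = 0
        · subst hk
          exact ⟨_, hpos _ _ _, keyVal_two (2 * r + 1) hj⟩
        · have hr : r = 0 := by omega
          subst hr
          rw [show 2 * 0 + 1 = 1 by ring, keyVal_one]
          exact ⟨_, hpos _ _ _, trinomial_factor (3 * k + 2) (by omega) (by omega)⟩
      · intro hc M hM
        push Not at hc
        exact keyVal_not_prod k (2 * r + 1) (by omega) (by omega) hj M hM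
      · exact cyclotomic_three_dvd_keyVal k _ hj
  · -- q = 3k+2
    obtain ⟨k, rfl⟩ : ∃ k, q = 3 * k + 2 := ⟨q / 3, by omega⟩
    rw [det_case_two]
    have hj : Odd (2 * s + 1) := odd_two_mul_add_one s
    refine ⟨keyVal (3 * k + 2) (2 * s + 1) X, ?_, ?_, ?_, ?_, ?_⟩
    · rw [keyValZ_coeff_zero _ _ (by omega)]; exact one_ne_zero
    · rw [det_key _ _ _ hj, keyVal_toLaurent]
    · intro hc
      by_cases hk : k = 0
      · subst hk
        exact ⟨_, hpos _ _ _, keyVal_two (2 * s + 1) hj⟩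
      · have hs : s = 0 := by omega
        subst hs
        rw [show 2 * 0 + 1 = 1 by ring, keyVal_one]
        exact ⟨_, hpos _ _ _, trinomial_factor (3 * k + 2) (by omega) (by omega)⟩
    · intro hc M hM
      push Not at hc
      exact keyVal_not_prod k (2 * s + 1) (by omega) (by omega) hj M hM
    · exact cyclotomic_three_dvd_keyVal k _ hj

/-! ### The torus knots in the family -/

section groups

variable {G : Type*} [Group G] {a b : G}

theorem grp_central (h : a * b * a = b * a * b) (k : ℕ) :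
    a * (a * b) ^ (3 * k) = (a * b) ^ (3 * k) * a := by
  have h3 : (a * b) ^ 3 = (a * b * a) * (a * b * a) := by
    rw [pow_succ, pow_two]
    calc a * b * (a * b) * (a * b) = a * b * a * (b * a * b) := by simp only [mul_assoc]
      _ = _ := by rw [← h]
  have h1 : a * (a * b * a) = (a * b * a) * b := by
    calc a * (a * b * a) = a * (b * a * b) := by rw [h]
      _ = _ := by simp only [mul_assoc]
  have h2 : b * (a * b * a) = (a * b * a) * a := by
    calc b * (a * b * a) = (b * a * b) * a := by simp only [mul_assoc]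
      _ = _ := by rw [← h]
  have h4 : a * (a * b) ^ 3 = (a * b) ^ 3 * a := by
    rw [h3, ← mul_assoc a, h1, mul_assoc (a * b * a) b, h2]
    simp only [mul_assoc]
  rw [pow_mul]
  induction k with
  | zero => simp
  | succ k ih => rw [pow_succ, ← mul_assoc, ih, mul_assoc, h4, mul_assoc]

theorem grp_square (h : a * b * a = b * a * b) : (a * b) ^ 2 = a ^ 2 * b * a := by
  rw [pow_two, pow_two]
  calc a * b * (a * b) = a * (b * a * b) := by simp only [mul_assoc]
    _ = a * (a * b * a) := by rw [h]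
    _ = _ := by simp only [mul_assoc]

end groups

theorem sig_rel : (sigma 0 : BraidGroup 2) * sigma 1 * sigma 0 = sigma 1 * sigma 0 * sigma 1 :=
  artin_braid 0 1 rfl

theorem torusBraid_two (q : ℕ) : torusBraid 2 q = (sigma 0 * sigma 1) ^ q := by
  simp [torusBraid, List.ofFn_succ]

theorem torusBraid_one (q : ℕ) : torusBraid 1 q = (sigma 0) ^ q := by
  simp [torusBraid, List.ofFn_succ]

theorem sameClosure_conj {m : ℕ} (a b : BraidGroup m) : SameClosure ⟨m, a⟩ ⟨m, b * a * b⁻¹⟩ :=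
  Relation.EqvGen.rel _ _ (MarkovMove.conj m a b)

/-- `σ_0^n σ_1` closes to `T(2, n)`. -/
theorem destab (n : ℕ) : SameClosure ⟨2, (sigma 0 : BraidGroup 2) ^ n * sigma 1⟩
    ⟨1, torusBraid 1 n⟩ := by
  apply Relation.EqvGen.symm
  have h := MarkovMove.stabPos 1 (torusBraid 1 n)
  have e : addStrand 1 (torusBraid 1 n) * sigma (Fin.last 1) =
      (sigma 0 : BraidGroup 2) ^ n * sigma 1 := by
    rw [torusBraid_one, map_pow]
    have : addStrand 1 (sigma 0) = sigma 0 := PresentedGroup.toGroup.of _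
    rw [this]
    rfl
  rw [e] at h
  exact Relation.EqvGen.rel _ _ h

theorem isTorus_of_cond (q s : ℕ) (hq : Nat.Coprime 3 q)
    (hc : q ≤ 2 ∨ s = 0 ∨ (s = 1 ∧ q % 3 = 1)) : IsTorusKnot ⟨2, twistedTorus q s⟩ := by
  have hq0 : q ≠ 0 := by
    rintro rfl
    norm_num at hq
  by_cases hs : s = 0
  · subst hs
    refine ⟨2, q, hq, ?_⟩
    rw [torusBraid_two, twistedTorus, mul_zero, pow_zero, mul_one]
    exact Relation.EqvGen.refl _
  by_cases hq1 : q = 1
  · subst hq1
    refine ⟨1, 2 * s + 1, by norm_num, ?_⟩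
    have h1 := sameClosure_conj (twistedTorus 1 s) ((sigma 0 : BraidGroup 2) ^ (2 * s))
    have e : (sigma 0 : BraidGroup 2) ^ (2 * s) * twistedTorus 1 s *
        ((sigma 0 : BraidGroup 2) ^ (2 * s))⁻¹ = sigma 0 ^ (2 * s + 1) * sigma 1 := by
      rw [twistedTorus, pow_one, ← mul_assoc, mul_inv_cancel_right, pow_succ]
      simp only [mul_assoc]
    rw [e] at h1
    exact Relation.EqvGen.trans _ _ _ h1 (destab _)
  by_cases hq2 : q = 2
  · subst hq2
    refine ⟨1, 2 * s + 3, ?_, ?_⟩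
    · rw [Nat.coprime_two_left]
      exact ⟨s + 1, by ring⟩
    have h1 := sameClosure_conj (twistedTorus 2 s) ((sigma 0 : BraidGroup 2) ^ (2 * s + 1))
    have e : (sigma 0 : BraidGroup 2) ^ (2 * s + 1) * twistedTorus 2 s *
        ((sigma 0 : BraidGroup 2) ^ (2 * s + 1))⁻¹ = sigma 0 ^ (2 * s + 3) * sigma 1 := by
      rw [twistedTorus, grp_square sig_rel, mul_assoc (sigma 0 ^ 2 * sigma 1) (sigma 0),
        ← pow_succ', ← mul_assoc, mul_inv_cancel_right, ← mul_assoc, ← pow_add]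
    rw [e] at h1
    exact Relation.EqvGen.trans _ _ _ h1 (destab _)
  · have hc' : s = 1 ∧ q % 3 = 1 := by omega
    obtain ⟨hs1, hm⟩ := hc'
    subst hs1
    obtain ⟨k, rfl⟩ : ∃ k, q = 3 * k + 1 := ⟨q / 3, by omega⟩
    refine ⟨2, 3 * k + 2, ?_, ?_⟩
    · rw [show 3 * k + 2 = 2 + 3 * k by ring]
      norm_num
    have h1 := sameClosure_conj (twistedTorus (3 * k + 1) 1) (sigma 0 : BraidGroup 2)
    have e : (sigma 0 : BraidGroup 2) * twistedTorus (3 * k + 1) 1 * (sigma 0 : BraidGroup 2)⁻¹ =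
        torusBraid 2 (3 * k + 2) := by
      rw [torusBraid_two, twistedTorus, pow_add, pow_add, grp_square sig_rel, pow_one, mul_one,
        ← mul_assoc, ← mul_assoc, grp_central sig_rel]
      simp only [pow_two, mul_assoc, mul_inv_cancel, mul_one]
    rw [e] at h1
    exact h1

/-- **Main theorem.** For the twisted torus knots `T(3,q;2,s)` with `q` prime to `3` the Alexander
polynomial exists, it is a product of cyclotomic polynomials exactly for the parameters listed, and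
for those parameters the knot is a torus knot. In particular, if the Alexander polynomial is a
product of cyclotomic polynomials, then the knot is a torus knot. -/
theorem result (q s : ℕ) (hq : Nat.Coprime 3 q) :
    (∃ Δ : ℤ[T;T⁻¹], IsAlexander (twistedTorus q s) Δ) ∧
    (∀ Δ : ℤ[T;T⁻¹], IsAlexander (twistedTorus q s) Δ →
      ((IsCyclotomicProduct Δ → IsTorusKnot ⟨2, twistedTorus q s⟩) ∧
       (IsCyclotomicProduct Δ ↔ (q ≤ 2 ∨ s = 0 ∨ (s = 1 ∧ q % 3 = 1))))) := by
  obtain ⟨P, hP0, hdet, hyes, hno, hdvd⟩ := key q s hq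
  have hiff : ∀ Δ : ℤ[T;T⁻¹], IsAlexander (twistedTorus q s) Δ →
      (IsCyclotomicProduct Δ ↔ (q ≤ 2 ∨ s = 0 ∨ (s = 1 ∧ q % 3 = 1))) := by
    intro Δ hΔ
    unfold IsAlexander at hΔ
    rw [hdet] at hΔ
    constructor
    · rintro ⟨M, hM, hMΔ⟩
      by_contra hcon
      have h1 : UpToUnit ((1 + T 1 + T 2) * Δ)
          (toLaurent ((((3 ::ₘ M)).map (fun N => cyclotomic N ℤ)).prod)) := by
        rw [Multiset.map_cons, Multiset.prod_cons, map_mul, ← three_eq]
        exact hMΔ.mul_left _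
      have h2 := hΔ.symm.trans h1
      have hM' : ∀ N ∈ (3 ::ₘ M), 0 < N := by
        intro N hN
        rcases Multiset.mem_cons.mp hN with h3 | h3
        · rw [h3]; norm_num
        · exact hM N h3
      rcases upToUnit_poly hP0 (multisetZ_coeff_zero_ne _) h2 with h3 | h3
      · exact (hno hcon _ hM').1 h3
      · exact (hno hcon _ hM').2 h3
    · intro hc
      obtain ⟨M, hM, hPM⟩ := hyes hc
      refine ⟨M, hM, ?_⟩
      rw [hPM, map_mul, ← three_eq] at hΔ
      exact UpToUnit.mul_left_cancel three_ne hΔ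
  refine ⟨?_, ?_⟩
  · obtain ⟨Q, hQ⟩ := hdvd
    refine ⟨toLaurent Q, 0, Or.inl ?_⟩
    rw [hdet, hQ, map_mul, three_eq, T_zero, one_mul]
  · intro Δ hΔ
    exact ⟨fun h => isTorus_of_cond q s hq ((hiff Δ hΔ).mp h), hiff Δ hΔ⟩

end Pool.Agent.Helper81.ThreeBraidTwistedTorus
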