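import Mathlib

/-!
# The polynomial inequality behind the case of three-dimensional submanifolds
-/

namespace FBM

/-- Homogenised form of twice the coefficient `h` of the quadratic form. -/
def H3 (o r q c : ℝ) : ℝ :=
    2 * o ^ 4 * q + 1 * o ^ 4 * r + 6 * o ^ 3 * r ^ 2 + 24 * o * r ^ 2 * c ^ 2
    + (-8) * o * r ^ 2 * q * c + (-24) * o * r ^ 3 * c + 16 * r ^ 2 * c ^ 3
    + (-4) * r ^ 2 * q * c ^ 2 + (-12) * r ^ 3 * c ^ 2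

/-- Homogenised form of twice the coefficient `g` of the quadratic form. -/
def G3 (o r q c : ℝ) : ℝ :=
    6 * o ^ 6 + 6 * o ^ 5 * c + 4 * o ^ 5 * q + (-4) * o ^ 5 * r + 2 * o ^ 4 * q * c
    + 22 * o ^ 4 * r * c + (-9) * o ^ 4 * r * q + (-15) * o ^ 4 * r ^ 2 + 27 * o ^ 3 * r * c ^ 2
    + (-9) * o ^ 3 * r * q * c + (-21) * o ^ 3 * r ^ 2 * c + (-60) * o ^ 2 * r ^ 2 * c ^ 2
    + 32 * o ^ 2 * r ^ 2 * q * c + 48 * o ^ 2 * r ^ 3 * c + 20 * o * r ^ 2 * c ^ 3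
    + (-16) * o * r ^ 2 * q * c ^ 2 + (-24) * o * r ^ 3 * c ^ 2 + 88 * r ^ 2 * c ^ 4
    + (-52) * r ^ 2 * q * c ^ 3 + (-84) * r ^ 3 * c ^ 3

/-- Homogenised form of the mixed coefficient of the quadratic form. -/
def E3 (o r q c : ℝ) : ℝ :=
    (-2) * o ^ 4 * q + 7 * o ^ 4 * r + 9 * o ^ 3 * r * c + (-15) * o ^ 3 * r ^ 2
    + (-12) * o ^ 2 * r ^ 2 * c + 4 * o ^ 2 * r ^ 2 * q + 4 * o ^ 2 * r ^ 3
    + 12 * o * r ^ 2 * c ^ 2 + (-8) * o * r ^ 2 * q * c + (-8) * o * r ^ 3 * c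
    + 44 * r ^ 2 * c ^ 3 + (-20) * r ^ 2 * q * c ^ 2 + (-48) * r ^ 3 * c ^ 2

/-- The coefficient of `r ^ 0`. -/
def P3_0 (q t w : ℝ) : ℝ :=
    q * (12 * w ^ 10 + 132 * t * w ^ 9 + 648 * t ^ 2 * w ^ 8 + 1872 * t ^ 3 * w ^ 7
    + 3528 * t ^ 4 * w ^ 6 + 4536 * t ^ 5 * w ^ 5 + 4032 * t ^ 6 * w ^ 4 + 2448 * t ^ 7 * w ^ 3
    + 972 * t ^ 8 * w ^ 2 + 228 * t ^ 9 * w + 24 * t ^ 10) + q ^ 2 * (136 * w ^ 9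
    + 1332 * t * w ^ 8 + 5760 * t ^ 2 * w ^ 7 + 14448 * t ^ 3 * w ^ 6 + 23184 * t ^ 4 * w ^ 5
    + 24696 * t ^ 5 * w ^ 4 + 17472 * t ^ 6 * w ^ 3 + 7920 * t ^ 7 * w ^ 2 + 2088 * t ^ 8 * w
    + 244 * t ^ 9) + q ^ 3 * (684 * w ^ 8 + 5904 * t * w ^ 7 + 22176 * t ^ 2 * w ^ 6
    + 47376 * t ^ 3 * w ^ 5 + 63000 * t ^ 4 * w ^ 4 + 53424 * t ^ 5 * w ^ 3
    + 28224 * t ^ 6 * w ^ 2 + 8496 * t ^ 7 * w + 1116 * t ^ 8) + q ^ 4 * (2016 * w ^ 7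
    + 15120 * t * w ^ 6 + 48384 * t ^ 2 * w ^ 5 + 85680 * t ^ 3 * w ^ 4 + 90720 * t ^ 4 * w ^ 3
    + 57456 * t ^ 5 * w ^ 2 + 20160 * t ^ 6 * w + 3024 * t ^ 7) + q ^ 5 * (3864 * w ^ 6
    + 24696 * t * w ^ 5 + 65520 * t ^ 2 * w ^ 4 + 92400 * t ^ 3 * w ^ 3 + 73080 * t ^ 4 * w ^ 2
    + 30744 * t ^ 5 * w + 5376 * t ^ 6) + q ^ 6 * (5040 * w ^ 5 + 26712 * t * w ^ 4
    + 56448 * t ^ 2 * w ^ 3 + 59472 * t ^ 3 * w ^ 2 + 31248 * t ^ 4 * w + 6552 * t ^ 5)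
    + q ^ 7 * (4536 * w ^ 4 + 19152 * t * w ^ 3 + 30240 * t ^ 2 * w ^ 2 + 21168 * t ^ 3 * w
    + 5544 * t ^ 4) + q ^ 8 * (2784 * w ^ 3 + 8784 * t * w ^ 2 + 9216 * t ^ 2 * w
    + 3216 * t ^ 3) + q ^ 9 * (1116 * w ^ 2 + 2340 * t * w + 1224 * t ^ 2) + q ^ 10 * (264 * w
    + 276 * t) + q ^ 11 * (28)

/-- The coefficient of `r ^ 1`. -/
def P3_1 (q t w : ℝ) : ℝ :=
    (6 * w ^ 10 + 66 * t * w ^ 9 + 324 * t ^ 2 * w ^ 8 + 936 * t ^ 3 * w ^ 7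
    + 1764 * t ^ 4 * w ^ 6 + 2268 * t ^ 5 * w ^ 5 + 2016 * t ^ 6 * w ^ 4 + 1224 * t ^ 7 * w ^ 3
    + 486 * t ^ 8 * w ^ 2 + 114 * t ^ 9 * w + 12 * t ^ 10) + q * (222 * w ^ 9 + 2270 * t * w ^ 8
    + 10258 * t ^ 2 * w ^ 7 + 26894 * t ^ 3 * w ^ 6 + 45094 * t ^ 4 * w ^ 5
    + 50162 * t ^ 5 * w ^ 4 + 37030 * t ^ 6 * w ^ 3 + 17498 * t ^ 7 * w ^ 2 + 4804 * t ^ 8 * w
    + 584 * t ^ 9) + q ^ 2 * (1964 * w ^ 8 + 17834 * t * w ^ 7 + 70476 * t ^ 2 * w ^ 6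
    + 158326 * t ^ 3 * w ^ 5 + 221200 * t ^ 4 * w ^ 4 + 196854 * t ^ 5 * w ^ 3
    + 109004 * t ^ 6 * w ^ 2 + 34346 * t ^ 7 * w + 4716 * t ^ 8) + q ^ 3 * (8512 * w ^ 7
    + 67326 * t * w ^ 6 + 227094 * t ^ 2 * w ^ 5 + 423500 * t ^ 3 * w ^ 4
    + 471660 * t ^ 4 * w ^ 3 + 313782 * t ^ 5 * w ^ 2 + 115486 * t ^ 6 * w + 18144 * t ^ 7)
    + q ^ 4 * (21980 * w ^ 6 + 148246 * t * w ^ 5 + 414680 * t ^ 2 * w ^ 4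
    + 615860 * t ^ 3 * w ^ 3 + 512260 * t ^ 4 * w ^ 2 + 226310 * t ^ 5 * w + 41496 * t ^ 6)
    + q ^ 5 * (36652 * w ^ 5 + 204946 * t * w ^ 4 + 456414 * t ^ 2 * w ^ 3
    + 506086 * t ^ 3 * w ^ 2 + 279454 * t ^ 4 * w + 61488 * t ^ 5) + q ^ 6 * (40712 * w ^ 4
    + 181230 * t * w ^ 3 + 301308 * t ^ 2 * w ^ 2 + 221774 * t ^ 3 * w + 60984 * t ^ 4)
    + q ^ 7 * (30064 * w ^ 3 + 99914 * t * w ^ 2 + 110266 * t ^ 2 * w + 40416 * t ^ 3)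
    + q ^ 8 * (14222 * w ^ 2 + 31376 * t * w + 17244 * t ^ 2) + q ^ 9 * (3910 * w + 4296 * t)
    + q ^ 10 * (476)

/-- The coefficient of `r ^ 2`. -/
def P3_2 (q t w : ℝ) : ℝ :=
    (49 * w ^ 9 + 378 * t * w ^ 8 + 1224 * t ^ 2 * w ^ 7 + 2259 * t ^ 3 * w ^ 6
    + 2940 * t ^ 4 * w ^ 5 + 3369 * t ^ 5 * w ^ 4 + 3468 * t ^ 6 * w ^ 3 + 2589 * t ^ 7 * w ^ 2
    + 1119 * t ^ 8 * w + 205 * t ^ 9) + q * (1277 * w ^ 8 + 10937 * t * w ^ 7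
    + 41562 * t ^ 2 * w ^ 6 + 92897 * t ^ 3 * w ^ 5 + 135324 * t ^ 4 * w ^ 4
    + 132283 * t ^ 5 * w ^ 3 + 84366 * t ^ 6 * w ^ 2 + 31723 * t ^ 7 * w + 5311 * t ^ 8)
    + q ^ 2 * (9711 * w ^ 7 + 76223 * t * w ^ 6 + 260173 * t ^ 2 * w ^ 5
    + 504814 * t ^ 3 * w ^ 4 + 604597 * t ^ 4 * w ^ 3 + 447223 * t ^ 5 * w ^ 2
    + 188407 * t ^ 6 * w + 34628 * t ^ 7) + q ^ 3 * (36920 * w ^ 6 + 253415 * t * w ^ 5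
    + 736188 * t ^ 2 * w ^ 4 + 1164918 * t ^ 3 * w ^ 3 + 1061240 * t ^ 4 * w ^ 2
    + 526923 * t ^ 5 * w + 110908 * t ^ 6) + q ^ 4 * (83199 * w ^ 5 + 482385 * t * w ^ 4
    + 1137982 * t ^ 2 * w ^ 3 + 1369435 * t ^ 3 * w ^ 2 + 840485 * t ^ 4 * w + 209846 * t ^ 5)
    + q ^ 5 * (119056 * w ^ 4 + 558991 * t * w ^ 3 + 1001974 * t ^ 2 * w ^ 2
    + 813209 * t ^ 3 * w + 251650 * t ^ 4) + q ^ 6 * (110145 * w ^ 3 + 392561 * t * w ^ 2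
    + 474693 * t ^ 2 * w + 194516 * t ^ 3) + q ^ 7 * (64228 * w ^ 2 + 154417 * t * w
    + 94348 * t ^ 2) + q ^ 8 * (21568 * w + 26213 * t) + q ^ 9 * (3191)

/-- The coefficient of `r ^ 3`. -/
def P3_3 (q t w : ℝ) : ℝ :=
    (225 * w ^ 8 + 1623 * t * w ^ 7 + 5562 * t ^ 2 * w ^ 6 + 12855 * t ^ 3 * w ^ 5
    + 21844 * t ^ 4 * w ^ 4 + 25501 * t ^ 5 * w ^ 3 + 18342 * t ^ 6 * w ^ 2 + 7093 * t ^ 7 * w
    + 1099 * t ^ 8) + q * (4440 * w ^ 7 + 34612 * t * w ^ 6 + 122410 * t ^ 2 * w ^ 5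
    + 255856 * t ^ 3 * w ^ 4 + 335784 * t ^ 4 * w ^ 3 + 269296 * t ^ 5 * w ^ 2
    + 119206 * t ^ 6 * w + 22076 * t ^ 7) + q ^ 2 * (28884 * w ^ 6 + 204697 * t * w ^ 5
    + 629856 * t ^ 2 * w ^ 4 + 1073062 * t ^ 3 * w ^ 3 + 1052956 * t ^ 4 * w ^ 2
    + 554889 * t ^ 5 * w + 120952 * t ^ 6) + q ^ 3 * (95142 * w ^ 5 + 579520 * t * w ^ 4
    + 1459492 * t ^ 2 * w ^ 3 + 1885704 * t ^ 3 * w ^ 2 + 1234610 * t ^ 4 * w + 323660 * t ^ 5)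
    + q ^ 4 * (183676 * w ^ 4 + 915429 * t * w ^ 3 + 1757206 * t ^ 2 * w ^ 2
    + 1525415 * t ^ 3 * w + 499750 * t ^ 4) + q ^ 5 * (218716 * w ^ 3 + 832696 * t * w ^ 2
    + 1078338 * t ^ 2 * w + 470324 * t ^ 3) + q ^ 6 * (159192 * w ^ 2 + 410011 * t * w
    + 267616 * t ^ 2) + q ^ 7 * (65254 * w + 84932 * t) + q ^ 8 * (11575)

/-- The coefficient of `r ^ 4`. -/
def P3_4 (q t w : ℝ) : ℝ :=
    (964 * w ^ 7 + 8223 * t * w ^ 6 + 31804 * t ^ 2 * w ^ 5 + 71600 * t ^ 3 * w ^ 4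
    + 97908 * t ^ 4 * w ^ 3 + 77359 * t ^ 5 * w ^ 2 + 30404 * t ^ 6 * w + 3370 * t ^ 7)
    + q * (13356 * w ^ 6 + 101447 * t * w ^ 5 + 333290 * t ^ 2 * w ^ 4 + 598294 * t ^ 3 * w ^ 3
    + 600616 * t ^ 4 * w ^ 2 + 306299 * t ^ 5 * w + 55098 * t ^ 6) + q ^ 2 * (69073 * w ^ 5
    + 446828 * t * w ^ 4 + 1189706 * t ^ 2 * w ^ 3 + 1598434 * t ^ 3 * w ^ 2
    + 1050541 * t ^ 4 * w + 251826 * t ^ 5) + q ^ 3 * (185138 * w ^ 4 + 976162 * t * w ^ 3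
    + 1965196 * t ^ 2 * w ^ 2 + 1747254 * t ^ 3 * w + 550610 * t ^ 4) + q ^ 4 * (286842 * w ^ 3
    + 1150759 * t * w ^ 2 + 1545446 * t ^ 2 * w + 668190 * t ^ 3) + q ^ 5 * (260740 * w ^ 2
    + 702223 * t * w + 463470 * t ^ 2) + q ^ 6 * (129385 * w + 172678 * t) + q ^ 7 * (26886)

/-- The coefficient of `r ^ 5`. -/
def P3_5 (q t w : ℝ) : ℝ :=
    (3276 * w ^ 6 + 26807 * t * w ^ 5 + 90774 * t ^ 2 * w ^ 4 + 165754 * t ^ 3 * w ^ 3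
    + 167184 * t ^ 4 * w ^ 2 + 81463 * t ^ 5 * w + 10358 * t ^ 6) + q * (32688 * w ^ 5
    + 220802 * t * w ^ 4 + 606258 * t ^ 2 * w ^ 3 + 832282 * t ^ 3 * w ^ 2 + 540874 * t ^ 4 * w
    + 110936 * t ^ 5) + q ^ 2 * (128806 * w ^ 4 + 705924 * t * w ^ 3 + 1467880 * t ^ 2 * w ^ 2
    + 1318176 * t ^ 3 * w + 385174 * t ^ 4) + q ^ 3 * (265420 * w ^ 3 + 1107650 * t * w ^ 2
    + 1523914 * t ^ 2 * w + 638496 * t ^ 3) + q ^ 4 * (304868 * w ^ 2 + 849481 * t * w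
    + 558434 * t ^ 2) + q ^ 5 * (184332 * w + 249544 * t) + q ^ 6 * (45010)

/-- The coefficient of `r ^ 6`. -/
def P3_6 (q t w : ℝ) : ℝ :=
    (7170 * w ^ 5 + 49343 * t * w ^ 4 + 137772 * t ^ 2 * w ^ 3 + 195963 * t ^ 3 * w ^ 2
    + 131688 * t ^ 4 * w + 26868 * t ^ 5) + q * (54142 * w ^ 4 + 302927 * t * w ^ 3
    + 652990 * t ^ 2 * w ^ 2 + 608769 * t ^ 3 * w + 181404 * t ^ 4) + q ^ 2 * (163329 * w ^ 3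
    + 706879 * t * w ^ 2 + 1013733 * t ^ 2 * w + 440616 * t ^ 3) + q ^ 3 * (249852 * w ^ 2
    + 727911 * t * w + 502104 * t ^ 2) + q ^ 4 * (191259 * w + 273636 * t) + q ^ 5 * (57612)

/-- The coefficient of `r ^ 7`. -/
def P3_7 (q t w : ℝ) : ℝ :=
    (9678 * w ^ 4 + 54649 * t * w ^ 3 + 124006 * t ^ 2 * w ^ 2 + 125035 * t ^ 3 * w
    + 43300 * t ^ 4) + q * (56880 * w ^ 3 + 256604 * t * w ^ 2 + 395842 * t ^ 2 * w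
    + 196796 * t ^ 3) + q ^ 2 * (130616 * w ^ 2 + 407381 * t * w + 318708 * t ^ 2)
    + q ^ 3 * (136574 * w + 220228 * t) + q ^ 4 * (55016)

/-- The coefficient of `r ^ 8`. -/
def P3_8 (q t w : ℝ) : ℝ :=
    (7980 * w ^ 3 + 37881 * t * w ^ 2 + 65272 * t ^ 2 * w + 39494 * t ^ 3) + q * (36736 * w ^ 2
    + 126933 * t * w + 119686 * t ^ 2) + q ^ 2 * (60023 * w + 115982 * t) + q ^ 3 * (35790)

/-- The coefficient of `r ^ 9`. -/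
def P3_9 (q t w : ℝ) : ℝ :=
    (3774 * w ^ 2 + 15575 * t * w + 18830 * t ^ 2) + q * (13226 * w + 33448 * t)
    + q ^ 2 * (13746)

/-- The coefficient of `r ^ 10`. -/
def P3_10 (q t w : ℝ) : ℝ :=
    (797 * w + 3663 * t) + q * (2317)

/-- The coefficient of `r ^ 11`. -/
def P3_11 (q t w : ℝ) : ℝ :=
    (1)

/-- A polynomial with nonnegative coefficients. -/
def P3 (r q t w : ℝ) : ℝ :=
    P3_0 q t w + r ^ 1 * P3_1 q t w + r ^ 2 * P3_2 q t w + r ^ 3 * P3_3 q t w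
    + r ^ 4 * P3_4 q t w + r ^ 5 * P3_5 q t w + r ^ 6 * P3_6 q t w + r ^ 7 * P3_7 q t w
    + r ^ 8 * P3_8 q t w + r ^ 9 * P3_9 q t w + r ^ 10 * P3_10 q t w + r ^ 11 * P3_11 q t w

theorem P3_eq (r q t w : ℝ) :
    H3 (r + q + t + w) r q (r + q + t) * G3 (r + q + t + w) r q (r + q + t)
      - ((r + q + t + w) + (r + q + t)) * E3 (r + q + t + w) r q (r + q + t) ^ 2
      = P3 r q t w := by
  unfold H3 G3 E3 P3 P3_0 P3_1 P3_2 P3_3 P3_4 P3_5 P3_6 P3_7 P3_8 P3_9 P3_10 P3_11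
  ring

theorem P3_0_nonneg {q t w : ℝ} (hq : 0 < q) (ht : 0 ≤ t) (hw : 0 ≤ w) :
    0 ≤ P3_0 q t w := by
  unfold P3_0
  positivity

theorem P3_1_nonneg {q t w : ℝ} (hq : 0 < q) (ht : 0 ≤ t) (hw : 0 ≤ w) :
    0 ≤ P3_1 q t w := by
  unfold P3_1
  positivity

theorem P3_2_nonneg {q t w : ℝ} (hq : 0 < q) (ht : 0 ≤ t) (hw : 0 ≤ w) :
    0 ≤ P3_2 q t w := by
  unfold P3_2
  positivity

theorem P3_3_nonneg {q t w : ℝ} (hq : 0 < q) (ht : 0 ≤ t) (hw : 0 ≤ w) :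
    0 ≤ P3_3 q t w := by
  unfold P3_3
  positivity

theorem P3_4_nonneg {q t w : ℝ} (hq : 0 < q) (ht : 0 ≤ t) (hw : 0 ≤ w) :
    0 ≤ P3_4 q t w := by
  unfold P3_4
  positivity

theorem P3_5_nonneg {q t w : ℝ} (hq : 0 < q) (ht : 0 ≤ t) (hw : 0 ≤ w) :
    0 ≤ P3_5 q t w := by
  unfold P3_5
  positivity

theorem P3_6_nonneg {q t w : ℝ} (hq : 0 < q) (ht : 0 ≤ t) (hw : 0 ≤ w) :
    0 ≤ P3_6 q t w := by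
  unfold P3_6
  positivity

theorem P3_7_nonneg {q t w : ℝ} (hq : 0 < q) (ht : 0 ≤ t) (hw : 0 ≤ w) :
    0 ≤ P3_7 q t w := by
  unfold P3_7
  positivity

theorem P3_8_nonneg {q t w : ℝ} (hq : 0 < q) (ht : 0 ≤ t) (hw : 0 ≤ w) :
    0 ≤ P3_8 q t w := by
  unfold P3_8
  positivity

theorem P3_9_nonneg {q t w : ℝ} (hq : 0 < q) (ht : 0 ≤ t) (hw : 0 ≤ w) :
    0 ≤ P3_9 q t w := by
  unfold P3_9
  positivity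

theorem P3_10_nonneg {q t w : ℝ} (hq : 0 < q) (ht : 0 ≤ t) (hw : 0 ≤ w) :
    0 ≤ P3_10 q t w := by
  unfold P3_10
  positivity

theorem P3_11_nonneg {q t w : ℝ} (hq : 0 < q) (ht : 0 ≤ t) (hw : 0 ≤ w) :
    0 ≤ P3_11 q t w := by
  unfold P3_11
  positivity

theorem P3_pos {r q t w : ℝ} (hr : 0 < r) (hq : 0 < q) (ht : 0 ≤ t) (hw : 0 ≤ w) :
    0 < P3 r q t w := by
  have h0 := P3_0_nonneg hq ht hw
  have h1 := P3_1_nonneg hq ht hw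
  have h2 := P3_2_nonneg hq ht hw
  have h3 := P3_3_nonneg hq ht hw
  have h4 := P3_4_nonneg hq ht hw
  have h5 := P3_5_nonneg hq ht hw
  have h6 := P3_6_nonneg hq ht hw
  have h7 := P3_7_nonneg hq ht hw
  have h8 := P3_8_nonneg hq ht hw
  have h9 := P3_9_nonneg hq ht hw
  have h10 := P3_10_nonneg hq ht hw
  have h11 : 0 < P3_11 q t w := by
    unfold P3_11
    positivity
  unfold P3
  positivity

end FBM
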