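import Pool.Agent.Helper81.CEGroup

/-!
# Hyperbolic coordinates on the hyperboloid part of the Tits cone
-/

open Set Topology

namespace ZBdry.Cox

/-- The point with orthonormal coordinates `(u₁, u₂, u₃)`. -/
noncomputable def pt (u₁ u₂ u₃ : ℝ) : V :=
  ![(√2 * u₁ - 4 / 3 * u₃ + √2 * √3 / 3 * u₂) / 2,
    (√2 * u₁ - 4 / 3 * u₃ - √2 * √3 / 3 * u₂) / 2, u₃ / 3]

theorem pt_zero (u₁ u₂ u₃ : ℝ) :
    pt u₁ u₂ u₃ 0 = (√2 * u₁ - 4 / 3 * u₃ + √2 * √3 / 3 * u₂) / 2 := rfl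
theorem pt_one (u₁ u₂ u₃ : ℝ) :
    pt u₁ u₂ u₃ 1 = (√2 * u₁ - 4 / 3 * u₃ - √2 * √3 / 3 * u₂) / 2 := rfl
theorem pt_two (u₁ u₂ u₃ : ℝ) : pt u₁ u₂ u₃ 2 = u₃ / 3 := rfl

theorem s2 : √2 * √2 = 2 := Real.mul_self_sqrt (by norm_num)
theorem s3 : √3 * √3 = 3 := Real.mul_self_sqrt (by norm_num)
theorem s2pos : 0 < √2 := Real.sqrt_pos.2 (by norm_num)
theorem s3pos : 0 < √3 := Real.sqrt_pos.2 (by norm_num)

/-- First orthonormal coordinate. -/
noncomputable def U1 (x : V) : ℝ := (x 0 + x 1 + 4 * x 2) * (√2 / 2)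
/-- Second orthonormal coordinate. -/
noncomputable def U2 (x : V) : ℝ := (x 0 - x 1) * (√2 * √3 / 2)
/-- Third orthonormal coordinate. -/
noncomputable def U3 (x : V) : ℝ := 3 * x 2

theorem continuous_U1 : Continuous U1 := by
  show Continuous fun x : V => (x 0 + x 1 + 4 * x 2) * (√2 / 2)
  fun_prop
theorem continuous_U2 : Continuous U2 := by
  show Continuous fun x : V => (x 0 - x 1) * (√2 * √3 / 2)
  fun_prop
theorem continuous_U3 : Continuous U3 := by
  show Continuous fun x : V => 3 * x 2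
  fun_prop

theorem B_eq_U (x y : V) : B x y = -(U1 x * U1 y) + U2 x * U2 y + U3 x * U3 y := by
  have h1 : U1 x * U1 y = (x 0 + x 1 + 4 * x 2) * (y 0 + y 1 + 4 * y 2) * (√2 * √2) / 4 := by
    simp only [U1]; ring
  have h2 : U2 x * U2 y = (x 0 - x 1) * (y 0 - y 1) * ((√2 * √2) * (√3 * √3)) / 4 := by
    simp only [U2]; ring
  rw [h1, h2, s2, s3]
  simp only [B, sm, U3]
  ring

theorem U1_pt (u₁ u₂ u₃ : ℝ) : U1 (pt u₁ u₂ u₃) = u₁ := by
  simp only [U1, pt_zero, pt_one, pt_two]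
  linear_combination u₁ / 2 * s2

theorem U2_pt (u₁ u₂ u₃ : ℝ) : U2 (pt u₁ u₂ u₃) = u₂ := by
  simp only [U2, pt_zero, pt_one]
  have h : (√2 * √3) * (√2 * √3) = 6 := by
    have : (√2 * √3) * (√2 * √3) = (√2 * √2) * (√3 * √3) := by ring
    rw [this, s2, s3]; norm_num
  linear_combination u₂ / 6 * h

theorem U3_pt (u₁ u₂ u₃ : ℝ) : U3 (pt u₁ u₂ u₃) = u₃ := by
  simp only [U3, pt_two]; ring

theorem pt_U (x : V) : pt (U1 x) (U2 x) (U3 x) = x := by
  have h : (√2 * √3) * (√2 * √3) = 6 := by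
    have : (√2 * √3) * (√2 * √3) = (√2 * √2) * (√3 * √3) := by ring
    rw [this, s2, s3]; norm_num
  funext i
  fin_cases i
  · show pt _ _ _ 0 = x 0
    simp only [pt_zero, U1, U2, U3]
    linear_combination (x 0 + x 1 + 4 * x 2) / 4 * s2 + (x 0 - x 1) / 12 * h
  · show pt _ _ _ 1 = x 1
    simp only [pt_one, U1, U2, U3]
    linear_combination (x 0 + x 1 + 4 * x 2) / 4 * s2 - (x 0 - x 1) / 12 * h
  · show pt _ _ _ 2 = x 2
    simp only [pt_two, U3]
    ring

theorem pt_comb (c d u₁ u₂ u₃ v₁ v₂ v₃ : ℝ) :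
    pt (c * u₁ + d * v₁) (c * u₂ + d * v₂) (c * u₃ + d * v₃)
      = c • pt u₁ u₂ u₃ + d • pt v₁ v₂ v₃ := by
  funext i
  fin_cases i
  · show pt _ _ _ 0 = c * pt _ _ _ 0 + d * pt _ _ _ 0
    simp only [pt_zero]; ring
  · show pt _ _ _ 1 = c * pt _ _ _ 1 + d * pt _ _ _ 1
    simp only [pt_one]; ring
  · show pt _ _ _ 2 = c * pt _ _ _ 2 + d * pt _ _ _ 2
    simp only [pt_two]; ring

theorem pt_smul (c u₁ u₂ u₃ : ℝ) : pt (c * u₁) (c * u₂) (c * u₃) = c • pt u₁ u₂ u₃ := by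
  have := pt_comb c 0 u₁ u₂ u₃ 0 0 0
  simpa using this

theorem continuous_pt : Continuous fun u : ℝ × ℝ × ℝ => pt u.1 u.2.1 u.2.2 := by
  apply continuous_pi
  intro i
  fin_cases i
  · show Continuous fun u : ℝ × ℝ × ℝ =>
      (√2 * u.1 - 4 / 3 * u.2.2 + √2 * √3 / 3 * u.2.1) / 2
    fun_prop
  · show Continuous fun u : ℝ × ℝ × ℝ =>
      (√2 * u.1 - 4 / 3 * u.2.2 - √2 * √3 / 3 * u.2.1) / 2
    fun_prop
  · show Continuous fun u : ℝ × ℝ × ℝ => u.2.2 / 3
    fun_prop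

theorem B_pt (u₁ u₂ u₃ : ℝ) : B (pt u₁ u₂ u₃) (pt u₁ u₂ u₃) = -u₁ ^ 2 + u₂ ^ 2 + u₃ ^ 2 := by
  rw [B_eq_U, U1_pt, U2_pt, U3_pt]; ring

/-! ### The Klein region -/

/-- The vertical slices of the region in the Klein model. -/
def Q (X : ℝ) : Set ℝ := {y | pt 1 X y ∈ T ∧ X ^ 2 + y ^ 2 ≤ 1}

theorem zero_mem_Q {X : ℝ} (hX : X ∈ Ioo (-1 : ℝ) 1) : (0 : ℝ) ∈ Q X := by
  have h3 : √3 < 3 := by
    rw [Real.sqrt_lt' (by norm_num)]; norm_num
  have h3' := s3pos
  have h2 := s2pos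
  have hX2 : X ^ 2 < 1 := by nlinarith [hX.1, hX.2]
  refine ⟨face_subset_T (j := 2) ?_ (by simp [pt_two]) ?_, by simpa using hX2.le⟩
  · intro i
    have hb : |√3 / 3 * X| ≤ 1 := by
      rw [abs_le]
      constructor <;> nlinarith [hX.1, hX.2]
    rw [abs_le] at hb
    fin_cases i
    · show 0 ≤ pt 1 X 0 0
      rw [pt_zero]
      have : (√2 * 1 - 4 / 3 * 0 + √2 * √3 / 3 * X) / 2 = √2 * (1 + √3 / 3 * X) / 2 := by ring
      rw [this]
      have : 0 ≤ 1 + √3 / 3 * X := by linarith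
      positivity
    · show 0 ≤ pt 1 X 0 1
      rw [pt_one]
      have : (√2 * 1 - 4 / 3 * 0 - √2 * √3 / 3 * X) / 2 = √2 * (1 - √3 / 3 * X) / 2 := by ring
      rw [this]
      have : 0 ≤ 1 - √3 / 3 * X := by linarith
      positivity
    · show 0 ≤ pt 1 X 0 2
      rw [pt_two]; norm_num
  · rw [B_pt]
    nlinarith

theorem Q_nonneg {X y : ℝ} (h : y ∈ Q X) : 0 ≤ y := by
  have := T_nonneg h.1 2
  rw [pt_two] at this
  linarith

theorem Q_le_one {X y : ℝ} (h : y ∈ Q X) : y ≤ 1 := by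
  have := h.2
  nlinarith [sq_nonneg X, Q_nonneg h]

theorem Q_comb {X X' y y' : ℝ} (h : y ∈ Q X) (h' : y' ∈ Q X') {c d : ℝ} (hc : 0 ≤ c)
    (hd : 0 ≤ d) (hcd : c + d = 1) : c * y + d * y' ∈ Q (c * X + d * X') := by
  constructor
  · have h1 := T_comb h.1 h'.1 hc hd
    rw [← pt_comb] at h1
    have h2 : c * 1 + d * 1 = (1 : ℝ) := by linarith
    rwa [h2] at h1
  · have h1 := h.2
    have h2 := h'.2
    have hd' : d = 1 - c := by linarith
    subst hd'
    nlinarith [mul_nonneg (mul_nonneg hc hd) (add_nonneg (sq_nonneg (X - X'))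
      (sq_nonneg (y - y'))), mul_le_mul_of_nonneg_left h1 hc, mul_le_mul_of_nonneg_left h2 hd]

theorem isClosed_Q (X : ℝ) : IsClosed (Q X) := by
  apply IsClosed.inter
  · exact isClosed_T.preimage (continuous_pt.comp
      (continuous_const.prodMk (continuous_const.prodMk continuous_id)))
  · exact isClosed_le (f := fun y : ℝ => X ^ 2 + y ^ 2) (g := fun _ => 1) (by fun_prop)
      (by fun_prop)

/-- The upper boundary function of the Klein region. -/
noncomputable def F (X : ℝ) : ℝ := sSup (Q X)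

theorem bddAbove_Q (X : ℝ) : BddAbove (Q X) := ⟨1, fun _ hy => Q_le_one hy⟩

theorem F_mem {X : ℝ} (hX : X ∈ Ioo (-1 : ℝ) 1) : F X ∈ Q X :=
  (isClosed_Q X).csSup_mem ⟨0, zero_mem_Q hX⟩ (bddAbove_Q X)

theorem le_F {X y : ℝ} (h : y ∈ Q X) : y ≤ F X := le_csSup (bddAbove_Q X) h

theorem F_nonneg {X : ℝ} (hX : X ∈ Ioo (-1 : ℝ) 1) : 0 ≤ F X := Q_nonneg (F_mem hX)

theorem F_sq {X : ℝ} (hX : X ∈ Ioo (-1 : ℝ) 1) : X ^ 2 + F X ^ 2 ≤ 1 := (F_mem hX).2

theorem concaveOn_F : ConcaveOn ℝ (Ioo (-1 : ℝ) 1) F := by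
  refine ⟨convex_Ioo _ _, fun X hX X' hX' c d hc hd hcd => ?_⟩
  exact le_F (Q_comb (F_mem hX) (F_mem hX') hc hd hcd)

theorem continuousOn_F : ContinuousOn F (Ioo (-1 : ℝ) 1) := concaveOn_F.continuousOn isOpen_Ioo

theorem mem_T_iff {X y : ℝ} (hX : X ∈ Ioo (-1 : ℝ) 1) (hy : X ^ 2 + y ^ 2 ≤ 1) :
    pt 1 X y ∈ T ↔ 0 ≤ y ∧ y ≤ F X := by
  constructor
  · intro h
    have h1 : y ∈ Q X := ⟨h, hy⟩
    exact ⟨Q_nonneg h1, le_F h1⟩
  · rintro ⟨h0, h1⟩
    rcases h0.eq_or_lt with h | h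
    · rw [← h]
      exact (zero_mem_Q hX).1
    · have hF : 0 < F X := lt_of_lt_of_le h h1
      have h2 := Q_comb (zero_mem_Q hX) (F_mem hX) (c := 1 - y / F X) (d := y / F X)
        (by rw [sub_nonneg, div_le_one hF]; exact h1) (by positivity) (by ring)
      have h3 : (1 - y / F X) * 0 + y / F X * F X = y := by
        field_simp
        ring
      have h4 : (1 - y / F X) * X + y / F X * X = X := by ring
      rw [h3, h4] at h2
      exact h2.1

/-! ### Fermi coordinates -/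

/-- The height function of the region in Fermi coordinates. -/
noncomputable def ff (b : ℝ) : ℝ := Real.cosh b * F (Real.tanh b)

theorem tanh_mem (b : ℝ) : Real.tanh b ∈ Ioo (-1 : ℝ) 1 :=
  ⟨Real.neg_one_lt_tanh b, Real.tanh_lt_one b⟩

theorem continuous_tanh : Continuous Real.tanh := by
  have : Real.tanh = fun x => Real.sinh x / Real.cosh x := by
    funext x
    exact Real.tanh_eq_sinh_div_cosh x
  rw [this]
  exact Real.continuous_sinh.div Real.continuous_cosh fun x => (Real.cosh_pos x).ne'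

theorem continuous_ff : Continuous ff := by
  apply Real.continuous_cosh.mul
  rw [← continuousOn_univ]
  exact continuousOn_F.comp continuous_tanh.continuousOn fun b _ => tanh_mem b

theorem tanh_sq (b : ℝ) : Real.tanh b ^ 2 + (1 / Real.cosh b) ^ 2 = 1 := by
  have h := Real.cosh_pos b
  rw [Real.tanh_eq_sinh_div_cosh]
  field_simp
  have := Real.cosh_sq b
  linarith

theorem ff_nonneg (b : ℝ) : 0 ≤ ff b :=
  mul_nonneg (Real.cosh_pos b).le (F_nonneg (tanh_mem b))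

theorem F_le (b : ℝ) : F (Real.tanh b) ≤ 1 / Real.cosh b := by
  have h := Real.cosh_pos b
  have h1 := F_sq (tanh_mem b)
  have h2 := tanh_sq b
  have h3 : F (Real.tanh b) ^ 2 ≤ (1 / Real.cosh b) ^ 2 := by linarith
  exact abs_le_of_sq_le_sq' h3 (by positivity) |>.2

theorem ff_le_one (b : ℝ) : ff b ≤ 1 := by
  have h := Real.cosh_pos b
  have h1 := F_le b
  have : Real.cosh b * F (Real.tanh b) ≤ Real.cosh b * (1 / Real.cosh b) :=
    mul_le_mul_of_nonneg_left h1 h.le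
  rw [mul_one_div_cancel h.ne'] at this
  exact this

/-- The point with Fermi coordinates `(b, e)`. -/
noncomputable def Lam (b e : ℝ) : V :=
  pt (Real.cosh e * Real.cosh b) (Real.cosh e * Real.sinh b) (Real.sinh e)

theorem continuous_Lam : Continuous fun q : ℝ × ℝ => Lam q.1 q.2 := by
  have h : Continuous fun q : ℝ × ℝ => (Real.cosh q.2 * Real.cosh q.1,
      Real.cosh q.2 * Real.sinh q.1, Real.sinh q.2) := by
    have h1 := Real.continuous_cosh
    have h2 := Real.continuous_sinh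
    fun_prop
  exact continuous_pt.comp h

/-- The distance formula. -/
theorem B_Lam (b e b' e' : ℝ) : -B (Lam b e) (Lam b' e') =
    Real.cosh e * Real.cosh e' * Real.cosh (b - b') - Real.sinh e * Real.sinh e' := by
  simp only [Lam]
  rw [B_eq_U, U1_pt, U2_pt, U3_pt, U1_pt, U2_pt, U3_pt, Real.cosh_sub]
  ring

theorem B_Lam_self (b e : ℝ) : B (Lam b e) (Lam b e) = -1 := by
  have h := B_Lam b e b e
  rw [sub_self, Real.cosh_zero] at h
  have := Real.cosh_sq e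
  nlinarith

theorem Lam_mem (b e : ℝ) : Lam b e ∈ T ↔ 0 ≤ e ∧ Real.tanh e ≤ ff b := by
  have hb := Real.cosh_pos b
  have he := Real.cosh_pos e
  have h1 : Lam b e = (Real.cosh e * Real.cosh b) •
      pt 1 (Real.tanh b) (Real.tanh e / Real.cosh b) := by
    rw [← pt_smul]
    simp only [Lam]
    rw [Real.tanh_eq_sinh_div_cosh, Real.tanh_eq_sinh_div_cosh]
    congr 1
    · ring
    · field_simp
    · field_simp
  have h2 : Lam b e ∈ T ↔ pt 1 (Real.tanh b) (Real.tanh e / Real.cosh b) ∈ T := by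
    rw [h1]
    constructor
    · intro h
      have h3 := T_smul h (c := (Real.cosh e * Real.cosh b)⁻¹) (by positivity)
      rwa [smul_smul, inv_mul_cancel₀ (by positivity), one_smul] at h3
    · intro h
      exact T_smul h (by positivity)
  have h3 : Real.tanh b ^ 2 + (Real.tanh e / Real.cosh b) ^ 2 ≤ 1 := by
    have h4 := tanh_sq b
    have h5 : (Real.tanh e / Real.cosh b) ^ 2 ≤ (1 / Real.cosh b) ^ 2 := by
      rw [div_pow, div_pow]
      apply div_le_div_of_nonneg_right _ (by positivity)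
      have := tanh_sq e
      nlinarith [sq_nonneg (1 / Real.cosh e)]
    linarith
  rw [h2, mem_T_iff (tanh_mem b) h3]
  apply and_congr
  · rw [le_div_iff₀ hb, zero_mul, Real.tanh_eq_sinh_div_cosh, le_div_iff₀ he, zero_mul,
      Real.sinh_nonneg_iff]
  · rw [div_le_iff₀ hb, ff, mul_comm]

/-- The height coordinate. -/
noncomputable def ec (x : V) : ℝ := Real.arsinh (U3 x)

/-- The base coordinate. -/
noncomputable def bc (x : V) : ℝ := Real.arsinh (U2 x / √(1 + U3 x ^ 2))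

theorem continuous_ec : Continuous ec := Real.continuous_arsinh.comp continuous_U3

theorem continuous_bc : Continuous bc := by
  apply Real.continuous_arsinh.comp
  apply continuous_U2.div
  · exact (continuous_const.add (continuous_U3.pow 2)).sqrt
  · intro x
    have : 0 < √(1 + U3 x ^ 2) := Real.sqrt_pos.2 (by positivity)
    exact this.ne'

theorem ec_Lam (b e : ℝ) : ec (Lam b e) = e := by
  simp only [ec, Lam, U3_pt, Real.arsinh_sinh]

theorem bc_Lam (b e : ℝ) : bc (Lam b e) = b := by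
  simp only [bc, Lam, U3_pt, U2_pt]
  have h1 : √(1 + Real.sinh e ^ 2) = Real.cosh e := by
    rw [← Real.cosh_arsinh, Real.arsinh_sinh]
  rw [h1, mul_div_cancel_left₀ _ (Real.cosh_pos e).ne', Real.arsinh_sinh]

theorem Lam_coord {x : V} (hx : x ∈ Th) : Lam (bc x) (ec x) = x := by
  have h1 : Real.cosh (ec x) = √(1 + U3 x ^ 2) := Real.cosh_arsinh _
  have hpos : 0 < √(1 + U3 x ^ 2) := Real.sqrt_pos.2 (by positivity)
  have h2 : Real.sinh (ec x) = U3 x := Real.sinh_arsinh _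
  have h3 : Real.sinh (bc x) = U2 x / √(1 + U3 x ^ 2) := Real.sinh_arsinh _
  have h4 : Real.cosh (ec x) * Real.sinh (bc x) = U2 x := by
    rw [h1, h3]
    field_simp
  have hB : U1 x ^ 2 = 1 + U2 x ^ 2 + U3 x ^ 2 := by
    have := hx.2
    rw [B_eq_U] at this
    nlinarith
  have h5 : (Real.cosh (ec x) * Real.cosh (bc x)) ^ 2 = U1 x ^ 2 := by
    rw [mul_pow, Real.cosh_sq (bc x), hB]
    have h6 : (Real.cosh (ec x) * Real.sinh (bc x)) ^ 2 = U2 x ^ 2 := by rw [h4]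
    have h7 : Real.cosh (ec x) ^ 2 = 1 + U3 x ^ 2 := by
      rw [h1, Real.sq_sqrt (by positivity)]
    rw [mul_pow] at h6
    linarith
  have h0 : 0 ≤ U1 x := by
    have h0 := T_nonneg hx.1 0
    have h1 := T_nonneg hx.1 1
    have h2 := T_nonneg hx.1 2
    simp only [U1]
    positivity
  have h6 : Real.cosh (ec x) * Real.cosh (bc x) = U1 x := by
    have := Real.cosh_pos (ec x)
    have := Real.cosh_pos (bc x)
    exact (sq_eq_sq₀ (by positivity) h0).1 h5
  simp only [Lam]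
  rw [h6, h4, h2, pt_U]

theorem ec_nonneg {x : V} (hx : x ∈ Th) : 0 ≤ ec x := by
  have h := hx.1
  rw [← Lam_coord hx, Lam_mem] at h
  exact h.1

theorem tanh_ec_le {x : V} (hx : x ∈ Th) : Real.tanh (ec x) ≤ ff (bc x) := by
  have h := hx.1
  rw [← Lam_coord hx, Lam_mem] at h
  exact h.2

theorem Lam_mem_Th {b e : ℝ} (h0 : 0 ≤ e) (h : Real.tanh e ≤ ff b) : Lam b e ∈ Th :=
  ⟨(Lam_mem b e).2 ⟨h0, h⟩, B_Lam_self b e⟩

/-! ### Ends of the region -/

theorem ff_eq_one_iff (b : ℝ) : ff b = 1 ↔ pt (Real.cosh b) (Real.sinh b) 1 ∈ T := by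
  have hb := Real.cosh_pos b
  have h1 : pt (Real.cosh b) (Real.sinh b) 1 = Real.cosh b •
      pt 1 (Real.tanh b) (1 / Real.cosh b) := by
    rw [← pt_smul, Real.tanh_eq_sinh_div_cosh]
    congr 1
    · ring
    · field_simp
    · field_simp
  have h2 : pt (Real.cosh b) (Real.sinh b) 1 ∈ T ↔ pt 1 (Real.tanh b) (1 / Real.cosh b) ∈ T := by
    rw [h1]
    constructor
    · intro h
      have h3 := T_smul h (c := (Real.cosh b)⁻¹) (by positivity)
      rwa [smul_smul, inv_mul_cancel₀ (by positivity), one_smul] at h3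
    · intro h
      exact T_smul h (by positivity)
  rw [h2, mem_T_iff (tanh_mem b) (tanh_sq b).le]
  constructor
  · intro h
    refine ⟨by positivity, ?_⟩
    rw [div_le_iff₀ hb, mul_comm]
    exact h.ge
  · rintro ⟨-, h⟩
    rw [div_le_iff₀ hb, mul_comm] at h
    exact le_antisymm (ff_le_one b) h

theorem ff_zero_ne : ff 0 ≠ 1 := by
  rw [Ne, ff_eq_one_iff]
  intro h
  have h1 := h [2] 2
  rw [act_cons, act_nil, r_self] at h1
  simp only [dc, sm, pt_zero, pt_one, pt_two, Real.cosh_zero, Real.sinh_zero] at h1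
  have h2 : √2 < 17 / 12 := by
    rw [Real.sqrt_lt' (by norm_num)]; norm_num
  linarith

theorem cosh_bv : Real.cosh (Real.arsinh (3 / 4)) = 5 / 4 := by
  rw [Real.cosh_arsinh]
  have : (1 + (3 / 4 : ℝ) ^ 2) = (5 / 4) ^ 2 := by norm_num
  rw [this, Real.sqrt_sq (by norm_num)]

theorem ff_bv_ne : ff (Real.arsinh (3 / 4)) ≠ 1 := by
  rw [Ne, ff_eq_one_iff]
  intro h
  have h1 := T_nonneg h 1
  rw [cosh_bv, Real.sinh_arsinh, pt_one] at h1
  have h2 : √2 < 3 / 2 := by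
    rw [Real.sqrt_lt' (by norm_num)]; norm_num
  have h3 : (17 / 10 : ℝ) < √3 := by
    rw [Real.lt_sqrt (by norm_num)]; norm_num
  have h4 : √2 * (17 / 10) ≤ √2 * √3 := mul_le_mul_of_nonneg_left h3.le s2pos.le
  linarith

theorem iso_mem_T : (![(2 - √3) / 3, 0, 1 / 3] : V) ∈ T := by
  have h3 : √3 < 2 := by
    rw [Real.sqrt_lt' (by norm_num)]; norm_num
  have h3' := s3pos
  have h33 := s3
  have hmem : ∀ s : ℝ, 0 < s → s < 1 → (![(2 - √3 + s) / 3, 0, 1 / 3] : V) ∈ T := by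
    intro s hs hs1
    apply face_subset_T (j := 1)
    · intro i
      fin_cases i
      · show 0 ≤ (2 - √3 + s) / 3
        linarith
      · show (0 : ℝ) ≤ 0
        exact le_rfl
      · show (0 : ℝ) ≤ 1 / 3
        norm_num
    · rfl
    · show 3 * ((2 - √3 + s) / 3 * ((2 - √3 + s) / 3) + 0 * 0 + 1 / 3 * (1 / 3))
        - 2 * (((2 - √3 + s) / 3 + 0 + 1 / 3) * ((2 - √3 + s) / 3 + 0 + 1 / 3)) < 0
      have e : 3 * ((2 - √3 + s) / 3 * ((2 - √3 + s) / 3) + 0 * 0 + 1 / 3 * (1 / 3))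
        - 2 * (((2 - √3 + s) / 3 + 0 + 1 / 3) * ((2 - √3 + s) / 3 + 0 + 1 / 3))
        = s * (s - 2 * √3) / 9 := by
        linear_combination (1 / 9 : ℝ) * h33
      rw [e]
      have h5 : (1 : ℝ) < √3 := by
        rw [Real.lt_sqrt (by norm_num)]; norm_num
      have h6 : s - 2 * √3 < 0 := by linarith
      have := mul_neg_of_pos_of_neg hs h6
      linarith
  have hlim : Filter.Tendsto (fun n : ℕ => (![(2 - √3 + 1 / ((n : ℝ) + 2)) / 3, 0, 1 / 3] : V))
      Filter.atTop (𝓝 (![(2 - √3) / 3, 0, 1 / 3] : V)) := by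
    rw [tendsto_pi_nhds]
    intro i
    fin_cases i
    · show Filter.Tendsto (fun n : ℕ => (2 - √3 + 1 / ((n : ℝ) + 2)) / 3) Filter.atTop
        (𝓝 ((2 - √3) / 3))
      have h : Filter.Tendsto (fun n : ℕ => 1 / ((n : ℝ) + 2)) Filter.atTop (𝓝 0) := by
        apply Filter.Tendsto.div_atTop tendsto_const_nhds
        exact Filter.tendsto_atTop_add_const_right _ _ tendsto_natCast_atTop_atTop
      have h2 := ((tendsto_const_nhds (x := 2 - √3)).add h).div_const 3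
      rwa [add_zero] at h2
    · show Filter.Tendsto (fun n : ℕ => (0 : ℝ)) Filter.atTop (𝓝 0)
      exact tendsto_const_nhds
    · show Filter.Tendsto (fun n : ℕ => (1 / 3 : ℝ)) Filter.atTop (𝓝 (1 / 3))
      exact tendsto_const_nhds
  refine isClosed_T.mem_of_tendsto hlim (Filter.Eventually.of_forall fun n => hmem _ ?_ ?_)
  · positivity
  · rw [div_lt_one (by positivity)]
    have : (0 : ℝ) ≤ n := Nat.cast_nonneg n
    linarith

/-- The coordinate of the end. -/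
noncomputable def bs : ℝ := Real.arsinh (√2 * (2 * √3 - 3) / 6)

theorem cosh_bs : Real.cosh bs = √2 * (6 - √3) / 6 := by
  rw [bs, Real.cosh_arsinh]
  have h2 := s2pos
  have h3 : √3 < 2 := by
    rw [Real.sqrt_lt' (by norm_num)]; norm_num
  have h : 1 + (√2 * (2 * √3 - 3) / 6) ^ 2 = (√2 * (6 - √3) / 6) ^ 2 := by
    have e2 : √2 ^ 2 = 2 := Real.sq_sqrt (by norm_num)
    have e3 : √3 ^ 2 = 3 := Real.sq_sqrt (by norm_num)
    have l : (√2 * (2 * √3 - 3) / 6) ^ 2 = √2 ^ 2 * (4 * √3 ^ 2 - 12 * √3 + 9) / 36 := by ring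
    have r : (√2 * (6 - √3) / 6) ^ 2 = √2 ^ 2 * (36 - 12 * √3 + √3 ^ 2) / 36 := by ring
    rw [l, r, e2, e3]
    ring
  rw [h]
  apply Real.sqrt_sq
  have : 0 < 6 - √3 := by linarith
  positivity

theorem ff_bs : ff bs = 1 := by
  rw [ff_eq_one_iff]
  have hpt : pt (Real.cosh bs) (Real.sinh bs) 1 = (![(2 - √3) / 3, 0, 1 / 3] : V) := by
    rw [cosh_bs, bs, Real.sinh_arsinh]
    have h2 := s2
    have h3 := s3
    funext i
    fin_cases i
    · show (√2 * (√2 * (6 - √3) / 6) - 4 / 3 * 1 + √2 * √3 / 3 * (√2 * (2 * √3 - 3) / 6)) / 2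
        = (2 - √3) / 3
      have e : (√2 * (√2 * (6 - √3) / 6) - 4 / 3 * 1 + √2 * √3 / 3 * (√2 * (2 * √3 - 3) / 6)) / 2
        = ((√2 * √2) * (6 - √3) / 6 - 4 / 3 + (√2 * √2) * (2 * (√3 * √3) - 3 * √3) / 18) / 2 := by
        ring
      rw [e, h2, h3]
      ring
    · show (√2 * (√2 * (6 - √3) / 6) - 4 / 3 * 1 - √2 * √3 / 3 * (√2 * (2 * √3 - 3) / 6)) / 2
        = 0
      have e : (√2 * (√2 * (6 - √3) / 6) - 4 / 3 * 1 - √2 * √3 / 3 * (√2 * (2 * √3 - 3) / 6)) / 2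
        = ((√2 * √2) * (6 - √3) / 6 - 4 / 3 - (√2 * √2) * (2 * (√3 * √3) - 3 * √3) / 18) / 2 := by
        ring
      rw [e, h2, h3]
      ring
    · rfl
  rw [hpt]
  exact iso_mem_T

theorem bs_pos : 0 < bs := by
  rw [bs, Real.arsinh_pos_iff]
  have h2 := s2pos
  have h3 : (3 / 2 : ℝ) < √3 := by
    rw [Real.lt_sqrt (by norm_num)]; norm_num
  have : 0 < 2 * √3 - 3 := by linarith
  positivity

theorem bs_lt : bs < Real.arsinh (3 / 4) := by
  rw [bs, Real.arsinh_lt_arsinh]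
  have h2 : √2 < 3 / 2 := by
    rw [Real.sqrt_lt' (by norm_num)]; norm_num
  have h2' := s2pos
  have h3 : √3 < 2 := by
    rw [Real.sqrt_lt' (by norm_num)]; norm_num
  have h3' : (3 / 2 : ℝ) < √3 := by
    rw [Real.lt_sqrt (by norm_num)]; norm_num
  nlinarith

/-- The gaps. -/
theorem exists_gap : ∃ u v s : ℝ, 0 < u ∧ u < s ∧ s < v ∧ ff u ≠ 1 ∧ ff v ≠ 1 ∧ ff s = 1 := by
  have hopen : IsOpen {b : ℝ | ff b ≠ 1} := isOpen_ne.preimage continuous_ff
  obtain ⟨δ, hδ, hball⟩ := Metric.isOpen_iff.1 hopen 0 ff_zero_ne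
  refine ⟨min (δ / 2) (bs / 2), Real.arsinh (3 / 4), bs, ?_, ?_, bs_lt, ?_, ff_bv_ne, ff_bs⟩
  · exact lt_min (by linarith) (by linarith [bs_pos])
  · exact (min_le_right _ _).trans_lt (by linarith [bs_pos])
  · apply hball
    rw [Metric.mem_ball, Real.dist_eq, sub_zero, abs_of_pos]
    · exact (min_le_left _ _).trans_lt (by linarith)
    · exact lt_min (by linarith) (by linarith [bs_pos])

/-! ### Distance estimates -/

theorem one_add_sq_le_cosh (x : ℝ) : 1 + x ^ 2 / 2 ≤ Real.cosh x := by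
  have h1 : Real.cosh x = 1 + 2 * Real.sinh (x / 2) ^ 2 := by
    have h2 : x = 2 * (x / 2) := by ring
    rw [h2, Real.cosh_two_mul, Real.cosh_sq]
    have h3 : 2 * (x / 2) / 2 = x / 2 := by ring
    rw [h3]
    ring
  have h2 : (x / 2) ^ 2 ≤ Real.sinh (x / 2) ^ 2 := by
    rw [sq_le_sq]
    rcases le_total 0 (x / 2) with h | h
    · rw [abs_of_nonneg h, abs_of_nonneg (Real.sinh_nonneg_iff.2 h)]
      exact Real.self_le_sinh_iff.2 h
    · rw [abs_of_nonpos h, abs_of_nonpos (Real.sinh_nonpos_iff.2 h)]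
      have := Real.sinh_le_self_iff.2 h
      linarith
  rw [h1]
  nlinarith

theorem dist_est {b e b' e' C : ℝ} (h : -B (Lam b e) (Lam b' e') ≤ C) :
    (e - e') ^ 2 ≤ 2 * C ∧ (b - b') ^ 2 * (Real.cosh e * Real.cosh e') ≤ 2 * C := by
  rw [B_Lam] at h
  have h1 := one_add_sq_le_cosh (b - b')
  have h2 := one_add_sq_le_cosh (e - e')
  rw [Real.cosh_sub e e'] at h2
  have h3 := Real.one_le_cosh e
  have h4 := Real.one_le_cosh e'
  have h5 : 1 ≤ Real.cosh e * Real.cosh e' := one_le_mul_of_one_le_of_one_le h3 h4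
  have h6 : Real.cosh e * Real.cosh e' * (1 + (b - b') ^ 2 / 2)
      ≤ Real.cosh e * Real.cosh e' * Real.cosh (b - b') :=
    mul_le_mul_of_nonneg_left h1 (by linarith)
  constructor
  · nlinarith [sq_nonneg (b - b')]
  · nlinarith [sq_nonneg (e - e')]

end ZBdry.Cox
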