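import Pool.Agent.Helper81.CEZset
import Pool.Agent.Helper81.CEGeom

/-!
# The twisted compactifications
-/

open Set Topology
open scoped unitInterval

namespace ZBdry.Tw

open ZBdry.Cox

variable {ω : ℝ → ℝ}

/-- The twisting embedding of the plane onto the open disc. -/
noncomputable def hh (ω : ℝ → ℝ) (ζ : ℂ) : ℂ :=
  ((1 / (1 + ‖ζ‖) : ℝ) : ℂ) * (ζ * Complex.exp (((ω ‖ζ‖ : ℝ) : ℂ) * Complex.I))

/-- Its inverse. -/
noncomputable def kk (ω : ℝ → ℝ) (w : ℂ) : ℂ :=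
  ((1 / (1 - ‖w‖) : ℝ) : ℂ) *
    (w * Complex.exp (((-ω (‖w‖ / (1 - ‖w‖)) : ℝ) : ℂ) * Complex.I))

theorem norm_hh (ζ : ℂ) : ‖hh ω ζ‖ = ‖ζ‖ / (1 + ‖ζ‖) := by
  have h := norm_nonneg ζ
  rw [hh, norm_mul, norm_mul, Complex.norm_exp_ofReal_mul_I, Complex.norm_real,
    Real.norm_of_nonneg (by positivity)]
  ring

theorem norm_kk {w : ℂ} (hw : ‖w‖ < 1) : ‖kk ω w‖ = ‖w‖ / (1 - ‖w‖) := by
  have h : 0 < 1 - ‖w‖ := by linarith
  rw [kk, norm_mul, norm_mul, Complex.norm_exp_ofReal_mul_I, Complex.norm_real,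
    Real.norm_of_nonneg (by positivity)]
  ring

theorem one_sub_norm_hh (ζ : ℂ) : 1 - ‖hh ω ζ‖ = 1 / (1 + ‖ζ‖) := by
  have h : 0 < 1 + ‖ζ‖ := by positivity
  rw [norm_hh]
  field_simp
  ring

theorem norm_hh_lt (ζ : ℂ) : ‖hh ω ζ‖ < 1 := by
  have h : 0 < 1 / (1 + ‖ζ‖) := by positivity
  rw [← one_sub_norm_hh (ω := ω)] at h
  linarith

theorem one_add_norm_kk {w : ℂ} (hw : ‖w‖ < 1) : 1 + ‖kk ω w‖ = 1 / (1 - ‖w‖) := by
  have h : 0 < 1 - ‖w‖ := by linarith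
  rw [norm_kk hw]
  field_simp
  ring

theorem kk_hh (ζ : ℂ) : kk ω (hh ω ζ) = ζ := by
  have h : (0 : ℝ) < 1 + ‖ζ‖ := by positivity
  have h1 : ‖hh ω ζ‖ / (1 - ‖hh ω ζ‖) = ‖ζ‖ := by
    rw [one_sub_norm_hh, norm_hh]
    field_simp
  rw [kk, h1, one_sub_norm_hh, one_div_one_div]
  rw [hh]
  have h2 : Complex.exp (((ω ‖ζ‖ : ℝ) : ℂ) * Complex.I) *
      Complex.exp (((-ω ‖ζ‖ : ℝ) : ℂ) * Complex.I) = 1 := by
    rw [← Complex.exp_add]
    push_cast
    rw [neg_mul, add_neg_cancel, Complex.exp_zero]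
  have h3 : (((1 + ‖ζ‖ : ℝ)) : ℂ) * ((1 / (1 + ‖ζ‖) : ℝ) : ℂ) = 1 := by
    rw [← Complex.ofReal_mul, mul_one_div_cancel h.ne']
    simp
  calc (((1 + ‖ζ‖ : ℝ)) : ℂ) * (((1 / (1 + ‖ζ‖) : ℝ) : ℂ) *
        (ζ * Complex.exp (((ω ‖ζ‖ : ℝ) : ℂ) * Complex.I)) *
        Complex.exp (((-ω ‖ζ‖ : ℝ) : ℂ) * Complex.I))
      = ((((1 + ‖ζ‖ : ℝ)) : ℂ) * ((1 / (1 + ‖ζ‖) : ℝ) : ℂ)) * ζ *
        (Complex.exp (((ω ‖ζ‖ : ℝ) : ℂ) * Complex.I) *
        Complex.exp (((-ω ‖ζ‖ : ℝ) : ℂ) * Complex.I)) := by ring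
    _ = ζ := by rw [h2, h3]; ring

theorem hh_kk {w : ℂ} (hw : ‖w‖ < 1) : hh ω (kk ω w) = w := by
  have h : (0 : ℝ) < 1 - ‖w‖ := by linarith
  rw [hh, one_add_norm_kk hw, one_div_one_div, norm_kk hw, kk]
  have h2 : Complex.exp (((-ω (‖w‖ / (1 - ‖w‖)) : ℝ) : ℂ) * Complex.I) *
      Complex.exp (((ω (‖w‖ / (1 - ‖w‖)) : ℝ) : ℂ) * Complex.I) = 1 := by
    rw [← Complex.exp_add]
    push_cast
    rw [neg_mul, neg_add_cancel, Complex.exp_zero]
  have h3 : (((1 - ‖w‖ : ℝ)) : ℂ) * ((1 / (1 - ‖w‖) : ℝ) : ℂ) = 1 := by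
    rw [← Complex.ofReal_mul, mul_one_div_cancel h.ne']
    simp
  calc (((1 - ‖w‖ : ℝ)) : ℂ) * (((1 / (1 - ‖w‖) : ℝ) : ℂ) *
        (w * Complex.exp (((-ω (‖w‖ / (1 - ‖w‖)) : ℝ) : ℂ) * Complex.I)) *
        Complex.exp (((ω (‖w‖ / (1 - ‖w‖)) : ℝ) : ℂ) * Complex.I))
      = ((((1 - ‖w‖ : ℝ)) : ℂ) * ((1 / (1 - ‖w‖) : ℝ) : ℂ)) * w *
        (Complex.exp (((-ω (‖w‖ / (1 - ‖w‖)) : ℝ) : ℂ) * Complex.I) *
        Complex.exp (((ω (‖w‖ / (1 - ‖w‖)) : ℝ) : ℂ) * Complex.I)) := by ring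
    _ = w := by rw [h2, h3]; ring

theorem continuous_hh (hω : Continuous ω) : Continuous (hh ω) := by
  have h1 : Continuous fun ζ : ℂ => (1 / (1 + ‖ζ‖) : ℝ) :=
    continuous_const.div (by fun_prop) fun ζ => by positivity
  have h2 : Continuous fun ζ : ℂ => ω ‖ζ‖ := hω.comp continuous_norm
  show Continuous fun ζ : ℂ => ((1 / (1 + ‖ζ‖) : ℝ) : ℂ) *
    (ζ * Complex.exp (((ω ‖ζ‖ : ℝ) : ℂ) * Complex.I))
  exact (Complex.continuous_ofReal.comp h1).mul (continuous_id.mul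
    (Complex.continuous_exp.comp ((Complex.continuous_ofReal.comp h2).mul continuous_const)))

theorem continuousAt_kk (hω : Continuous ω) {w : ℂ} (hw : ‖w‖ < 1) : ContinuousAt (kk ω) w := by
  have h0 : 1 - ‖w‖ ≠ 0 := by
    have : 0 < 1 - ‖w‖ := by linarith
    exact this.ne'
  have h1 : ContinuousAt (fun w : ℂ => (1 / (1 - ‖w‖) : ℝ)) w :=
    continuousAt_const.div (by fun_prop) h0
  have h2 : ContinuousAt (fun w : ℂ => -ω (‖w‖ / (1 - ‖w‖))) w := by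
    apply ContinuousAt.neg
    apply hω.continuousAt.comp
    exact ContinuousAt.div (by fun_prop) (by fun_prop) h0
  show ContinuousAt (fun w : ℂ => ((1 / (1 - ‖w‖) : ℝ) : ℂ) *
    (w * Complex.exp (((-ω (‖w‖ / (1 - ‖w‖)) : ℝ) : ℂ) * Complex.I))) w
  exact (Complex.continuous_ofReal.continuousAt.comp h1).mul (continuousAt_id.mul
    (Complex.continuous_exp.continuousAt.comp
      ((Complex.continuous_ofReal.continuousAt.comp h2).mul continuousAt_const)))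

/-- The height function over the disc. -/
noncomputable def Phi (ω : ℝ → ℝ) (w : ℂ) : ℝ := max (1 - ‖w‖) 0 * ff (kk ω w).re

theorem Phi_nonneg (w : ℂ) : 0 ≤ Phi ω w :=
  mul_nonneg (le_max_right _ _) (ff_nonneg _)

theorem Phi_le (w : ℂ) : Phi ω w ≤ max (1 - ‖w‖) 0 :=
  mul_le_of_le_one_right (le_max_right _ _) (ff_le_one _)

theorem Phi_of_lt {w : ℂ} (hw : ‖w‖ < 1) : Phi ω w = (1 - ‖w‖) * ff (kk ω w).re := by
  rw [Phi, max_eq_left (by linarith)]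

theorem Phi_le_of_le {w : ℂ} (hw : ‖w‖ ≤ 1) : Phi ω w ≤ 1 - ‖w‖ := by
  have := Phi_le (ω := ω) w
  rwa [max_eq_left (by linarith)] at this

theorem continuous_Phi (hω : Continuous ω) : Continuous (Phi ω) := by
  rw [continuous_iff_continuousAt]
  intro w
  by_cases hw : ‖w‖ < 1
  · apply ContinuousAt.mul
    · fun_prop
    · apply continuous_ff.continuousAt.comp
      exact Complex.continuous_re.continuousAt.comp (continuousAt_kk hω hw)
  · push Not at hw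
    have h0 : Phi ω w = 0 := by
      rw [Phi, max_eq_right (by linarith), zero_mul]
    rw [ContinuousAt, h0]
    have h1 : Filter.Tendsto (fun w : ℂ => max (1 - ‖w‖) 0) (𝓝 w) (𝓝 0) := by
      have h2 : Continuous fun w : ℂ => max (1 - ‖w‖) 0 := by fun_prop
      have h3 := h2.tendsto w
      rwa [max_eq_right (by linarith)] at h3
    exact squeeze_zero (fun w => Phi_nonneg w) (fun w => Phi_le w) h1

/-- The compactified space. -/
def Xt (ω : ℝ → ℝ) : Set (ℂ × ℝ) := {p | ‖p.1‖ ≤ 1 ∧ 0 ≤ p.2 ∧ p.2 ≤ Phi ω p.1}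

/-- The boundary. -/
def Zt (ω : ℝ → ℝ) : Set ↥(Xt ω) := {p | p.1.2 = 1 - ‖p.1.1‖}

theorem Xt_le {p : ℂ × ℝ} (hp : p ∈ Xt ω) : p.2 ≤ 1 - ‖p.1‖ := hp.2.2.trans (Phi_le_of_le hp.1)

theorem isCompact_Xt (hω : Continuous ω) : IsCompact (Xt ω) := by
  have hcl : IsClosed (Xt ω) := by
    apply IsClosed.inter
    · exact isClosed_le (f := fun p : ℂ × ℝ => ‖p.1‖) (g := fun _ => 1) (by fun_prop)
        (by fun_prop)
    · apply IsClosed.inter
      · exact isClosed_le (f := fun _ : ℂ × ℝ => (0 : ℝ)) (g := fun p => p.2) (by fun_prop)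
          (by fun_prop)
      · exact isClosed_le (f := fun p : ℂ × ℝ => p.2) (g := fun p => Phi ω p.1) (by fun_prop)
          ((continuous_Phi hω).comp continuous_fst)
  refine ((isCompact_closedBall (0 : ℂ) 1).prod (isCompact_Icc (a := (0 : ℝ)) (b := 1))).of_isClosed_subset
    hcl ?_
  intro p hp
  refine ⟨by simpa using hp.1, hp.2.1, (Xt_le hp).trans ?_⟩
  linarith [norm_nonneg p.1]

theorem retract_Xt (hω : Continuous ω) : IsEuclideanRetract ↥(Xt ω) := by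
  have hc : Continuous fun p : ℂ × ℝ => ((1 / max 1 ‖p.1‖ : ℝ) : ℂ) * p.1 := by
    apply Continuous.mul _ continuous_fst
    apply Complex.continuous_ofReal.comp
    exact continuous_const.div (by fun_prop) fun p => by positivity
  refine isEuclideanRetract_of_retract (Xt ω) (isCompact_Xt hω)
    (fun p => (((1 / max 1 ‖p.1‖ : ℝ) : ℂ) * p.1,
      max 0 (min p.2 (Phi ω (((1 / max 1 ‖p.1‖ : ℝ) : ℂ) * p.1))))) ?_ ?_ ?_
  · apply hc.prodMk
    exact continuous_const.max (continuous_snd.min ((continuous_Phi hω).comp hc))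
  · intro p
    refine ⟨?_, le_max_left _ _, max_le (Phi_nonneg _) (min_le_right _ _)⟩
    show ‖((1 / max 1 ‖p.1‖ : ℝ) : ℂ) * p.1‖ ≤ 1
    have h1 : 0 < max 1 ‖p.1‖ := by positivity
    rw [norm_mul, Complex.norm_real, Real.norm_of_nonneg (by positivity), one_div,
      inv_mul_le_iff₀ h1, mul_one]
    exact le_max_right _ _
  · intro p hp
    have h1 : max 1 ‖p.1‖ = 1 := max_eq_left hp.1
    have h2 : ((1 / max 1 ‖p.1‖ : ℝ) : ℂ) * p.1 = p.1 := by
      rw [h1]; simp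
    rw [h2, min_eq_left hp.2.2, max_eq_right hp.2.1]

/-- The deformation. -/
theorem isZSet_Zt (hω : Continuous ω) : IsZSet (Zt ω) := by
  have : CompactSpace ↥(Xt ω) := isCompact_iff_compactSpace.1 (isCompact_Xt hω)
  have hcl : IsClosed (Zt ω) := isClosed_eq (by fun_prop) (by fun_prop)
  let H₁ : ↥(Xt ω) × I → ℂ := fun q => ((1 - (q.2 : ℝ) : ℝ) : ℂ) * q.1.1.1
  have hH₁ : Continuous H₁ := by
    show Continuous fun q : ↥(Xt ω) × I => ((1 - (q.2 : ℝ) : ℝ) : ℂ) * q.1.1.1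
    fun_prop
  have hn : ∀ q, ‖H₁ q‖ = (1 - (q.2 : ℝ)) * ‖q.1.1.1‖ := by
    intro q
    show ‖((1 - (q.2 : ℝ) : ℝ) : ℂ) * q.1.1.1‖ = _
    rw [norm_mul, Complex.norm_real, Real.norm_of_nonneg (by linarith [q.2.2.2])]
  have hn1 : ∀ q, ‖H₁ q‖ ≤ 1 - (q.2 : ℝ) := by
    intro q
    rw [hn]
    exact mul_le_of_le_one_right (by linarith [q.2.2.2]) q.1.2.1
  let H : ↥(Xt ω) × I → ↥(Xt ω) := fun q =>
    ⟨(H₁ q, (1 - (q.2 : ℝ)) * min q.1.1.2 (Phi ω (H₁ q))), by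
      have h1 : 0 ≤ 1 - (q.2 : ℝ) := by linarith [q.2.2.2]
      have h2 : 0 ≤ min q.1.1.2 (Phi ω (H₁ q)) := le_min q.1.2.2.1 (Phi_nonneg _)
      refine ⟨?_, mul_nonneg h1 h2, ?_⟩
      · exact (hn1 q).trans (by linarith [q.2.2.1])
      · exact (mul_le_of_le_one_left h2 (by linarith [q.2.2.1])).trans (min_le_right _ _)⟩
  refine isZSet_of_deformation (Zt ω) hcl.isCompact H ?_ ?_ ?_
  · apply Continuous.subtype_mk
    apply hH₁.prodMk
    have h3 := (continuous_Phi hω).comp hH₁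
    have h4 : Continuous fun q : ↥(Xt ω) × I => min q.1.1.2 (Phi ω (H₁ q)) :=
      Continuous.min (by fun_prop) h3
    exact Continuous.mul (by fun_prop) h4
  · intro x
    apply Subtype.ext
    have h1 : H₁ (x, 0) = x.1.1 := by simp [H₁]
    show (H₁ (x, 0), (1 - ((0 : I) : ℝ)) * min x.1.2 (Phi ω (H₁ (x, 0)))) = x.1
    rw [h1, min_eq_left x.2.2.2]
    simp
  · intro x t ht
    have ht' : (0 : ℝ) < t := ht
    show ¬ ((1 - (t : ℝ)) * min x.1.2 (Phi ω (H₁ (x, t))) = 1 - ‖H₁ (x, t)‖)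
    have h1 := hn1 (x, t)
    have h2 : ‖H₁ (x, t)‖ < 1 := lt_of_le_of_lt h1 (by simpa using ht')
    have h3 : min x.1.2 (Phi ω (H₁ (x, t))) ≤ 1 - ‖H₁ (x, t)‖ :=
      (min_le_right _ _).trans (Phi_le_of_le h2.le)
    have h4 : 0 ≤ 1 - (t : ℝ) := by linarith [t.2.2]
    intro h5
    have h6 : (1 - (t : ℝ)) * min x.1.2 (Phi ω (H₁ (x, t)))
        ≤ (1 - (t : ℝ)) * (1 - ‖H₁ (x, t)‖) := mul_le_mul_of_nonneg_left h3 h4
    have h7 : 0 < (t : ℝ) * (1 - ‖H₁ (x, t)‖) := mul_pos ht' (by linarith)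
    linarith

theorem norm_lt_of_notMem {p : ↥(Xt ω)} (hp : p ∈ (Zt ω)ᶜ) : ‖p.1.1‖ < 1 := by
  rcases p.2.1.lt_or_eq with h | h
  · exact h
  · exfalso
    apply hp
    have h1 := Xt_le p.2
    have h2 := p.2.2.1
    show p.1.2 = 1 - ‖p.1.1‖
    linarith

/-! ### The homeomorphism -/

/-- The vertical coordinate of the plane. -/
noncomputable def eta (y : Y) : ℝ :=
  y.2 * (1 + |bc y.1|) / (1 + |bc y.1| + ec y.1)

/-- The planar coordinate. -/
noncomputable def zeta (y : Y) : ℂ := ((bc (y.1 : V) : ℝ) : ℂ) + ((eta y : ℝ) : ℂ) * Complex.I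

theorem zeta_re (y : Y) : (zeta y).re = bc y.1 := by simp [zeta]
theorem zeta_im (y : Y) : (zeta y).im = eta y := by simp [zeta]

theorem denom_pos (y : Y) : 0 < 1 + |bc y.1| + ec y.1 := by
  have := ec_nonneg y.1.2
  positivity

theorem continuous_eta : Continuous eta := by
  have h1 : Continuous fun y : Y => bc y.1 :=
    continuous_bc.comp (continuous_subtype_val.comp continuous_fst)
  have h2 : Continuous fun y : Y => ec y.1 :=
    continuous_ec.comp (continuous_subtype_val.comp continuous_fst)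
  show Continuous fun y : Y => y.2 * (1 + |bc y.1|) / (1 + |bc y.1| + ec y.1)
  exact Continuous.div (by fun_prop) (by fun_prop) fun y => (denom_pos y).ne'

theorem continuous_zeta : Continuous zeta := by
  have h1 : Continuous fun y : Y => bc y.1 :=
    continuous_bc.comp (continuous_subtype_val.comp continuous_fst)
  have h2 := continuous_eta
  show Continuous fun y : Y => ((bc (y.1 : V) : ℝ) : ℂ) + ((eta y : ℝ) : ℂ) * Complex.I
  fun_prop

/-- The embedding into the product. -/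
noncomputable def Pm (ω : ℝ → ℝ) (y : Y) : ℂ × ℝ :=
  (hh ω (zeta y), Real.tanh (ec y.1) / (1 + ‖zeta y‖))

theorem continuous_Pm (hω : Continuous ω) : Continuous (Pm ω) := by
  apply ((continuous_hh hω).comp continuous_zeta).prodMk
  apply Continuous.div
  · exact continuous_tanh.comp (continuous_ec.comp (continuous_subtype_val.comp continuous_fst))
  · have := continuous_zeta
    fun_prop
  · intro y
    positivity

theorem Pm_mem (y : Y) : Pm ω y ∈ Xt ω := by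
  have h1 : 0 ≤ Real.tanh (ec y.1) := by
    rw [Real.tanh_eq_sinh_div_cosh]
    exact div_nonneg (Real.sinh_nonneg_iff.2 (ec_nonneg y.1.2)) (Real.cosh_pos _).le
  refine ⟨(norm_hh_lt _).le, ?_, ?_⟩
  · show 0 ≤ Real.tanh (ec y.1) / (1 + ‖zeta y‖)
    positivity
  · show Real.tanh (ec y.1) / (1 + ‖zeta y‖) ≤ Phi ω (hh ω (zeta y))
    rw [Phi_of_lt (norm_hh_lt _), one_sub_norm_hh, kk_hh, zeta_re, div_eq_mul_one_div, mul_comm]
    exact mul_le_mul_of_nonneg_left (tanh_ec_le y.1.2) (by positivity)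

theorem Pm_notMem (y : Y) : (⟨Pm ω y, Pm_mem y⟩ : ↥(Xt ω)) ∈ (Zt ω)ᶜ := by
  intro h
  have h1 : Real.tanh (ec y.1) / (1 + ‖zeta y‖) = 1 - ‖hh ω (zeta y)‖ := h
  rw [one_sub_norm_hh] at h1
  have h2 : 0 < 1 + ‖zeta y‖ := by positivity
  have h3 := Real.tanh_lt_one (ec y.1)
  field_simp at h1
  linarith

/-- The relative height. -/
noncomputable def th (p : ℂ × ℝ) : ℝ := p.2 / (1 - ‖p.1‖)

/-- The inverse height coordinate. -/
noncomputable def eh (p : ℂ × ℝ) : ℝ := Real.arsinh (th p / √(1 - th p ^ 2))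

theorem th_mem {p : ↥(Xt ω)} (hp : p ∈ (Zt ω)ᶜ) : 0 ≤ th p.1 ∧ th p.1 < 1 := by
  have h1 := norm_lt_of_notMem hp
  have h2 : 0 < 1 - ‖p.1.1‖ := by linarith
  constructor
  · exact div_nonneg p.2.2.1 h2.le
  · rw [th, div_lt_one h2]
    exact lt_of_le_of_ne (Xt_le p.2) hp

theorem th_le {p : ↥(Xt ω)} (hp : p ∈ (Zt ω)ᶜ) : th p.1 ≤ ff (kk ω p.1.1).re := by
  have h1 := norm_lt_of_notMem hp
  have h2 : 0 < 1 - ‖p.1.1‖ := by linarith
  rw [th, div_le_iff₀ h2, mul_comm, ← Phi_of_lt h1]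
  exact p.2.2.2

theorem tanh_eh {p : ℂ × ℝ} (h0 : 0 ≤ th p) (h1 : th p < 1) : Real.tanh (eh p) = th p := by
  have h2 : eh p = Real.artanh (th p) := by
    rw [eh, ← Real.sinh_artanh ⟨by linarith, h1⟩, Real.arsinh_sinh]
  rw [h2, Real.tanh_artanh ⟨by linarith, h1⟩]

theorem eh_nonneg {p : ℂ × ℝ} (h0 : 0 ≤ th p) : 0 ≤ eh p := by
  rw [eh, Real.arsinh_nonneg_iff]
  positivity

/-- The inverse map. -/
noncomputable def Qm (ω : ℝ → ℝ) (p : ↥((Zt ω)ᶜ)) : Y :=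
  (⟨Lam (kk ω p.1.1.1).re (eh p.1.1),
      Lam_mem_Th (eh_nonneg (th_mem p.2).1) (by
        rw [tanh_eh (th_mem p.2).1 (th_mem p.2).2]; exact th_le p.2)⟩,
    (kk ω p.1.1.1).im * (1 + |(kk ω p.1.1.1).re| + eh p.1.1) / (1 + |(kk ω p.1.1.1).re|))

theorem Qm_fst (p : ↥((Zt ω)ᶜ)) : ((Qm ω p).1 : V) = Lam (kk ω p.1.1.1).re (eh p.1.1) := rfl

theorem Qm_snd (p : ↥((Zt ω)ᶜ)) : (Qm ω p).2 =
    (kk ω p.1.1.1).im * (1 + |(kk ω p.1.1.1).re| + eh p.1.1) / (1 + |(kk ω p.1.1.1).re|) := rfl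

/-- The direct map. -/
noncomputable def Pn (ω : ℝ → ℝ) (y : Y) : ↥((Zt ω)ᶜ) := ⟨⟨Pm ω y, Pm_mem y⟩, Pm_notMem y⟩

theorem Pn_coe (y : Y) : (Pn ω y).1.1 = Pm ω y := rfl

theorem Pm_fst (y : Y) : (Pm ω y).1 = hh ω (zeta y) := rfl

theorem Pm_snd (y : Y) : (Pm ω y).2 = Real.tanh (ec y.1) / (1 + ‖zeta y‖) := rfl

theorem th_Pm (y : Y) : th (Pm ω y) = Real.tanh (ec y.1) := by
  rw [th, Pm_fst, Pm_snd, one_sub_norm_hh]
  have : 0 < 1 + ‖zeta y‖ := by positivity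
  field_simp

theorem eh_Pm (y : Y) : eh (Pm ω y) = ec y.1 := by
  have h3 := th_mem (Pm_notMem (ω := ω) y)
  have h4 := tanh_eh h3.1 h3.2
  rw [show th (⟨Pm ω y, Pm_mem y⟩ : ↥(Xt ω)).1 = Real.tanh (ec y.1) from th_Pm y] at h4
  exact Real.tanh_injective h4

theorem kk_Pm (y : Y) : kk ω (Pm ω y).1 = zeta y := by
  rw [Pm_fst, kk_hh]

theorem Qm_Pn (y : Y) : Qm ω (Pn ω y) = y := by
  apply Prod.ext
  · apply Subtype.ext
    rw [Qm_fst, Pn_coe, kk_Pm, eh_Pm, zeta_re]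
    exact Lam_coord y.1.2
  · rw [Qm_snd, Pn_coe, kk_Pm, eh_Pm, zeta_re, zeta_im, eta]
    have h6 := denom_pos y
    have h7 : 0 < 1 + |bc y.1| := by positivity
    field_simp

theorem Pm_of_eq {p : ℂ × ℝ} (hp : ‖p.1‖ < 1) (h0 : 0 ≤ th p) (h1 : th p < 1) (q : Y)
    (hq1 : (q.1 : V) = Lam (kk ω p.1).re (eh p))
    (hq2 : q.2 = (kk ω p.1).im * (1 + |(kk ω p.1).re| + eh p) / (1 + |(kk ω p.1).re|)) :
    Pm ω q = p := by
  have hA : 0 < 1 + |(kk ω p.1).re| := by positivity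
  have hE := eh_nonneg h0
  have hb : bc q.1 = (kk ω p.1).re := by rw [hq1, bc_Lam]
  have he : ec q.1 = eh p := by rw [hq1, ec_Lam]
  have heta : eta q = (kk ω p.1).im := by
    rw [eta, hb, he, hq2]
    have : 0 < 1 + |(kk ω p.1).re| + eh p := by positivity
    field_simp
  have hzeta : zeta q = kk ω p.1 := by
    apply Complex.ext
    · rw [zeta_re, hb]
    · rw [zeta_im, heta]
  apply Prod.ext
  · rw [Pm_fst, hzeta, hh_kk hp]
  · rw [Pm_snd, hzeta, he, tanh_eh h0 h1, one_add_norm_kk hp, th]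
    have h2 : 0 < 1 - ‖p.1‖ := by linarith
    field_simp

theorem Pn_Qm (p : ↥((Zt ω)ᶜ)) : Pn ω (Qm ω p) = p := by
  have h0 := th_mem p.2
  apply Subtype.ext
  apply Subtype.ext
  rw [Pn_coe]
  exact Pm_of_eq (norm_lt_of_notMem p.2) h0.1 h0.2 _ (Qm_fst p) (Qm_snd p)

theorem continuous_Pn (hω : Continuous ω) : Continuous (Pn ω) :=
  Continuous.subtype_mk (Continuous.subtype_mk (continuous_Pm hω) _) _

theorem continuous_Qm (hω : Continuous ω) : Continuous (Qm ω) := by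
  have hv : Continuous fun p : ↥((Zt ω)ᶜ) => (p.1.1 : ℂ × ℝ) :=
    continuous_subtype_val.comp continuous_subtype_val
  have hk : Continuous fun p : ↥((Zt ω)ᶜ) => kk ω p.1.1.1 := by
    rw [continuous_iff_continuousAt]
    intro p
    have h1 := continuousAt_kk hω (norm_lt_of_notMem p.2)
    exact ContinuousAt.comp (f := fun p : ↥((Zt ω)ᶜ) => p.1.1.1) h1
      (continuous_fst.comp hv).continuousAt
  have hth : Continuous fun p : ↥((Zt ω)ᶜ) => th p.1.1 := by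
    apply Continuous.div
    · exact continuous_snd.comp hv
    · exact continuous_const.sub (continuous_norm.comp (continuous_fst.comp hv))
    · intro p
      have h1 := norm_lt_of_notMem p.2
      have h2 : 0 < 1 - ‖p.1.1.1‖ := by linarith
      exact h2.ne'
  have heh : Continuous fun p : ↥((Zt ω)ᶜ) => eh p.1.1 := by
    apply Real.continuous_arsinh.comp
    apply hth.div (continuous_const.sub (hth.pow 2)).sqrt
    intro p
    have h0 := th_mem p.2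
    have : 0 < 1 - th p.1.1 ^ 2 := by nlinarith
    exact (Real.sqrt_pos.2 this).ne'
  have hre : Continuous fun p : ↥((Zt ω)ᶜ) => (kk ω p.1.1.1).re := Complex.continuous_re.comp hk
  have him : Continuous fun p : ↥((Zt ω)ᶜ) => (kk ω p.1.1.1).im := Complex.continuous_im.comp hk
  have h1 : Continuous fun p : ↥((Zt ω)ᶜ) => ((Qm ω p).1 : V) := by
    have h2 := continuous_Lam.comp (hre.prodMk heh)
    exact h2.congr fun p => (Qm_fst p).symm
  have h2 : Continuous fun p : ↥((Zt ω)ᶜ) => (Qm ω p).1 := Topology.IsInducing.subtypeVal.continuous_iff.2 h1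
  have h3 : Continuous fun p : ↥((Zt ω)ᶜ) => (Qm ω p).2 := by
    have h4 : Continuous fun p : ↥((Zt ω)ᶜ) =>
        (kk ω p.1.1.1).im * (1 + |(kk ω p.1.1.1).re| + eh p.1.1) / (1 + |(kk ω p.1.1.1).re|) :=
      Continuous.div (him.mul ((continuous_const.add hre.abs).add heh))
        (continuous_const.add hre.abs) fun p => by positivity
    exact h4.congr fun p => (Qm_snd p).symm
  exact h2.prodMk h3

/-- The homeomorphism from `Y` onto the complement of the boundary. -/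
noncomputable def Psi (hω : Continuous ω) : Y ≃ₜ ↥((Zt ω)ᶜ) where
  toFun := Pn ω
  invFun := Qm ω
  left_inv := Qm_Pn
  right_inv := Pn_Qm
  continuous_toFun := continuous_Pn hω
  continuous_invFun := continuous_Qm hω

end ZBdry.Tw
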