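import Mathlib

/-!
# A reflection group of rank three and its Tits cone

Three reflections in a Lorentzian space of dimension three, with bilinear form
`B(N_i, N_i) = 1`, `B(N_i, N_j) = -2`.
-/

open Set Topology

namespace ZBdry.Cox

/-- The ambient vector space, with coordinates in the basis of roots. -/
abbrev V := Fin 3 → ℝ

/-- The sum of coordinates. -/
def sm (x : V) : ℝ := x 0 + x 1 + x 2

/-- The dual coordinate `B(x, N_i)`. -/
def dc (i : Fin 3) (x : V) : ℝ := 3 * x i - 2 * sm x

/-- The bilinear form. -/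
def B (x y : V) : ℝ := 3 * (x 0 * y 0 + x 1 * y 1 + x 2 * y 2) - 2 * (sm x * sm y)

/-- The reflections. -/
def r (i : Fin 3) (x : V) : V := fun j => if j = i then x i - 2 * dc i x else x j

theorem r_self (i : Fin 3) (x : V) : r i x i = x i - 2 * dc i x := by simp [r]

theorem r_ne {i j : Fin 3} (h : j ≠ i) (x : V) : r i x j = x j := by simp [r, h]

theorem sm_r (i : Fin 3) (x : V) : sm (r i x) = sm x - 2 * dc i x := by
  fin_cases i <;> simp [sm, r, dc] <;> ring

theorem dc_r_self (i : Fin 3) (x : V) : dc i (r i x) = -dc i x := by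
  simp only [dc, sm_r, r_self]; ring

theorem dc_r_ne {i j : Fin 3} (h : j ≠ i) (x : V) : dc j (r i x) = dc j x + 4 * dc i x := by
  have h1 : dc j (r i x) = 3 * r i x j - 2 * sm (r i x) := rfl
  rw [h1, sm_r, r_ne h]
  have h2 : dc j x = 3 * x j - 2 * sm x := rfl
  rw [h2]; ring

theorem r_r (i : Fin 3) (x : V) : r i (r i x) = x := by
  funext j
  by_cases h : j = i
  · subst h
    rw [r_self, dc_r_self, r_self]; ring
  · rw [r_ne h, r_ne h]

theorem B_r (i : Fin 3) (x y : V) : B (r i x) (r i y) = B x y := by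
  fin_cases i <;> simp [B, sm, r, dc] <;> ring

theorem continuous_r (i : Fin 3) : Continuous (r i) := by
  apply continuous_pi
  intro j
  by_cases h : j = i
  · subst h
    have : (fun x : V => r j x j) = fun x => x j - 2 * (3 * x j - 2 * (x 0 + x 1 + x 2)) := by
      funext x
      rw [r_self]; rfl
    rw [this]
    fun_prop
  · have : (fun x : V => r i x j) = fun x => x j := by
      funext x
      rw [r_ne h]
    rw [this]
    fun_prop

theorem continuous_sm : Continuous sm := by
  show Continuous fun x : V => x 0 + x 1 + x 2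
  fun_prop

theorem continuous_dc (i : Fin 3) : Continuous (dc i) := by
  show Continuous fun x : V => 3 * x i - 2 * (x 0 + x 1 + x 2)
  fun_prop

theorem continuous_B : Continuous fun p : V × V => B p.1 p.2 := by
  show Continuous fun p : V × V => 3 * (p.1 0 * p.2 0 + p.1 1 * p.2 1 + p.1 2 * p.2 2)
    - 2 * ((p.1 0 + p.1 1 + p.1 2) * (p.2 0 + p.2 1 + p.2 2))
  fun_prop

/-- The reflections as linear automorphisms. -/
def rho (i : Fin 3) : V ≃ₗ[ℝ] V where
  toFun := r i
  map_add' x y := by
    funext j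
    fin_cases i <;> fin_cases j <;> simp [r, dc, sm] <;> ring
  map_smul' c x := by
    funext j
    fin_cases i <;> fin_cases j <;> simp [r, dc, sm] <;> ring
  invFun := r i
  left_inv := r_r i
  right_inv := r_r i

/-- The action of words: the first letter acts first. -/
def act : List (Fin 3) → V → V
  | [], x => x
  | i :: l, x => act l (r i x)

@[simp] theorem act_nil (x : V) : act [] x = x := rfl
@[simp] theorem act_cons (i : Fin 3) (l : List (Fin 3)) (x : V) :
    act (i :: l) x = act l (r i x) := rfl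

theorem act_append (l l' : List (Fin 3)) (x : V) : act (l ++ l') x = act l' (act l x) := by
  induction l generalizing x with
  | nil => rfl
  | cons i l ih => exact ih (r i x)

theorem act_reverse (l : List (Fin 3)) (x : V) : act l.reverse (act l x) = x := by
  induction l generalizing x with
  | nil => rfl
  | cons i l ih =>
    rw [List.reverse_cons, act_append]
    show act [i] (act l.reverse (act l (r i x))) = x
    rw [ih]
    exact r_r i x

theorem act_reverse' (l : List (Fin 3)) (x : V) : act l (act l.reverse x) = x := by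
  have := act_reverse l.reverse x
  rwa [List.reverse_reverse] at this

theorem B_act (l : List (Fin 3)) (x y : V) : B (act l x) (act l y) = B x y := by
  induction l generalizing x y with
  | nil => rfl
  | cons i l ih => rw [act_cons, act_cons, ih, B_r]

/-- The linear automorphism attached to a word. -/
def el : List (Fin 3) → V ≃ₗ[ℝ] V
  | [] => 1
  | i :: l => el l * rho i

theorem el_apply (l : List (Fin 3)) (x : V) : el l x = act l x := by
  induction l generalizing x with
  | nil => rfl
  | cons i l ih =>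
    show el l (r i x) = _
    rw [ih]; rfl

theorem el_append (l l' : List (Fin 3)) : el (l ++ l') = el l' * el l := by
  apply LinearEquiv.ext
  intro x
  rw [el_apply, act_append]
  show _ = el l' (el l x)
  rw [el_apply, el_apply]

theorem el_reverse (l : List (Fin 3)) : el l.reverse = (el l)⁻¹ := by
  rw [eq_inv_iff_mul_eq_one]
  apply LinearEquiv.ext
  intro x
  show el l.reverse (el l x) = x
  rw [el_apply, el_apply, act_reverse]

/-- Every word is equivalent to a reduced one of the same parity. -/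
theorem exists_reduced (l : List (Fin 3)) :
    ∃ l' : List (Fin 3), l'.IsChain (· ≠ ·) ∧ (∀ x, act l' x = act l x) ∧
      (Even l'.length ↔ Even l.length) := by
  induction l with
  | nil => exact ⟨[], List.isChain_nil, fun _ => rfl, Iff.rfl⟩
  | cons i l ih =>
    obtain ⟨l', hc, ha, hp⟩ := ih
    match l', hc, ha, hp with
    | [], _, ha, hp =>
      refine ⟨[i], List.isChain_singleton i, fun x => ha _, ?_⟩
      simp only [List.length_cons, Nat.even_add_one]
      rw [← hp]
    | j :: l₂, hc, ha, hp =>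
      by_cases hij : i = j
      · subst hij
        refine ⟨l₂, hc.tail, fun x => ?_, ?_⟩
        · rw [act_cons, ← ha, act_cons, r_r]
        · simp only [List.length_cons, Nat.even_add_one] at hp ⊢
          tauto
      · refine ⟨i :: j :: l₂, List.isChain_cons_cons.2 ⟨hij, hc⟩, fun x => ha _, ?_⟩
        simp only [List.length_cons, Nat.even_add_one] at hp ⊢
        tauto

/-- The closed cone over the fundamental domain. -/
def K : Set V := {x | (∀ i, 0 ≤ x i) ∧ ∀ i, dc i x ≤ 0}

/-- The (closed) Tits cone. -/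
def T : Set V := {x | ∀ l i, 0 ≤ act l x i}

/-- Ping-pong invariant. -/
def PP (i : Fin 3) (x : V) : Prop :=
  (∀ k, 0 ≤ x k) ∧ 0 ≤ dc i x ∧ ∀ j, j ≠ i → dc j x ≤ -dc i x

theorem PP_of_K {x : V} (hx : x ∈ K) (i : Fin 3) : PP i (r i x) := by
  refine ⟨fun k => ?_, ?_, fun j hj => ?_⟩
  · by_cases h : k = i
    · subst h
      rw [r_self]
      have h1 := hx.1 k
      have h2 := hx.2 k
      linarith
    · rw [r_ne h]
      exact hx.1 k
  · rw [dc_r_self]
    have := hx.2 i
    linarith
  · rw [dc_r_self, dc_r_ne hj]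
    have h1 := hx.2 i
    have h2 := hx.2 j
    linarith

theorem PP_step {i j : Fin 3} (hij : i ≠ j) {x : V} (hx : PP i x) :
    PP j (r j x) ∧ dc i x ≤ dc j (r j x) := by
  have h1 := hx.2.1
  have h2 := hx.2.2 j hij.symm
  refine ⟨⟨fun k => ?_, ?_, fun k hk => ?_⟩, ?_⟩
  · by_cases h : k = j
    · subst h
      rw [r_self]
      have := hx.1 k
      linarith
    · rw [r_ne h]
      exact hx.1 k
  · rw [dc_r_self]
    linarith
  · rw [dc_r_self, dc_r_ne hk]
    by_cases h : k = i
    · subst h
      linarith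
    · have := hx.2.2 k h
      linarith
  · rw [dc_r_self]
    linarith

theorem PP_act {i : Fin 3} {l : List (Fin 3)} (hl : (i :: l).IsChain (· ≠ ·)) {x : V}
    (hx : PP i x) : ∃ k, PP k (act l x) ∧ dc i x ≤ dc k (act l x) := by
  induction l generalizing i x with
  | nil => exact ⟨i, hx, le_rfl⟩
  | cons j l ih =>
    rw [List.isChain_cons_cons] at hl
    obtain ⟨h1, h2⟩ := PP_step hl.1 hx
    obtain ⟨k, hk, hk'⟩ := ih hl.2 h1
    exact ⟨k, hk, h2.trans hk'⟩

theorem K_subset_T : K ⊆ T := by
  intro x hx l i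
  obtain ⟨l', hc, ha, -⟩ := exists_reduced l
  rw [← ha]
  match l', hc with
  | [], _ => exact hx.1 i
  | j :: l₂, hc =>
    obtain ⟨k, hk, -⟩ := PP_act hc (PP_of_K hx j)
    exact hk.1 i

theorem dc_neg_of_K {x : V} (hx : x ∈ K) (hB : B x x < 0) {i j : Fin 3} (hij : i ≠ j) :
    dc j x + 4 * dc i x < 0 := by
  have h0 := hx.1 0
  have h1 := hx.1 1
  have h2 := hx.1 2
  have a0 := hx.2 0
  have a1 := hx.2 1
  have a2 := hx.2 2
  have ai := hx.2 i
  have aj := hx.2 j
  by_contra hcon
  push Not at hcon
  have hi : dc i x = 0 := by linarith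
  have hj : dc j x = 0 := by linarith
  have hpos : 0 < sm x := by
    by_contra h
    push Not at h
    simp only [sm] at h
    have e0 : x 0 = 0 := by linarith
    have e1 : x 1 = 0 := by linarith
    have e2 : x 2 = 0 := by linarith
    simp [B, sm, e0, e1, e2] at hB
  simp only [dc] at hi hj
  simp only [sm] at hi hj hpos
  fin_cases i <;> fin_cases j <;> simp at hij hi hj <;> linarith

/-- Reduced words of length at least two move the timelike part of `K` off `K`. -/
theorem act_notMem_K {x : V} (hx : x ∈ K) (hB : B x x < 0) {l : List (Fin 3)}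
    (hl : l.IsChain (· ≠ ·)) (h2 : 2 ≤ l.length) : act l x ∉ K := by
  match l, hl, h2 with
  | i :: j :: l, hl, _ =>
    rw [List.isChain_cons_cons] at hl
    obtain ⟨hij, hl⟩ := hl
    have h1 : PP i (r i x) := PP_of_K hx i
    obtain ⟨h3, -⟩ := PP_step hij h1
    obtain ⟨k, hk, hk'⟩ := PP_act hl h3
    intro hK
    have h4 : 0 < dc j (r j (r i x)) := by
      rw [dc_r_self, dc_r_ne hij.symm]
      have := dc_neg_of_K hx hB hij
      linarith
    have h5 := hK.2 k
    rw [act_cons, act_cons] at h5
    linarith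

theorem sm_sq_ge (x : V) : -B x x ≤ sm x ^ 2 := by
  simp only [B, sm]
  nlinarith [sq_nonneg (x 0 - x 1), sq_nonneg (x 1 - x 2), sq_nonneg (x 0 - x 2)]

/-- The descent. -/
theorem descent (A : Set V) (hA : ∀ x ∈ A, (∀ k, 0 ≤ x k) ∧ ∀ j, 0 < dc j x → r j x ∈ A)
    (n : ℕ) : ∀ x ∈ A, sm x ^ 2 < 4 ^ n * (-B x x) → ∃ l : List (Fin 3), l.length ≤ n ∧
      act l x ∈ K := by
  induction n with
  | zero =>
    intro x _ h
    have := sm_sq_ge x
    simp only [pow_zero, one_mul] at h
    linarith
  | succ n ih =>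
    intro x hx h
    by_cases hK : x ∈ K
    · exact ⟨[], Nat.zero_le _, hK⟩
    obtain ⟨j, hj⟩ : ∃ j, 0 < dc j x := by
      by_contra hcon
      push Not at hcon
      exact hK ⟨(hA x hx).1, hcon⟩
    have hx' := (hA x hx).2 j hj
    by_cases hK' : r j x ∈ K
    · exact ⟨[j], by simp, hK'⟩
    obtain ⟨k, hk⟩ : ∃ k, 0 < dc k (r j x) := by
      by_contra hcon
      push Not at hcon
      exact hK' ⟨(hA _ hx').1, hcon⟩
    have hkj : k ≠ j := by
      rintro rfl
      rw [dc_r_self] at hk
      linarith
    have hsm : sm (r j x) ≤ sm x / 2 := by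
      rw [dc_r_ne hkj] at hk
      rw [sm_r]
      have h0 := (hA x hx).1 0
      have h1 := (hA x hx).1 1
      have h2 := (hA x hx).1 2
      simp only [dc, sm] at hk hj ⊢
      fin_cases j <;> fin_cases k <;> simp at hkj hk hj ⊢ <;> linarith
    have hsm0 : 0 ≤ sm (r j x) := by
      have h0 := (hA _ hx').1 0
      have h1 := (hA _ hx').1 1
      have h2 := (hA _ hx').1 2
      simp only [sm]
      linarith
    obtain ⟨l, hl, hlK⟩ := ih (r j x) hx' (by
      rw [B_r]
      have h3 : sm (r j x) ^ 2 ≤ (sm x / 2) ^ 2 := pow_le_pow_left₀ hsm0 hsm 2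
      have h4 : (4 : ℝ) ^ (n + 1) = 4 * 4 ^ n := by ring
      rw [h4] at h
      have h5 : (sm x / 2) ^ 2 = sm x ^ 2 / 4 := by ring
      rw [h5] at h3
      linarith)
    exact ⟨j :: l, by simp; omega, hlK⟩

theorem exists_pow_bound (x : V) (hB : B x x < 0) : ∃ n : ℕ, sm x ^ 2 < 4 ^ n * (-B x x) := by
  obtain ⟨n, hn⟩ := pow_unbounded_of_one_lt (sm x ^ 2 / (-B x x)) (by norm_num : (1 : ℝ) < 4)
  exact ⟨n, by rwa [div_lt_iff₀ (by linarith)] at hn⟩

theorem T_nonneg {x : V} (hx : x ∈ T) (i : Fin 3) : 0 ≤ x i := hx [] i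

theorem T_r {x : V} (hx : x ∈ T) (i : Fin 3) : r i x ∈ T := fun l => hx (i :: l)

theorem T_act {x : V} (hx : x ∈ T) (l : List (Fin 3)) : act l x ∈ T := by
  induction l generalizing x with
  | nil => exact hx
  | cons i l ih => exact ih (T_r hx i)

theorem mem_T_of_act {x : V} {l : List (Fin 3)} (h : act l x ∈ T) : x ∈ T := by
  have := T_act h l.reverse
  rwa [act_reverse] at this

theorem T_descent {x : V} (hx : x ∈ T) {n : ℕ} (hn : sm x ^ 2 < 4 ^ n * (-B x x)) :
    ∃ l : List (Fin 3), l.length ≤ n ∧ act l x ∈ K :=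
  descent T (fun _ hy => ⟨T_nonneg hy, fun j _ => T_r hy j⟩) n x hx hn

/-- The timelike points of the faces belong to the Tits cone. -/
theorem face_subset_T {x : V} (h0 : ∀ i, 0 ≤ x i) {j : Fin 3} (hj : x j = 0) (hB : B x x < 0) :
    x ∈ T := by
  obtain ⟨n, hn⟩ := exists_pow_bound x hB
  obtain ⟨l, -, hl⟩ := descent {y | (∀ i, 0 ≤ y i) ∧ y j = 0 ∧ B y y < 0} (by
    rintro y ⟨hy0, hyj, hyB⟩
    refine ⟨hy0, fun i hi => ?_⟩
    have h0 := hy0 0
    have h1 := hy0 1
    have h2 := hy0 2
    have hij : i ≠ j := by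
      rintro rfl
      simp only [dc, sm, hyj] at hi
      linarith
    refine ⟨fun k => ?_, ?_, ?_⟩
    · by_cases hk : k = i
      · subst hk
        rw [r_self]
        have hyk : 0 < y k := by
          simp only [dc, sm] at hi
          linarith [hy0 k]
        have : 0 < y k * (y k - 2 * dc k y) := by
          simp only [B, sm] at hyB
          simp only [dc, sm]
          fin_cases j <;> fin_cases k <;> simp at hij hyj ⊢ <;> rw [hyj] at hyB ⊢ <;>
            nlinarith [sq_nonneg (y 0), sq_nonneg (y 1), sq_nonneg (y 2)]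
        exact le_of_lt ((mul_pos_iff_of_pos_left hyk).1 this)
      · rw [r_ne hk]
        exact hy0 k
    · rw [r_ne hij.symm, hyj]
    · show B (r i y) (r i y) < 0
      rw [B_r]
      exact hyB) n x ⟨h0, hj, hB⟩ hn
  exact mem_T_of_act (K_subset_T hl)

theorem act_linear (l : List (Fin 3)) (c d : ℝ) (x y : V) :
    act l (c • x + d • y) = c • act l x + d • act l y := by
  rw [← el_apply, ← el_apply, ← el_apply, map_add, map_smul, map_smul]

theorem continuous_act (l : List (Fin 3)) : Continuous (act l) := by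
  induction l with
  | nil => exact continuous_id
  | cons i l ih => exact ih.comp (continuous_r i)

theorem T_comb {x y : V} (hx : x ∈ T) (hy : y ∈ T) {c d : ℝ} (hc : 0 ≤ c) (hd : 0 ≤ d) :
    c • x + d • y ∈ T := by
  intro l i
  rw [act_linear]
  have h1 := hx l i
  have h2 := hy l i
  show 0 ≤ c * act l x i + d * act l y i
  positivity

theorem T_smul {x : V} (hx : x ∈ T) {c : ℝ} (hc : 0 ≤ c) : c • x ∈ T := by
  have := T_comb hx hx hc le_rfl
  simpa using this

theorem isClosed_T : IsClosed T := by
  have : T = ⋂ l : List (Fin 3), ⋂ i : Fin 3, {x | 0 ≤ act l x i} := by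
    ext x
    simp [T]
  rw [this]
  refine isClosed_iInter fun l => isClosed_iInter fun i => ?_
  exact isClosed_le continuous_const ((continuous_apply i).comp (continuous_act l))

/-- The fundamental domain is bounded. -/
theorem K_bound {x : V} (hx : x ∈ K) (hB : B x x = -1) (i : Fin 3) : x i ≤ 2 := by
  have h0 := hx.1 0
  have h1 := hx.1 1
  have h2 := hx.1 2
  have a0 := hx.2 0
  have a1 := hx.2 1
  have a2 := hx.2 2
  have hsum : x 0 * dc 0 x + x 1 * dc 1 x + x 2 * dc 2 x = -1 := by
    rw [← hB]; simp only [dc, B, sm]; ring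
  have e0 := mul_nonpos_of_nonneg_of_nonpos h0 a0
  have e1 := mul_nonpos_of_nonneg_of_nonpos h1 a1
  have e2 := mul_nonpos_of_nonneg_of_nonpos h2 a2
  have key : ∀ p q t : ℝ, 0 ≤ p → 0 ≤ q → 0 ≤ t → q ≤ p → t ≤ p → p ≤ 2 * (q + t) →
      q * (2 * p + 2 * t - q) ≤ 1 → t * (2 * p + 2 * q - t) ≤ 1 → p ≤ 2 := by
    intro p q t hp hq ht hqp htp h1 h2 h3
    have h4 : p * q ≤ 1 := by nlinarith [mul_nonneg hq (sub_nonneg.2 hqp), mul_nonneg hq ht]
    have h5 : p * t ≤ 1 := by nlinarith [mul_nonneg ht (sub_nonneg.2 htp), mul_nonneg hq ht]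
    nlinarith [mul_le_mul_of_nonneg_left h1 hp]
  simp only [dc, sm] at hsum a0 a1 a2 e0 e1 e2
  have f0 : x 0 * (2 * x 1 + 2 * x 2 - x 0) ≤ 1 := by linarith
  have f1 : x 1 * (2 * x 0 + 2 * x 2 - x 1) ≤ 1 := by linarith
  have f2 : x 2 * (2 * x 0 + 2 * x 1 - x 2) ≤ 1 := by linarith
  have hall : x 0 ≤ 2 ∧ x 1 ≤ 2 ∧ x 2 ≤ 2 := by
    rcases le_total (x 0) (x 1) with h01 | h01 <;> rcases le_total (x 1) (x 2) with h12 | h12 <;>
      rcases le_total (x 0) (x 2) with h02 | h02
    · have := key (x 2) (x 0) (x 1) h2 h0 h1 h02 h12 (by linarith) (by linarith) (by linarith)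
      exact ⟨by linarith, by linarith, this⟩
    · have := key (x 2) (x 0) (x 1) h2 h0 h1 (by linarith) h12 (by linarith) (by linarith)
        (by linarith)
      exact ⟨by linarith, by linarith, this⟩
    · have := key (x 1) (x 0) (x 2) h1 h0 h2 h01 h12 (by linarith) (by linarith) (by linarith)
      exact ⟨by linarith, this, by linarith⟩
    · have := key (x 1) (x 0) (x 2) h1 h0 h2 h01 h12 (by linarith) (by linarith) (by linarith)
      exact ⟨by linarith, this, by linarith⟩
    · have := key (x 2) (x 0) (x 1) h2 h0 h1 h02 h12 (by linarith) (by linarith) (by linarith)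
      exact ⟨by linarith, by linarith, this⟩
    · have := key (x 0) (x 1) (x 2) h0 h1 h2 h01 h02 (by linarith) (by linarith) (by linarith)
      exact ⟨this, by linarith, by linarith⟩
    · have := key (x 0) (x 1) (x 2) h0 h1 h2 h01 (by linarith) (by linarith) (by linarith)
        (by linarith)
      exact ⟨this, by linarith, by linarith⟩
    · have := key (x 0) (x 1) (x 2) h0 h1 h2 h01 h02 (by linarith) (by linarith) (by linarith)
      exact ⟨this, by linarith, by linarith⟩
  fin_cases i
  · exact hall.1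
  · exact hall.2.1
  · exact hall.2.2

end ZBdry.Cox
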