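import Mathlib

/-!
# Z-structures on groups and cell-like equivalence: definitions

All the notions are stated exactly as in the problem.
-/

open Set Topology

namespace ZBdry

/-- A Euclidean retract: a compact space which embeds in some Euclidean space as a retract
of that Euclidean space. -/
def IsEuclideanRetract (X : Type*) [TopologicalSpace X] : Prop :=
  CompactSpace X ∧ ∃ (n : ℕ) (i : X → EuclideanSpace ℝ (Fin n))
    (r : EuclideanSpace ℝ (Fin n) → X), IsEmbedding i ∧ Continuous r ∧ ∀ x, r (i x) = x

/-- The continuous map `f` is a homotopy equivalence. -/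
def IsHEquiv {A B : Type*} [TopologicalSpace A] [TopologicalSpace B] (f : C(A, B)) : Prop :=
  ∃ g : C(B, A), (g.comp f).Homotopic (ContinuousMap.id A) ∧
    (f.comp g).Homotopic (ContinuousMap.id B)

/-- A compact subset `Z` of `X` is a Z-set if for every open `U` the inclusion of `U \ Z` into `U`
is a homotopy equivalence. -/
def IsZSet {X : Type*} [TopologicalSpace X] (Z : Set X) : Prop :=
  IsCompact Z ∧ ∀ U : Set X, IsOpen U →
    IsHEquiv (ContinuousMap.inclusion (sdiff_subset : U \ Z ⊆ U))

/-- `(X, Z)` is a Z-structure on the group `G`: `X` is a Euclidean retract, `Z` is a Z-set in `X`,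
the complement of `Z` carries a covering space action of `G` with compact quotient, and the
translates of every compact subset of the complement form a null sequence in `X`. -/
structure IsZStructure (G : Type*) [Group G] (X : Type*) [MetricSpace X] (Z : Set X) : Prop where
  /-- `X` is a Euclidean retract -/
  retract : IsEuclideanRetract X
  /-- `Z` is a Z-set in `X` -/
  zset : IsZSet Z
  /-- the cocompact covering space action with null translates -/
  action : ∃ _ : MulAction G ↥(Zᶜ),
    (∀ g : G, Continuous fun x : ↥(Zᶜ) => g • x) ∧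
    (∀ x : ↥(Zᶜ), ∃ U : Set ↥(Zᶜ), IsOpen U ∧ x ∈ U ∧
      ∀ g : G, g ≠ 1 → Disjoint ((fun y => g • y) '' U) U) ∧
    CompactSpace (MulAction.orbitRel.Quotient G ↥(Zᶜ)) ∧
    ∀ K : Set ↥(Zᶜ), IsCompact K → ∀ ε : ℝ, 0 < ε →
      {g : G | ε < Metric.diam ((fun y : ↥(Zᶜ) => ((g • y : ↥(Zᶜ)) : X)) '' K)}.Finite

/-- `Z` is a Z-structure boundary of `G`. -/
def IsZBoundary (G : Type*) [Group G] (Z : Type*) [TopologicalSpace Z] : Prop :=
  ∃ (X : Type) (_ : MetricSpace X) (S : Set X), IsZStructure G X S ∧ Nonempty (Z ≃ₜ ↥S)

/-- A subset of a Euclidean space which is a retract of an open neighbourhood. -/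
def IsENR {n : ℕ} (P : Set (EuclideanSpace ℝ (Fin n))) : Prop :=
  ∃ O : Set (EuclideanSpace ℝ (Fin n)), IsOpen O ∧ P ⊆ O ∧
    ∃ r : EuclideanSpace ℝ (Fin n) → EuclideanSpace ℝ (Fin n),
      ContinuousOn r O ∧ MapsTo r O P ∧ ∀ x ∈ P, r x = x

/-- Trivial shape, for a compact metrizable space `A`: `A` is nonempty and every continuous map
from `A` to a Euclidean neighbourhood retract is null-homotopic. For compact metrizable spaces this
is the standard characterisation of being shape equivalent to a point; the implication needed to
read the main theorem is that a space shape equivalent to a point has this property, which for the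
neighbourhood form of the definition (Borsuk) is `ZBdry.HasTrivialShape.of_contractible_nhds`. -/
def HasTrivialShape (A : Type*) [TopologicalSpace A] : Prop :=
  Nonempty A ∧ ∀ (n : ℕ) (P : Set (EuclideanSpace ℝ (Fin n))), IsENR P →
    ∀ f : C(A, ↥P), f.Nullhomotopic

/-- A continuous map is cell-like if every point preimage is compact metrizable and of
trivial shape. -/
def IsCellLike {W Z : Type*} [TopologicalSpace W] [TopologicalSpace Z] (f : W → Z) : Prop :=
  Continuous f ∧ ∀ z : Z, CompactSpace ↥(f ⁻¹' {z}) ∧ TopologicalSpace.MetrizableSpace ↥(f ⁻¹' {z}) ∧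
    HasTrivialShape ↥(f ⁻¹' {z})

/-- `Z₁` and `Z₂` are cell-like equivalent: there are a compact Hausdorff space `W` and cell-like
maps from `W` to `Z₁` and from `W` to `Z₂`. (Some compactness of `W`, or properness of the maps, is
part of the usual meaning: with `W` discrete the notion would only compare cardinalities.) -/
def CellLikeEquivalent.{u} (Z₁ Z₂ : Type*) [TopologicalSpace Z₁] [TopologicalSpace Z₂] : Prop :=
  ∃ (W : Type u) (_ : TopologicalSpace W) (_ : CompactSpace W) (_ : T2Space W)
    (f₁ : W → Z₁) (f₂ : W → Z₂), IsCellLike f₁ ∧ IsCellLike f₂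

end ZBdry
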