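import Pool.Agent.Helper81.CECox

/-!
# The group and its action
-/

open Set Topology

namespace ZBdry.Cox

/-- The group of even words in the reflections. -/
def G0 : Subgroup (V ≃ₗ[ℝ] V) where
  carrier := {g | ∃ l : List (Fin 3), Even l.length ∧ el l = g}
  one_mem' := ⟨[], by simp, rfl⟩
  mul_mem' := by
    rintro _ _ ⟨l, hl, rfl⟩ ⟨l', hl', rfl⟩
    exact ⟨l' ++ l, by rw [List.length_append]; exact hl'.add hl, el_append l' l⟩
  inv_mem' := by
    rintro _ ⟨l, hl, rfl⟩
    exact ⟨l.reverse, by rwa [List.length_reverse], el_reverse l⟩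

/-- The hyperboloid part of the Tits cone. -/
def Th : Set V := {x | x ∈ T ∧ B x x = -1}

theorem isClosed_Th : IsClosed Th := by
  apply isClosed_T.inter
  have h : Continuous fun x : V => B x x :=
    continuous_B.comp (continuous_id.prodMk continuous_id)
  exact isClosed_eq h continuous_const

theorem act_mem_Th {x : V} (hx : x ∈ Th) (l : List (Fin 3)) : act l x ∈ Th :=
  ⟨T_act hx.1 l, by rw [B_act]; exact hx.2⟩

theorem G0_mem_Th (g : G0) {x : V} (hx : x ∈ Th) : (g : V ≃ₗ[ℝ] V) x ∈ Th := by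
  obtain ⟨_, l, -, rfl⟩ := g
  show el l x ∈ Th
  rw [el_apply]
  exact act_mem_Th hx l

theorem G0_B (g : G0) (x y : V) : B ((g : V ≃ₗ[ℝ] V) x) ((g : V ≃ₗ[ℝ] V) y) = B x y := by
  obtain ⟨_, l, -, rfl⟩ := g
  show B (el l x) (el l y) = _
  rw [el_apply, el_apply, B_act]

instance : MulAction G0 ↥Th where
  smul g x := ⟨(g : V ≃ₗ[ℝ] V) x, G0_mem_Th g x.2⟩
  one_smul _ := rfl
  mul_smul _ _ _ := rfl

theorem smul_coe (g : G0) (x : ↥Th) : ((g • x : ↥Th) : V) = (g : V ≃ₗ[ℝ] V) x := rfl

instance : ContinuousConstSMul G0 ↥Th where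
  continuous_const_smul g := by
    obtain ⟨_, l, -, rfl⟩ := g
    apply Continuous.subtype_mk
    have h1 : (fun x : ↥Th => (el l) (x : V)) = fun x : ↥Th => act l x := by
      funext x
      rw [el_apply]
    show Continuous fun x : ↥Th => (el l) (x : V)
    rw [h1]
    exact (continuous_act l).comp continuous_subtype_val

/-- The group `G0 × ℤ`. -/
abbrev G := ↥G0 × Multiplicative ℤ

/-- The space on which it acts. -/
abbrev Y := ↥Th × ℝ

instance : MulAction G Y where
  smul g y := (g.1 • y.1, y.2 + (Multiplicative.toAdd g.2 : ℤ))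
  one_smul y := by
    apply Prod.ext
    · exact one_smul _ _
    · show y.2 + ((Multiplicative.toAdd (1 : Multiplicative ℤ) : ℤ) : ℝ) = y.2
      simp
  mul_smul g h y := by
    apply Prod.ext
    · exact mul_smul _ _ _
    · show y.2 + ((Multiplicative.toAdd (g.2 * h.2) : ℤ) : ℝ) =
        y.2 + (Multiplicative.toAdd h.2 : ℤ) + (Multiplicative.toAdd g.2 : ℤ)
      rw [toAdd_mul]
      push_cast
      ring

theorem smul_fst (g : G) (y : Y) : (g • y).1 = g.1 • y.1 := rfl

theorem smul_snd (g : G) (y : Y) : (g • y).2 = y.2 + (Multiplicative.toAdd g.2 : ℤ) := rfl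

instance : ContinuousConstSMul G Y where
  continuous_const_smul g := by
    show Continuous fun y : Y => (g.1 • y.1, y.2 + ((Multiplicative.toAdd g.2 : ℤ) : ℝ))
    apply Continuous.prodMk
    · exact (continuous_const_smul g.1).comp continuous_fst
    · fun_prop

/-- The compact fundamental domain. -/
def K0 : Set V := {x | x ∈ K ∧ B x x = -1}

theorem K0_subset_Th : K0 ⊆ Th := fun _ hx => ⟨K_subset_T hx.1, hx.2⟩

theorem isCompact_K0 : IsCompact K0 := by
  have hcl : IsClosed K0 := by
    have h1 : IsClosed {x : V | ∀ i, 0 ≤ x i} := by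
      simp only [ofPred_forall]
      exact isClosed_iInter fun i => isClosed_le continuous_const (continuous_apply i)
    have h2 : IsClosed {x : V | ∀ i, dc i x ≤ 0} := by
      simp only [ofPred_forall]
      exact isClosed_iInter fun i => isClosed_le (continuous_dc i) continuous_const
    have h3 : IsClosed {x : V | B x x = -1} :=
      isClosed_eq (continuous_B.comp (continuous_id.prodMk continuous_id)) continuous_const
    exact (h1.inter h2).inter h3
  have hb : K0 ⊆ Icc (0 : V) (fun _ => 2) := by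
    intro x hx
    exact ⟨fun i => hx.1.1 i, fun i => K_bound hx.1 hx.2 i⟩
  exact isCompact_Icc.of_isClosed_subset hcl hb

/-- The translates of the domain cover. -/
theorem exists_smul_mem (x : ↥Th) : ∃ g : G0, ((g • x : ↥Th) : V) ∈ K0 ∪ act [0] '' K0 := by
  have hB : B (x : V) x < 0 := by
    rw [x.2.2]; norm_num
  obtain ⟨n, hn⟩ := exists_pow_bound (x : V) hB
  obtain ⟨l, -, hl⟩ := T_descent x.2.1 hn
  have hB' : B (act l x) (act l x) = -1 := by rw [B_act]; exact x.2.2
  by_cases he : Even l.length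
  · refine ⟨⟨el l, l, he, rfl⟩, Or.inl ?_⟩
    show el l (x : V) ∈ K0
    rw [el_apply]
    exact ⟨hl, hB'⟩
  · refine ⟨⟨el (l ++ [0]), l ++ [0], ?_, rfl⟩, Or.inr ?_⟩
    · rw [List.length_append]
      simp only [List.length_singleton, Nat.even_add_one]
      exact he
    · show el (l ++ [0]) (x : V) ∈ _
      rw [el_apply, act_append]
      exact ⟨act l x, ⟨hl, hB'⟩, rfl⟩

/-- Freeness. -/
theorem free_G0 (g : G0) (x : ↥Th) (h : g • x = x) : g = 1 := by
  have hB : B (x : V) x < 0 := by
    rw [x.2.2]; norm_num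
  obtain ⟨n, hn⟩ := exists_pow_bound (x : V) hB
  obtain ⟨l, -, hl⟩ := T_descent x.2.1 hn
  obtain ⟨g, m, hm, rfl⟩ := g
  have hx : act m (x : V) = x := by
    have := congrArg Subtype.val h
    rw [smul_coe] at this
    rw [← el_apply]
    exact this
  -- the conjugate word
  let w := l.reverse ++ (m ++ l)
  have hw : act w (act l x) = act l x := by
    simp only [w]
    rw [act_append, act_append, act_reverse, hx]
  have hwe : Even w.length := by
    simp only [w, List.length_append, List.length_reverse]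
    have : l.length + (m.length + l.length) = m.length + 2 * l.length := by ring
    rw [this]
    exact hm.add (even_two_mul _)
  obtain ⟨w', hc, ha, hp⟩ := exists_reduced w
  have hlen : w'.length < 2 := by
    by_contra hcon
    push Not at hcon
    apply act_notMem_K hl (by rw [B_act]; exact hB) hc hcon
    rw [ha, hw]
    exact hl
  have hw'e : Even w'.length := hp.2 hwe
  have hnil : w' = [] := by
    match w', hlen, hw'e with
    | [], _, _ => rfl
    | [_], _, h => simp at h
  apply Subtype.ext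
  show el m = 1
  apply LinearEquiv.ext
  intro y
  rw [el_apply]
  show act m y = y
  have h2 : act w (act l y) = act l y := by
    rw [← ha, hnil]; rfl
  simp only [w] at h2
  rw [act_append, act_append, act_reverse] at h2
  have h3 := congrArg (act l.reverse) h2
  rwa [act_reverse, act_reverse] at h3

/-- Only finitely many group elements move a point of bounded height to a point of
bounded height. -/
theorem finite_G0 (R : ℝ) :
    {g : G0 | ∃ x : ↥Th, sm (x : V) ≤ R ∧ sm ((g • x : ↥Th) : V) ≤ R}.Finite := by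
  obtain ⟨n, hn⟩ := pow_unbounded_of_one_lt (R ^ 2) (by norm_num : (1 : ℝ) < 4)
  let F : List (Fin 3) × List (Fin 3) × List (Fin 3) → (V ≃ₗ[ℝ] V) :=
    fun p => (el p.1)⁻¹ * el p.2.1 * el p.2.2
  have hfin : (F '' ({l | l.length ≤ n} ×ˢ ({l | l.length ≤ 1} ×ˢ {l | l.length ≤ n}))).Finite :=
    ((List.finite_length_le _ _).prod ((List.finite_length_le _ _).prod
      (List.finite_length_le _ _))).image F
  refine (hfin.preimage (Subtype.val_injective (p := (· ∈ G0))).injOn).subset ?_
  rintro g ⟨x, hxR, hgR⟩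
  have hword : ∀ y : ↥Th, sm (y : V) ≤ R → ∃ l : List (Fin 3), l.length ≤ n ∧ act l (y : V) ∈ K := by
    intro y hy
    apply T_descent y.2.1
    rw [y.2.2]
    have h0 : 0 ≤ sm (y : V) := by
      have h0 := T_nonneg y.2.1 0
      have h1 := T_nonneg y.2.1 1
      have h2 := T_nonneg y.2.1 2
      simp only [sm]
      linarith
    have h1 : sm (y : V) ^ 2 ≤ R ^ 2 := pow_le_pow_left₀ h0 hy 2
    linarith
  obtain ⟨l₁, hl₁, hk₁⟩ := hword x hxR
  obtain ⟨l₂, hl₂, hk₂⟩ := hword (g • x) hgR
  obtain ⟨g, m, hm, rfl⟩ := g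
  rw [smul_coe] at hk₂
  have hgx : (el m : V ≃ₗ[ℝ] V) (x : V) = act m x := el_apply m x
  have hk₂' : act l₂ (act m x) ∈ K := by rw [← hgx]; exact hk₂
  let w := l₁.reverse ++ (m ++ l₂)
  obtain ⟨w', hc, ha, -⟩ := exists_reduced w
  have hw : act w (act l₁ x) = act l₂ (act m x) := by
    simp only [w]
    rw [act_append, act_append, act_reverse]
  have hB : B (act l₁ (x : V)) (act l₁ x) < 0 := by
    rw [B_act, x.2.2]; norm_num
  have hlen : w'.length < 2 := by
    by_contra hcon
    push Not at hcon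
    apply act_notMem_K hk₁ hB hc hcon
    rw [ha, hw]
    exact hk₂'
  refine ⟨(l₂, w', l₁), ⟨hl₂, by show w'.length ≤ 1; omega, hl₁⟩, ?_⟩
  show (el l₂)⁻¹ * el w' * el l₁ = el m
  have h1 : el w' = el w := by
    apply LinearEquiv.ext
    intro y
    rw [el_apply, el_apply, ha]
  rw [h1]
  simp only [w]
  rw [el_append, el_append, el_reverse]
  group

instance : ProperlyDiscontinuousSMul G Y where
  finite_disjoint_inter_image := by
    intro C L hC hL
    have hcs : Continuous fun y : Y => sm (y.1 : V) :=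
      continuous_sm.comp (continuous_subtype_val.comp continuous_fst)
    obtain ⟨R₁, hR₁⟩ := (hC.bddAbove_image hcs.continuousOn)
    obtain ⟨R₂, hR₂⟩ := (hL.bddAbove_image hcs.continuousOn)
    have hct : Continuous fun y : Y => |y.2| := by fun_prop
    obtain ⟨R₃, hR₃⟩ := (hC.bddAbove_image hct.continuousOn)
    obtain ⟨R₄, hR₄⟩ := (hL.bddAbove_image hct.continuousOn)
    have hfinZ : {n : Multiplicative ℤ | |((Multiplicative.toAdd n : ℤ) : ℝ)| ≤ R₃ + R₄}.Finite := by
      have h1 : {n : ℤ | |(n : ℝ)| ≤ R₃ + R₄}.Finite := by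
        apply (Set.finite_Icc (-⌈R₃ + R₄⌉) ⌈R₃ + R₄⌉).subset
        intro n hn
        have hn' : |(n : ℝ)| ≤ R₃ + R₄ := hn
        have h2 := Int.le_ceil (R₃ + R₄)
        rw [abs_le] at hn'
        constructor
        · have : (-⌈R₃ + R₄⌉ : ℝ) ≤ n := by linarith
          exact_mod_cast this
        · have : (n : ℝ) ≤ ⌈R₃ + R₄⌉ := by linarith
          exact_mod_cast this
      exact h1.preimage (Multiplicative.toAdd.injective.injOn)
    refine ((finite_G0 (max R₁ R₂)).prod hfinZ).subset ?_
    rintro ⟨g, n⟩ ⟨_, ⟨y, hy, rfl⟩, hyL⟩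
    refine ⟨⟨y.1, ?_, ?_⟩, ?_⟩
    · exact (hR₁ ⟨y, hy, rfl⟩).trans (le_max_left _ _)
    · exact (hR₂ ⟨_, hyL, rfl⟩).trans (le_max_right _ _)
    · have h1 := hR₃ ⟨y, hy, rfl⟩
      have h2 := hR₄ ⟨_, hyL, rfl⟩
      simp only [smul_snd] at h1 h2
      show |((Multiplicative.toAdd n : ℤ) : ℝ)| ≤ R₃ + R₄
      rw [abs_le] at *
      constructor <;> linarith

theorem free_G (g : G) (y : Y) (h : g • y = y) : g = 1 := by
  have h1 := congrArg Prod.fst h
  have h2 := congrArg Prod.snd h
  rw [smul_fst] at h1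
  rw [smul_snd] at h2
  apply Prod.ext
  · exact free_G0 _ _ h1
  · have h3 : ((Multiplicative.toAdd g.2 : ℤ) : ℝ) = 0 := by linarith
    have h4 : (Multiplicative.toAdd g.2 : ℤ) = 0 := by exact_mod_cast h3
    exact Multiplicative.toAdd.injective h4

instance : LocallyCompactSpace ↥Th := isClosed_Th.locallyCompactSpace

/-- Covering space action. -/
theorem covering (y : Y) : ∃ U : Set Y, IsOpen U ∧ y ∈ U ∧
    ∀ g : G, g ≠ 1 → Disjoint ((fun z => g • z) '' U) U := by
  obtain ⟨U, hU, h⟩ := ProperlyDiscontinuousSMul.exists_nhds_disjoint_image G y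
  refine ⟨interior U, isOpen_interior, mem_interior_iff_mem_nhds.2 hU, fun g hg => ?_⟩
  exact (h g (fun h' => hg (free_G g y h'))).mono (image_mono interior_subset) interior_subset

/-- A compact set whose translates cover. -/
theorem cocompact : ∃ C : Set Y, IsCompact C ∧ ∀ y : Y, ∃ g : G, g • y ∈ C := by
  let C₁ : Set V := K0 ∪ act [0] '' K0
  have hC₁ : IsCompact C₁ := isCompact_K0.union (isCompact_K0.image (continuous_act _))
  have hC₁T : C₁ ⊆ Th := by
    rintro x (hx | ⟨z, hz, rfl⟩)
    · exact K0_subset_Th hx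
    · exact act_mem_Th (K0_subset_Th hz) _
  let C₂ : Set ↥Th := Subtype.val ⁻¹' C₁
  have hC₂ : IsCompact C₂ := isClosed_Th.isClosedEmbedding_subtypeVal.isCompact_preimage hC₁
  refine ⟨C₂ ×ˢ Icc 0 1, hC₂.prod isCompact_Icc, fun y => ?_⟩
  obtain ⟨g, hg⟩ := exists_smul_mem y.1
  refine ⟨(g, Multiplicative.ofAdd (-⌊y.2⌋)), hg, ?_⟩
  rw [smul_snd]
  have h1 := Int.floor_le y.2
  have h2 := Int.lt_floor_add_one y.2
  simp only [toAdd_ofAdd]
  push_cast
  constructor <;> linarith

end ZBdry.Cox
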