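import Pool.Agent.Helper81.CEDefs

/-!
# A connectivity obstruction to cell-like equivalence
-/

open Set Topology Module
open scoped unitInterval

namespace ZBdry

variable {A : Type*} [TopologicalSpace A]

/-- Null-homotopy of maps into neighbourhood retracts of finite-dimensional normed spaces. -/
theorem HasTrivialShape.null (h : HasTrivialShape A) {E : Type*} [NormedAddCommGroup E]
    [NormedSpace ℝ E] [FiniteDimensional ℝ E] {P O : Set E} (hO : IsOpen O) (hPO : P ⊆ O)
    {r : E → E} (hr : ContinuousOn r O) (hm : MapsTo r O P) (hid : ∀ x ∈ P, r x = x)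
    (f : C(A, ↥P)) : f.Nullhomotopic := by
  let L : E ≃L[ℝ] EuclideanSpace ℝ (Fin (finrank ℝ E)) := toEuclidean
  let P' : Set (EuclideanSpace ℝ (Fin (finrank ℝ E))) := L.symm ⁻¹' P
  let O' : Set (EuclideanSpace ℝ (Fin (finrank ℝ E))) := L.symm ⁻¹' O
  have hENR : IsENR P' := by
    refine ⟨O', hO.preimage L.symm.continuous, fun x hx => hPO hx, fun x => L (r (L.symm x)),
      ?_, ?_, ?_⟩
    · exact L.continuous.comp_continuousOn (hr.comp L.symm.continuous.continuousOn fun x hx => hx)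
    · intro x hx
      show L.symm (L (r (L.symm x))) ∈ P
      rw [ContinuousLinearEquiv.symm_apply_apply]
      exact hm hx
    · intro x hx
      have : r (L.symm x) = L.symm x := hid _ hx
      simp only [this, ContinuousLinearEquiv.apply_symm_apply]
  let u : C(↥P, ↥P') := ⟨fun x => ⟨L x.1, by
    show L.symm (L x.1) ∈ P
    rw [ContinuousLinearEquiv.symm_apply_apply]; exact x.2⟩, by fun_prop⟩
  let v : C(↥P', ↥P) := ⟨fun x => ⟨L.symm x.1, x.2⟩, by fun_prop⟩
  have h1 := (h.2 _ P' hENR (u.comp f)).comp_right v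
  have h2 : v.comp (u.comp f) = f := by
    ext a
    simp [u, v]
  rwa [h2] at h1

/-- A space of trivial shape is connected. -/
theorem HasTrivialShape.preconnected (h : HasTrivialShape A) : PreconnectedSpace A := by
  classical
  rw [preconnectedSpace_iff_clopen]
  intro s hs
  let P : Set ℝ := {0, 1}
  let O : Set ℝ := {x | x ≠ 1 / 2}
  let r : ℝ → ℝ := fun x => if x < 1 / 2 then 0 else 1
  have hO : IsOpen O := isOpen_ne
  have hPO : P ⊆ O := by
    rintro x (rfl | rfl) <;> simp [O]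
  have hr : ContinuousOn r O := by
    intro x hx
    apply ContinuousAt.continuousWithinAt
    rcases lt_or_gt_of_ne hx with hx | hx
    · have : r =ᶠ[𝓝 x] fun _ => 0 := by
        filter_upwards [Iio_mem_nhds hx] with y hy
        simp only [r, if_pos (show y < 1 / 2 from hy)]
      exact (continuousAt_const).congr this.symm
    · have : r =ᶠ[𝓝 x] fun _ => 1 := by
        filter_upwards [Ioi_mem_nhds hx] with y hy
        simp only [r, if_neg (not_lt.2 (le_of_lt (show 1 / 2 < y from hy)))]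
      exact (continuousAt_const).congr this.symm
  have hm : MapsTo r O P := by
    intro x _
    simp only [r]
    split_ifs <;> simp [P]
  have hid : ∀ x ∈ P, r x = x := by
    rintro x (rfl | rfl)
    · simp [r]
    · simp only [r]; norm_num
  let f : C(A, ↥P) := ⟨fun a => if a ∈ s then ⟨1, by simp [P]⟩ else ⟨0, by simp [P]⟩, by
    apply continuous_const.if _ continuous_const
    intro a ha
    exfalso
    have : frontier {a | a ∈ s} = ∅ := hs.frontier_eq
    rw [this] at ha
    exact ha⟩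
  obtain ⟨p, ⟨H⟩⟩ := h.null hO hPO hr hm hid f
  have key : ∀ a, f a = p := by
    intro a
    have hcont : Continuous fun t : I => ((H (t, a) : ↥P) : ℝ) := by fun_prop
    have h0 : ((H (0, a) : ↥P) : ℝ) = (f a : ℝ) := by simp
    have h1 : ((H (1, a) : ↥P) : ℝ) = (p : ℝ) := by simp
    have hno : ∀ t : I, ((H (t, a) : ↥P) : ℝ) ≠ 1 / 2 := fun t => hPO (H (t, a)).2
    apply Subtype.ext
    by_contra hne
    have hf : (f a : ℝ) = 0 ∨ (f a : ℝ) = 1 := (f a).2
    have hp : (p : ℝ) = 0 ∨ (p : ℝ) = 1 := p.2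
    have : (1 / 2 : ℝ) ∈ range fun t : I => ((H (t, a) : ↥P) : ℝ) := by
      rcases hf with hf | hf <;> rcases hp with hp | hp
      · exact absurd (hf.trans hp.symm) hne
      · apply mem_range_of_exists_le_of_exists_ge hcont
        · exact ⟨0, by rw [h0, hf]; norm_num⟩
        · exact ⟨1, by rw [h1, hp]; norm_num⟩
      · apply mem_range_of_exists_le_of_exists_ge hcont
        · exact ⟨1, by rw [h1, hp]; norm_num⟩
        · exact ⟨0, by rw [h0, hf]; norm_num⟩
      · exact absurd (hf.trans hp.symm) hne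
    obtain ⟨t, ht⟩ := this
    exact hno t ht
  by_cases hp : (p : ℝ) = 1
  · right
    ext a
    simp only [mem_univ, iff_true]
    by_contra ha
    have := congrArg Subtype.val (key a)
    simp [f, ha] at this
    rw [← this] at hp
    norm_num at hp
  · left
    ext a
    simp only [mem_empty_iff_false, iff_false]
    intro ha
    have := congrArg Subtype.val (key a)
    simp [f, ha] at this
    exact hp this.symm

/-- A circle-valued map on a space of trivial shape lifts to the line. -/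
theorem HasTrivialShape.lift (h : HasTrivialShape A) (g : C(A, Circle)) :
    ∃ l : C(A, ℝ), ∀ a, Circle.exp (l a) = g a := by
  let P : Set ℂ := {z | ‖z‖ = 1}
  let O : Set ℂ := {z | z ≠ 0}
  let r : ℂ → ℂ := fun z => ((‖z‖⁻¹ : ℝ) : ℂ) * z
  have hO : IsOpen O := isOpen_ne
  have hPO : P ⊆ O := by
    intro z hz h0
    rw [h0] at hz
    simp [P] at hz
  have hr : ContinuousOn r O := by
    apply ContinuousOn.mul _ continuousOn_id
    apply Complex.continuous_ofReal.comp_continuousOn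
    exact continuous_norm.continuousOn.inv₀ fun z hz => norm_ne_zero_iff.2 hz
  have hm : MapsTo r O P := by
    intro z hz
    have hz' : ‖z‖ ≠ 0 := norm_ne_zero_iff.2 hz
    show ‖((‖z‖⁻¹ : ℝ) : ℂ) * z‖ = 1
    rw [norm_mul, Complex.norm_real, norm_inv, norm_norm, inv_mul_cancel₀ hz']
  have hid : ∀ x ∈ P, r x = x := by
    intro z hz
    have hz' : ‖z‖ = 1 := hz
    simp [r, hz']
  let f : C(A, ↥P) := ⟨fun a => ⟨(g a : ℂ), Circle.norm_coe (g a)⟩, by fun_prop⟩
  have hf := h.null hO hPO hr hm hid f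
  let v : C(↥P, Circle) := ⟨fun z => ⟨z.1, mem_sphere_zero_iff_norm.2 z.2⟩, by
      exact Continuous.subtype_mk continuous_subtype_val _⟩
  obtain ⟨c, hc⟩ := hf.comp_right v
  have hvf : v.comp f = g := by
    ext a
    rfl
  rw [hvf] at hc
  obtain ⟨H⟩ := hc.symm
  obtain ⟨θ, hθ⟩ : ∃ θ : ℝ, Circle.exp θ = c := ⟨Complex.arg c, Circle.exp_arg c⟩
  have H0 : ∀ a, H.toContinuousMap (0, a) = Circle.exp ((ContinuousMap.const A θ) a) := by
    intro a
    simp [hθ]
  let Ht := Circle.isCoveringMap_exp.liftHomotopy H.toContinuousMap (ContinuousMap.const A θ) H0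
  refine ⟨⟨fun a => Ht (1, a), by fun_prop⟩, fun a => ?_⟩
  have := congrFun (Circle.isCoveringMap_exp.liftHomotopy_lifts H.toContinuousMap
    (ContinuousMap.const A θ) H0) (1, a)
  simp only [Function.comp_apply] at this
  show Circle.exp (Ht (1, a)) = g a
  rw [this]
  simp

/-- Local lifts near a fibre. -/
theorem exists_local_lift {W Z : Type*} [TopologicalSpace W] [CompactSpace W] [T2Space W]
    [TopologicalSpace Z] [T2Space Z] (f : C(W, Z)) (g : C(W, Circle)) (z : Z)
    (hz : ∀ g' : C(↥(f ⁻¹' {z}), Circle), ∃ l : C(↥(f ⁻¹' {z}), ℝ),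
      ∀ a, Circle.exp (l a) = g' a) :
    ∃ O : Set Z, IsOpen O ∧ z ∈ O ∧ ∃ l : W → ℝ, ContinuousOn l (f ⁻¹' O) ∧
      ∀ x ∈ f ⁻¹' O, Circle.exp (l x) = g x := by
  obtain ⟨l₀, hl₀⟩ := hz (g.restrict (f ⁻¹' {z}))
  have hF : IsClosed (f ⁻¹' {z}) := isClosed_singleton.preimage f.continuous
  obtain ⟨l₁, hl₁⟩ := ContinuousMap.exists_restrict_eq hF l₀
  let u : W → Circle := fun x => g x * Circle.exp (-(l₁ x))
  have hu : Continuous u := by fun_prop
  let U : Set W := {x | (u x : ℂ) ∈ Complex.slitPlane}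
  have hU : IsOpen U := Complex.isOpen_slitPlane.preimage (continuous_subtype_val.comp hu)
  have hFU : f ⁻¹' {z} ⊆ U := by
    intro x hx
    have h1 : l₁ x = l₀ ⟨x, hx⟩ := by
      rw [← hl₁]; rfl
    have h2 : Circle.exp (l₁ x) = g x := by
      rw [h1, hl₀]; rfl
    have h3 : u x = 1 := by
      show g x * Circle.exp (-(l₁ x)) = 1
      rw [Circle.exp_neg, h2, mul_inv_cancel]
    show (u x : ℂ) ∈ Complex.slitPlane
    rw [h3]
    simp
  let O : Set Z := (f '' Uᶜ)ᶜ
  have hO : IsOpen O := by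
    have : IsCompact (f '' Uᶜ) := (hU.isClosed_compl.isCompact).image f.continuous
    exact this.isClosed.isOpen_compl
  have hzO : z ∈ O := by
    rintro ⟨x, hx, hxz⟩
    exact hx (hFU hxz)
  have hOU : f ⁻¹' O ⊆ U := by
    intro x hx
    by_contra hxU
    exact hx ⟨x, hxU, rfl⟩
  refine ⟨O, hO, hzO, fun x => l₁ x + Complex.arg (u x), ?_, ?_⟩
  · apply l₁.continuous.continuousOn.add
    intro x hx
    apply ContinuousAt.continuousWithinAt
    have h1 : ContinuousAt Complex.arg (u x : ℂ) := Complex.continuousAt_arg (hOU hx)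
    exact ContinuousAt.comp (f := fun x => (u x : ℂ)) h1
      (continuous_subtype_val.comp hu).continuousAt
  · intro x _
    rw [Circle.exp_add, Circle.exp_arg]
    show Circle.exp (l₁ x) * (g x * Circle.exp (-(l₁ x))) = g x
    rw [Circle.exp_neg]
    rw [mul_comm (g x), mul_inv_cancel_left]

/-- The key obstruction: over a path-connected base with good fibres, a relatively clopen subset
of the infinite cyclic cover that misses one fibre is empty. -/
theorem clopen_empty {W Z : Type*} [TopologicalSpace W] [CompactSpace W] [T2Space W]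
    [TopologicalSpace Z] [T2Space Z] [PathConnectedSpace Z] (f : C(W, Z)) (g : C(W, Circle))
    (hc : ∀ z, IsConnected (f ⁻¹' {z}))
    (hl : ∀ (z : Z) (g' : C(↥(f ⁻¹' {z}), Circle)), ∃ l : C(↥(f ⁻¹' {z}), ℝ),
      ∀ a, Circle.exp (l a) = g' a)
    (V V' : Set (W × ℝ)) (hV : IsClosed V) (hV' : IsClosed V') (hd : Disjoint V V')
    (hVV' : ∀ x τ, Circle.exp τ = g x ↔ (x, τ) ∈ V ∨ (x, τ) ∈ V')
    (x₀ : W) (h₀ : ∀ τ, (x₀, τ) ∉ V) (x₁ : W) (τ₁ : ℝ) : (x₁, τ₁) ∉ V := by
  obtain ⟨γ⟩ : Nonempty (Path (f x₀) (f x₁)) := PathConnectedSpace.joined _ _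
  let c : ℝ → Z := γ.extend
  have hcc : Continuous c := γ.continuous_extend
  let S : Set (W × ℝ) := {p | f p.1 = c p.2}
  have hS : IsClosed S := isClosed_eq (by fun_prop) (by fun_prop)
  let π : ↥S → ℝ := fun p => p.1.2
  have hπ : Continuous π := by fun_prop
  have hπc : IsClosedMap π := by
    have h1 : IsClosedMap (Prod.snd : W × ℝ → ℝ) := isClosedMap_snd_of_compactSpace
    exact h1.comp hS.isClosedEmbedding_subtypeVal.isClosedMap
  have hfib : ∀ t, IsConnected (π ⁻¹' {t}) := by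
    intro t
    have h1 := (hc (c t)).image (fun x => (x, t)) (by fun_prop)
    have h2 : (fun x : W => (x, t)) '' (f ⁻¹' {c t}) = Subtype.val '' (π ⁻¹' {t}) := by
      ext ⟨x, s⟩
      constructor
      · rintro ⟨y, hy, hyx⟩
        obtain ⟨rfl, rfl⟩ := Prod.mk.inj hyx
        exact ⟨⟨(y, t), hy⟩, rfl, rfl⟩
      · rintro ⟨⟨⟨y, s'⟩, hy⟩, hys, hyx⟩
        obtain ⟨rfl, rfl⟩ := Prod.mk.inj hyx
        have hys' : y ∈ f ⁻¹' {c t} := by
          have h3 : s' = t := hys
          rw [← h3]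
          exact hy
        have h3 : s' = t := hys
        exact ⟨y, hys', by rw [h3]⟩
    rw [h2] at h1
    exact ⟨h1.1.of_image, (Topology.IsInducing.subtypeVal.isPreconnected_image).1 h1.2⟩
  have hsurj : Function.Surjective π := fun t => by
    obtain ⟨p, hp⟩ := (hfib t).1
    exact ⟨p, hp⟩
  have hquot : IsQuotientMap π := hπc.isQuotientMap hπ hsurj
  have hcon : ∀ J : Set ℝ, IsClosed J → IsConnected J → IsConnected (π ⁻¹' J) := fun J hJ hJ' =>
    hquot.isCoinducing.isConnected_preimage_of_isClosed hfib hJ hJ'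
  have hconn : PreconnectedSpace ↥S := by
    have := (hcon univ isClosed_univ isConnected_univ).2
    rw [preimage_univ] at this
    exact ⟨this⟩
  -- the property is locally constant
  let Q : Set ↥S := {p | ∀ τ, (p.1.1, τ) ∉ V}
  have hloc : ∀ p : ↥S, ∃ N ∈ 𝓝 p, ∀ q ∈ N, ∀ q' ∈ N, q ∈ Q → q' ∈ Q := by
    intro p
    obtain ⟨O, hO, hpO, l, hlc, hle⟩ := exists_local_lift f g (c p.1.2) (hl _)
    have h1 : c ⁻¹' O ∈ 𝓝 p.1.2 := hcc.continuousAt.preimage_mem_nhds (hO.mem_nhds hpO)
    obtain ⟨δ, hδ, hball⟩ := Metric.mem_nhds_iff.1 h1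
    let J : Set ℝ := Icc (p.1.2 - δ / 2) (p.1.2 + δ / 2)
    have hJO : J ⊆ c ⁻¹' O := by
      intro t ht
      apply hball
      rw [Metric.mem_ball, Real.dist_eq, abs_lt]
      constructor <;> linarith [ht.1, ht.2]
    have hJc : IsConnected (π ⁻¹' J) := hcon J isClosed_Icc
      (isConnected_Icc (by linarith))
    refine ⟨π ⁻¹' J, hπ.continuousAt.preimage_mem_nhds (Icc_mem_nhds ?_ ?_), ?_⟩
    · show p.1.2 - δ / 2 < p.1.2
      linarith
    · show p.1.2 < p.1.2 + δ / 2
      linarith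
    intro q hq q' hq' hqQ τ hτ
    have hO' : ∀ q ∈ π ⁻¹' J, q.1.1 ∈ f ⁻¹' O := by
      intro q hq
      show f q.1.1 ∈ O
      have : f q.1.1 = c q.1.2 := q.2
      rw [this]
      exact hJO hq
    have h2 : Circle.exp τ = Circle.exp (l q'.1.1) := by
      rw [hle _ (hO' q' hq'), (hVV' _ _).2 (Or.inl hτ)]
    obtain ⟨k, hk⟩ := Circle.exp_eq_exp.1 h2
    let φ : ↥S → W × ℝ := fun q => (q.1.1, l q.1.1 + k * (2 * Real.pi))
    have hφ : ContinuousOn φ (π ⁻¹' J) := by
      apply ContinuousOn.prodMk (by fun_prop)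
      apply ContinuousOn.add _ continuousOn_const
      exact hlc.comp (by fun_prop) hO'
    have himg : IsPreconnected (φ '' (π ⁻¹' J)) := hJc.2.image φ hφ
    have hsub : φ '' (π ⁻¹' J) ⊆ V ∪ V' := by
      rintro _ ⟨q, hq, rfl⟩
      refine (hVV' q.1.1 (l q.1.1 + k * (2 * Real.pi))).1 ?_
      rw [← hle _ (hO' q hq)]
      exact Circle.exp_eq_exp.2 ⟨k, by ring⟩
    have hor := isPreconnected_iff_subset_of_disjoint_closed.1 himg V V' hV hV' hsub (by
      rw [hd.inter_eq, inter_empty])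
    rcases hor with hor | hor
    · exact hqQ _ (hor ⟨q, hq, rfl⟩)
    · have h3 : φ q' ∈ V' := hor ⟨q', hq', rfl⟩
      have h4 : φ q' = (q'.1.1, τ) := by
        simp only [φ]
        rw [hk]
      rw [h4] at h3
      exact (Set.disjoint_left.1 hd) hτ h3
  have hQo : IsOpen Q := by
    rw [isOpen_iff_mem_nhds]
    intro p hp
    obtain ⟨N, hN, h⟩ := hloc p
    exact Filter.mem_of_superset hN fun q hq => h p (mem_of_mem_nhds hN) q hq hp
  have hQc : IsClosed Q := by
    rw [← isOpen_compl_iff, isOpen_iff_mem_nhds]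
    intro p hp
    obtain ⟨N, hN, h⟩ := hloc p
    exact Filter.mem_of_superset hN fun q hq hqQ => hp (h q hq p (mem_of_mem_nhds hN) hqQ)
  have hp0 : f x₀ = c 0 := by simp [c]
  have hp1 : f x₁ = c 1 := by simp [c]
  rcases isClopen_iff.1 ⟨hQc, hQo⟩ with h | h
  · exfalso
    have : (⟨(x₀, 0), hp0⟩ : ↥S) ∈ Q := h₀
    rw [h] at this
    exact this
  · have : (⟨(x₁, 1), hp1⟩ : ↥S) ∈ Q := by rw [h]; trivial
    exact this τ₁

/-- If `Z₁` is path-connected and `Z₂` carries a circle-valued map whose infinite cyclic cover has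
a nonempty relatively clopen subset missing a fibre, then `Z₁` and `Z₂` are not
cell-like equivalent. -/
theorem not_cellLikeEquivalent.{u} {Z₁ Z₂ : Type*} [TopologicalSpace Z₁] [T2Space Z₁]
    [PathConnectedSpace Z₁] [TopologicalSpace Z₂] (a : C(Z₂, Circle)) (V V' : Set (Z₂ × ℝ))
    (hV : IsClosed V) (hV' : IsClosed V') (hd : Disjoint V V')
    (hVV' : ∀ x τ, Circle.exp τ = a x ↔ (x, τ) ∈ V ∨ (x, τ) ∈ V')
    (z₀ : Z₂) (h₀ : ∀ τ, (z₀, τ) ∉ V) (p : Z₂ × ℝ) (hp : p ∈ V) :
    ¬ CellLikeEquivalent.{u} Z₁ Z₂ := by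
  rintro ⟨W, _, _, _, f₁, f₂, h₁, h₂⟩
  let F₁ : C(W, Z₁) := ⟨f₁, h₁.1⟩
  let F₂ : C(W, Z₂) := ⟨f₂, h₂.1⟩
  have hsurj : ∀ z, ∃ x, f₂ x = z := fun z => by
    obtain ⟨x⟩ := (h₂.2 z).2.2.1
    exact ⟨x.1, x.2⟩
  obtain ⟨x₀, hx₀⟩ := hsurj z₀
  obtain ⟨x₁, hx₁⟩ := hsurj p.1
  have hcont : Continuous fun q : W × ℝ => (f₂ q.1, q.2) := by
    have := h₂.1
    fun_prop
  refine clopen_empty F₁ (a.comp F₂) ?_ ?_ ((fun q : W × ℝ => (f₂ q.1, q.2)) ⁻¹' V)
    ((fun q : W × ℝ => (f₂ q.1, q.2)) ⁻¹' V') (hV.preimage hcont) (hV'.preimage hcont)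
    (hd.preimage _) ?_ x₀ ?_ x₁ p.2 ?_
  · intro z
    have h3 := (h₁.2 z).2.2
    have h4 := h3.preconnected
    obtain ⟨x⟩ := h3.1
    exact ⟨⟨x.1, x.2⟩, isPreconnected_iff_preconnectedSpace.2 h4⟩
  · intro z g'
    exact (h₁.2 z).2.2.lift g'
  · intro x τ
    exact hVV' (f₂ x) τ
  · intro τ
    show (f₂ x₀, τ) ∉ V
    rw [hx₀]
    exact h₀ τ
  · show (f₂ x₁, p.2) ∈ V
    rw [hx₁]
    exact hp

/-- Borsuk's neighbourhood form of trivial shape implies the form used here: if the nonempty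
compact space `A` is embedded in a normal space `Q` (for instance the Hilbert cube) so that every
open neighbourhood `U` of `A` contains an open neighbourhood `V` of `A` which is contractible in
`U`, then every map from `A` to a Euclidean neighbourhood retract is null-homotopic. -/
theorem HasTrivialShape.of_contractible_nhds {A Q : Type*} [TopologicalSpace A] [Nonempty A]
    [TopologicalSpace Q] [NormalSpace Q] (i : A → Q) (hi : IsClosedEmbedding i)
    (h : ∀ U : Set Q, IsOpen U → range i ⊆ U → ∃ V : Set Q, IsOpen V ∧ range i ⊆ V ∧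
      ∃ hVU : V ⊆ U, (ContinuousMap.inclusion hVU).Nullhomotopic) : HasTrivialShape A := by
  refine ⟨inferInstance, fun n P hP f => ?_⟩
  obtain ⟨O, hO, hPO, r, hr, hrm, hrid⟩ := hP
  let f' : C(A, EuclideanSpace ℝ (Fin n)) := ⟨fun a => (f a : EuclideanSpace ℝ (Fin n)), by fun_prop⟩
  obtain ⟨F, hF⟩ := f'.exists_extension hi
  have hFi : ∀ a, F (i a) = f a := fun a => DFunLike.congr_fun hF a
  have hU : IsOpen (F ⁻¹' O) := hO.preimage F.continuous
  obtain ⟨V, hV, hiV, hVU, hnull⟩ := h (F ⁻¹' O) hU (by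
    rintro _ ⟨a, rfl⟩
    show F (i a) ∈ O
    rw [hFi]
    exact hPO (f a).2)
  let g : C(↥(F ⁻¹' O), ↥P) := ⟨fun x => ⟨r (F x.1), hrm x.2⟩, by
    apply Continuous.subtype_mk
    exact hr.comp_continuous (F.continuous.comp continuous_subtype_val) fun x => x.2⟩
  let j : C(A, ↥V) := ⟨fun a => ⟨i a, hiV ⟨a, rfl⟩⟩, by
    apply Continuous.subtype_mk
    exact hi.continuous⟩
  have h1 := (hnull.comp_right g).comp_left j
  have h2 : (g.comp (ContinuousMap.inclusion hVU)).comp j = f := by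
    ext1 a
    apply Subtype.ext
    show r (F (i a)) = f a
    rw [hFi]
    exact hrid _ (f a).2
  rwa [h2] at h1

end ZBdry
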