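import Pool.Agent.Helper81.CECompact

/-!
# Translates form null sequences
-/

open Set Topology
open scoped unitInterval

namespace ZBdry.Tw

open ZBdry.Cox

variable {ω : ℝ → ℝ}

/-- Slow variation of the twisting function. -/
def Slow (ω : ℝ → ℝ) : Prop :=
  ∀ K : ℝ, 0 < K → ∀ ε : ℝ, 0 < ε → ∃ R : ℝ, ∀ ρ ρ' : ℝ, R ≤ ρ → ρ ≤ K * ρ' → ρ' ≤ K * ρ →
    |ω ρ - ω ρ'| ≤ ε

/-- Closeness of two points. -/
structure Near (c : ℝ) (y y' : Y) : Prop where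
  hb : |bc y.1 - bc y'.1| ≤ c
  he : |ec y.1 - ec y'.1| ≤ c
  ht : |y.2 - y'.2| ≤ c
  hbe : |bc y.1 - bc y'.1| * ec y.1 ≤ c

theorem B_symm (x y : V) : B x y = B y x := by
  simp only [B, sm]; ring

theorem near_of_dist {C : ℝ} (hC : 0 ≤ C) {y y' : Y} (h : -B y.1 y'.1 ≤ C)
    (ht : |y.2 - y'.2| ≤ C) : Near (2 * √C + C) y y' := by
  have h1 := dist_est (b := bc y.1) (e := ec y.1) (b' := bc y'.1) (e' := ec y'.1) (C := C) (by
    rw [Lam_coord y.1.2, Lam_coord y'.1.2]; exact h)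
  obtain ⟨h2, h3⟩ := h1
  have h4 := one_add_sq_le_cosh (ec y.1)
  have h5 := Real.one_le_cosh (ec y'.1)
  have hs : √C ^ 2 = C := Real.sq_sqrt hC
  have hs0 := Real.sqrt_nonneg C
  have h6 : (bc y.1 - bc y'.1) ^ 2 * (1 + ec y.1 ^ 2 / 2) ≤ 2 * C := by
    refine le_trans ?_ h3
    apply mul_le_mul_of_nonneg_left _ (sq_nonneg _)
    have h7 : (1 + ec y.1 ^ 2 / 2) * 1 ≤ Real.cosh (ec y.1) * Real.cosh (ec y'.1) :=
      mul_le_mul h4 h5 zero_le_one (by positivity)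
    linarith
  refine ⟨?_, ?_, ?_, ?_⟩
  · have h7 : |bc y.1 - bc y'.1| ≤ 2 * √C := by
      apply abs_le_of_sq_le_sq _ (by positivity)
      have : 0 ≤ (bc y.1 - bc y'.1) ^ 2 * (ec y.1 ^ 2 / 2) := by positivity
      nlinarith
    linarith
  · have h7 : |ec y.1 - ec y'.1| ≤ 2 * √C := by
      apply abs_le_of_sq_le_sq _ (by positivity)
      nlinarith
    linarith
  · linarith
  · have h7 : |bc y.1 - bc y'.1| * ec y.1 ≤ 2 * √C := by
      apply le_of_sq_le_sq _ (by positivity)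
      rw [mul_pow, sq_abs]
      have : 0 ≤ (bc y.1 - bc y'.1) ^ 2 := by positivity
      nlinarith
    linarith

theorem ratio {b b' e e' t t' : ℝ} (he : 0 ≤ e) (he' : 0 ≤ e') :
    ∃ κ : ℝ, 0 < κ ∧ (κ - 1) * ((1 + |b| + e) * (1 + |b'|)) =
      (1 + |b|) * (e' - e) + e * (|b| - |b'|) ∧
      (t * (1 + |b|) / (1 + |b| + e) - κ * (t' * (1 + |b'|) / (1 + |b'| + e')))
        * (1 + |b| + e) = (t - t') * (1 + |b|) := by
  have h1 : 0 < 1 + |b| + e := by positivity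
  have h2 : 0 < 1 + |b'| + e' := by positivity
  have h3 : 0 < 1 + |b| := by positivity
  have h4 : 0 < 1 + |b'| := by positivity
  refine ⟨(1 + |b|) * (1 + |b'| + e') / ((1 + |b| + e) * (1 + |b'|)), by positivity, ?_, ?_⟩
  · field_simp
    ring
  · field_simp

theorem norm_le_abs_add_abs (b h : ℝ) : ‖((b : ℝ) : ℂ) + ((h : ℝ) : ℂ) * Complex.I‖ ≤ |b| + |h| := by
  refine (norm_add_le _ _).trans ?_
  rw [norm_mul, Complex.norm_I, mul_one, Complex.norm_real, Complex.norm_real]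
  simp

theorem zeta_sub_smul (y y' : Y) (κ : ℝ) : zeta y - ((κ : ℝ) : ℂ) * zeta y' =
    ((bc y.1 - κ * bc y'.1 : ℝ) : ℂ) + ((eta y - κ * eta y' : ℝ) : ℂ) * Complex.I := by
  simp only [zeta]
  push_cast
  ring

theorem zeta_sub (y y' : Y) : zeta y - zeta y' =
    ((bc y.1 - bc y'.1 : ℝ) : ℂ) + ((eta y - eta y' : ℝ) : ℂ) * Complex.I := by
  simp only [zeta]
  push_cast
  ring

/-- Comparison up to a factor. -/
theorem near_ratio {c : ℝ} {y y' : Y} (h : Near c y y') :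
    ∃ κ : ℝ, 0 < κ ∧ |κ - 1| ≤ c ∧ ‖zeta y - ((κ : ℝ) : ℂ) * zeta y'‖ ≤ 3 * c := by
  have he := ec_nonneg y.1.2
  have he' := ec_nonneg y'.1.2
  obtain ⟨κ, hκ, h1, h2⟩ := ratio (b := bc y.1) (b' := bc y'.1) (t := y.2) (t' := y'.2) he he'
  have hA : 0 < 1 + |bc y.1| := by positivity
  have hA' : 0 < 1 + |bc y'.1| := by positivity
  have hAe : 0 < 1 + |bc y.1| + ec y.1 := denom_pos y
  have hbb : |(|bc y.1| - |bc y'.1|)| ≤ c := (abs_abs_sub_abs_le_abs_sub _ _).trans h.hb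
  have hc : 0 ≤ c := (abs_nonneg _).trans h.hb
  have h3 : |κ - 1| * (1 + |bc y'.1|) ≤ c := by
    have h4 : |κ - 1| * (1 + |bc y'.1|) * (1 + |bc y.1| + ec y.1)
        ≤ c * (1 + |bc y.1| + ec y.1) := by
      have h5 : |κ - 1| * (1 + |bc y'.1|) * (1 + |bc y.1| + ec y.1)
          = |(κ - 1) * ((1 + |bc y.1| + ec y.1) * (1 + |bc y'.1|))| := by
        rw [abs_mul, abs_of_pos (mul_pos hAe hA')]
        ring
      rw [h5, h1]
      refine (abs_add_le _ _).trans ?_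
      rw [abs_mul, abs_mul, abs_of_pos hA, abs_of_nonneg he]
      have h6 := h.he
      rw [abs_sub_comm] at h6
      have h7 := mul_le_mul_of_nonneg_left h6 hA.le
      have h8 := mul_le_mul_of_nonneg_left hbb he
      linarith
    exact le_of_mul_le_mul_right h4 hAe
  have h4 : |κ - 1| ≤ c := by
    refine le_trans ?_ h3
    exact le_mul_of_one_le_right (abs_nonneg _) (by linarith [abs_nonneg (bc y'.1)])
  have h5 : |bc y.1 - κ * bc y'.1| ≤ 2 * c := by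
    have e1 : bc y.1 - κ * bc y'.1 = (bc y.1 - bc y'.1) + (1 - κ) * bc y'.1 := by ring
    rw [e1]
    refine (abs_add_le _ _).trans ?_
    rw [abs_mul, abs_sub_comm 1 κ]
    have h6 : |κ - 1| * |bc y'.1| ≤ |κ - 1| * (1 + |bc y'.1|) :=
      mul_le_mul_of_nonneg_left (by linarith) (abs_nonneg _)
    have := h.hb
    linarith
  have h6 : |eta y - κ * eta y'| ≤ c := by
    have h7 : |eta y - κ * eta y'| * (1 + |bc y.1| + ec y.1) ≤ c * (1 + |bc y.1| + ec y.1) := by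
      have h8 : |eta y - κ * eta y'| * (1 + |bc y.1| + ec y.1)
          = |(eta y - κ * eta y') * (1 + |bc y.1| + ec y.1)| := by
        rw [abs_mul, abs_of_pos hAe]
      rw [h8]
      have h9 : (eta y - κ * eta y') * (1 + |bc y.1| + ec y.1) = (y.2 - y'.2) * (1 + |bc y.1|) := h2
      rw [h9, abs_mul, abs_of_pos hA]
      have h10 := mul_le_mul_of_nonneg_right h.ht hA.le
      have h11 := mul_nonneg hc he
      linarith
    exact le_of_mul_le_mul_right h7 hAe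
  refine ⟨κ, hκ, h4, ?_⟩
  rw [zeta_sub_smul]
  refine (norm_le_abs_add_abs _ _).trans ?_
  linarith

/-- Radial projection is coarsely insensitive to positive factors. -/
theorem unit_dist {ζ ζ' : ℂ} {κ : ℝ} (hκ : 0 < κ) (hζ : 0 < ‖ζ‖) (hζ' : 0 < ‖ζ'‖) :
    ‖((1 / ‖ζ‖ : ℝ) : ℂ) * ζ - ((1 / ‖ζ'‖ : ℝ) : ℂ) * ζ'‖
      ≤ 2 * ‖ζ - ((κ : ℝ) : ℂ) * ζ'‖ / ‖ζ‖ := by
  have h1 : ((1 / ‖ζ‖ : ℝ) : ℂ) * ζ - ((1 / ‖ζ'‖ : ℝ) : ℂ) * ζ' =
      ((1 / ‖ζ‖ : ℝ) : ℂ) * (ζ - ((κ : ℝ) : ℂ) * ζ') + ((κ / ‖ζ‖ - 1 / ‖ζ'‖ : ℝ) : ℂ) * ζ' := by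
    push_cast
    ring
  have h2 : ‖((κ / ‖ζ‖ - 1 / ‖ζ'‖ : ℝ) : ℂ) * ζ'‖ = |κ * ‖ζ'‖ - ‖ζ‖| / ‖ζ‖ := by
    rw [norm_mul, Complex.norm_real, Real.norm_eq_abs]
    have h3 : κ / ‖ζ‖ - 1 / ‖ζ'‖ = (κ * ‖ζ'‖ - ‖ζ‖) / (‖ζ‖ * ‖ζ'‖) := by
      field_simp
    rw [h3, abs_div, abs_of_pos (mul_pos hζ hζ')]
    field_simp
  have h3 : |κ * ‖ζ'‖ - ‖ζ‖| ≤ ‖ζ - ((κ : ℝ) : ℂ) * ζ'‖ := by
    have h4 : κ * ‖ζ'‖ = ‖((κ : ℝ) : ℂ) * ζ'‖ := by
      rw [norm_mul, Complex.norm_real, Real.norm_of_nonneg hκ.le]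
    rw [h4, abs_sub_comm]
    exact abs_norm_sub_norm_le _ _
  rw [h1]
  refine (norm_add_le _ _).trans ?_
  rw [h2, norm_mul, Complex.norm_real, Real.norm_of_nonneg (by positivity)]
  have h5 : |κ * ‖ζ'‖ - ‖ζ‖| / ‖ζ‖ ≤ ‖ζ - ((κ : ℝ) : ℂ) * ζ'‖ / ‖ζ‖ :=
    div_le_div_of_nonneg_right h3 hζ.le
  have h6 : 1 / ‖ζ‖ * ‖ζ - ((κ : ℝ) : ℂ) * ζ'‖ = ‖ζ - ((κ : ℝ) : ℂ) * ζ'‖ / ‖ζ‖ := by ring
  have h7 : 2 * ‖ζ - ((κ : ℝ) : ℂ) * ζ'‖ / ‖ζ‖ =
      ‖ζ - ((κ : ℝ) : ℂ) * ζ'‖ / ‖ζ‖ + ‖ζ - ((κ : ℝ) : ℂ) * ζ'‖ / ‖ζ‖ := by ring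
  rw [h6, h7]
  linarith

theorem norm_exp_sub (a b : ℝ) :
    ‖Complex.exp (((a : ℝ) : ℂ) * Complex.I) - Complex.exp (((b : ℝ) : ℂ) * Complex.I)‖
      ≤ |a - b| := by
  have h1 : Complex.exp (((a : ℝ) : ℂ) * Complex.I) - Complex.exp (((b : ℝ) : ℂ) * Complex.I) =
      Complex.exp (((b : ℝ) : ℂ) * Complex.I) *
        (Complex.exp (Complex.I * ((a - b : ℝ) : ℂ)) - 1) := by
    rw [mul_sub, mul_one, ← Complex.exp_add]
    congr 2
    push_cast
    ring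
  rw [h1, norm_mul, Complex.norm_exp_ofReal_mul_I, one_mul]
  exact Real.norm_exp_I_mul_ofReal_sub_one_le

/-- The far away comparison. -/
theorem hh_dist {ζ ζ' : ℂ} {κ : ℝ} (hκ : 0 < κ) (hζ : 0 < ‖ζ‖) (hζ' : 0 < ‖ζ'‖) :
    ‖hh ω ζ - hh ω ζ'‖ ≤ 1 / (1 + ‖ζ‖) + 1 / (1 + ‖ζ'‖) +
      2 * ‖ζ - ((κ : ℝ) : ℂ) * ζ'‖ / ‖ζ‖ + |ω ‖ζ‖ - ω ‖ζ'‖| := by
  have hA : ∀ z : ℂ, 0 < ‖z‖ → ‖hh ω z - ((1 / ‖z‖ : ℝ) : ℂ) * z *
      Complex.exp (((ω ‖z‖ : ℝ) : ℂ) * Complex.I)‖ = 1 / (1 + ‖z‖) := by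
    intro z hz
    have h1 : hh ω z - ((1 / ‖z‖ : ℝ) : ℂ) * z * Complex.exp (((ω ‖z‖ : ℝ) : ℂ) * Complex.I) =
        ((1 / (1 + ‖z‖) - 1 / ‖z‖ : ℝ) : ℂ) * z *
          Complex.exp (((ω ‖z‖ : ℝ) : ℂ) * Complex.I) := by
      rw [hh]
      push_cast
      ring
    rw [h1, norm_mul, norm_mul, Complex.norm_exp_ofReal_mul_I, Complex.norm_real,
      Real.norm_eq_abs]
    have h2 : 1 / (1 + ‖z‖) - 1 / ‖z‖ = -(1 / ((1 + ‖z‖) * ‖z‖)) := by
      field_simp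
      ring
    rw [h2, abs_neg, abs_of_pos (by positivity)]
    field_simp
  have hB : ‖((1 / ‖ζ‖ : ℝ) : ℂ) * ζ * Complex.exp (((ω ‖ζ‖ : ℝ) : ℂ) * Complex.I) -
      ((1 / ‖ζ'‖ : ℝ) : ℂ) * ζ' * Complex.exp (((ω ‖ζ'‖ : ℝ) : ℂ) * Complex.I)‖
      ≤ 2 * ‖ζ - ((κ : ℝ) : ℂ) * ζ'‖ / ‖ζ‖ + |ω ‖ζ‖ - ω ‖ζ'‖| := by
    have h1 : ((1 / ‖ζ‖ : ℝ) : ℂ) * ζ * Complex.exp (((ω ‖ζ‖ : ℝ) : ℂ) * Complex.I) -
      ((1 / ‖ζ'‖ : ℝ) : ℂ) * ζ' * Complex.exp (((ω ‖ζ'‖ : ℝ) : ℂ) * Complex.I) =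
      (((1 / ‖ζ‖ : ℝ) : ℂ) * ζ - ((1 / ‖ζ'‖ : ℝ) : ℂ) * ζ') *
        Complex.exp (((ω ‖ζ‖ : ℝ) : ℂ) * Complex.I) +
      ((1 / ‖ζ'‖ : ℝ) : ℂ) * ζ' * (Complex.exp (((ω ‖ζ‖ : ℝ) : ℂ) * Complex.I) -
        Complex.exp (((ω ‖ζ'‖ : ℝ) : ℂ) * Complex.I)) := by ring
    rw [h1]
    refine (norm_add_le _ _).trans (add_le_add ?_ ?_)
    · rw [norm_mul, Complex.norm_exp_ofReal_mul_I, mul_one]
      exact unit_dist hκ hζ hζ'
    · rw [norm_mul, norm_mul, Complex.norm_real, Real.norm_of_nonneg (by positivity),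
        one_div_mul_cancel hζ'.ne', one_mul]
      exact norm_exp_sub _ _
  have h3 : hh ω ζ - hh ω ζ' =
      (hh ω ζ - ((1 / ‖ζ‖ : ℝ) : ℂ) * ζ * Complex.exp (((ω ‖ζ‖ : ℝ) : ℂ) * Complex.I)) -
      (hh ω ζ' - ((1 / ‖ζ'‖ : ℝ) : ℂ) * ζ' * Complex.exp (((ω ‖ζ'‖ : ℝ) : ℂ) * Complex.I)) +
      (((1 / ‖ζ‖ : ℝ) : ℂ) * ζ * Complex.exp (((ω ‖ζ‖ : ℝ) : ℂ) * Complex.I) -
      ((1 / ‖ζ'‖ : ℝ) : ℂ) * ζ' * Complex.exp (((ω ‖ζ'‖ : ℝ) : ℂ) * Complex.I)) := by ring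
  rw [h3]
  refine (norm_add_le _ _).trans ?_
  have h4 := norm_sub_le
    (hh ω ζ - ((1 / ‖ζ‖ : ℝ) : ℂ) * ζ * Complex.exp (((ω ‖ζ‖ : ℝ) : ℂ) * Complex.I))
    (hh ω ζ' - ((1 / ‖ζ'‖ : ℝ) : ℂ) * ζ' * Complex.exp (((ω ‖ζ'‖ : ℝ) : ℂ) * Complex.I))
  rw [hA ζ hζ, hA ζ' hζ'] at h4
  linarith

theorem tanh_nonneg' {e : ℝ} (he : 0 ≤ e) : 0 ≤ Real.tanh e := by
  rw [Real.tanh_eq_sinh_div_cosh]
  exact div_nonneg (Real.sinh_nonneg_iff.2 he) (Real.cosh_pos _).le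

theorem one_sub_tanh_le {e : ℝ} (he : 0 < e) : 1 - Real.tanh e ≤ 1 / e := by
  have h1 : 1 - Real.tanh e = Real.exp (-e) / Real.cosh e := by
    rw [Real.tanh_eq_sinh_div_cosh, ← Real.cosh_sub_sinh]
    have := (Real.cosh_pos e).ne'
    field_simp
  rw [h1]
  have h2 := Real.one_le_cosh e
  have h3 : Real.exp (-e) / Real.cosh e ≤ Real.exp (-e) := div_le_self (Real.exp_pos _).le h2
  refine h3.trans ?_
  rw [Real.exp_neg, ← one_div]
  apply one_div_le_one_div_of_le he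
  linarith [Real.add_one_le_exp e]

/-- Case one: points far away in the plane. -/
theorem far_case (hs : Slow ω) (c ε : ℝ) (hε : 0 < ε) : ∃ R : ℝ, ∀ y y' : Y, Near c y y' →
    R ≤ ‖zeta y‖ → dist (Pm ω y) (Pm ω y') ≤ ε := by
  by_cases hc : 0 ≤ c
  swap
  · refine ⟨0, fun y y' h _ => ?_⟩
    exact absurd ((abs_nonneg _).trans h.hb) hc
  let K : ℝ := 2 * (1 + c)
  have hK : 0 < K := by positivity
  obtain ⟨R₁, hR₁⟩ := hs K hK (ε / 4) (by positivity)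
  refine ⟨max R₁ (max (6 * c + 1) (max (4 * K / ε) (max (4 / ε) (24 * c / ε)))), ?_⟩
  intro y y' h hR
  obtain ⟨κ, hκ, hκ1, hκ2⟩ := near_ratio h
  have g1 : R₁ ≤ ‖zeta y‖ := (le_max_left _ _).trans hR
  have g2 : 6 * c + 1 ≤ ‖zeta y‖ := ((le_max_left _ _).trans (le_max_right _ _)).trans hR
  have g3 : 4 * K / ε ≤ ‖zeta y‖ :=
    ((le_max_left _ _).trans ((le_max_right _ _).trans (le_max_right _ _))).trans hR
  have g4 : 4 / ε ≤ ‖zeta y‖ :=
    ((le_max_left _ _).trans ((le_max_right _ _).trans ((le_max_right _ _).trans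
      (le_max_right _ _)))).trans hR
  have g5 : 24 * c / ε ≤ ‖zeta y‖ :=
    ((le_max_right _ _).trans ((le_max_right _ _).trans ((le_max_right _ _).trans
      (le_max_right _ _)))).trans hR
  have hρ : 0 < ‖zeta y‖ := by linarith
  have hκu : κ ≤ 1 + c := by
    have := (abs_le.1 hκ1).2
    linarith
  have hn : |‖zeta y‖ - κ * ‖zeta y'‖| ≤ 3 * c := by
    have h4 : κ * ‖zeta y'‖ = ‖((κ : ℝ) : ℂ) * zeta y'‖ := by
      rw [norm_mul, Complex.norm_real, Real.norm_of_nonneg hκ.le]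
    rw [h4]
    exact (abs_norm_sub_norm_le _ _).trans hκ2
  rw [abs_le] at hn
  have k1 : ‖zeta y‖ ≤ K * ‖zeta y'‖ := by
    have h5 : κ * ‖zeta y'‖ ≤ (1 + c) * ‖zeta y'‖ :=
      mul_le_mul_of_nonneg_right hκu (norm_nonneg _)
    have h6 : K * ‖zeta y'‖ = 2 * ((1 + c) * ‖zeta y'‖) := by
      simp only [K]; ring
    rw [h6]
    linarith
  have hρ' : 0 < ‖zeta y'‖ := by
    by_contra hcon
    push Not at hcon
    have h5 : ‖zeta y'‖ = 0 := le_antisymm hcon (norm_nonneg _)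
    rw [h5, mul_zero] at k1
    linarith
  -- the opposite bound, using the symmetric ratio
  have k2 : ‖zeta y'‖ ≤ K * ‖zeta y‖ := by
    have hNear' : ∃ κ' : ℝ, 0 < κ' ∧ κ' ≤ 1 + c ∧ |‖zeta y'‖ - κ' * ‖zeta y‖| ≤ 3 * c := by
      -- apply the ratio estimate with the roles exchanged
      have he := ec_nonneg y.1.2
      have he' := ec_nonneg y'.1.2
      obtain ⟨κ', hκ', h1, h2⟩ :=
        ratio (b := bc y'.1) (b' := bc y.1) (t := y'.2) (t' := y.2) he' he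
      have hA : 0 < 1 + |bc y'.1| := by positivity
      have hA' : 0 < 1 + |bc y.1| := by positivity
      have hAe : 0 < 1 + |bc y'.1| + ec y'.1 := denom_pos y'
      have hbb : |(|bc y'.1| - |bc y.1|)| ≤ c := by
        refine (abs_abs_sub_abs_le_abs_sub _ _).trans ?_
        rw [abs_sub_comm]
        exact h.hb
      have h3 : |κ' - 1| * (1 + |bc y.1|) ≤ c := by
        have h4 : |κ' - 1| * (1 + |bc y.1|) * (1 + |bc y'.1| + ec y'.1)
            ≤ c * (1 + |bc y'.1| + ec y'.1) := by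
          have h5 : |κ' - 1| * (1 + |bc y.1|) * (1 + |bc y'.1| + ec y'.1)
              = |(κ' - 1) * ((1 + |bc y'.1| + ec y'.1) * (1 + |bc y.1|))| := by
            rw [abs_mul, abs_of_pos (mul_pos hAe hA')]
            ring
          rw [h5, h1]
          refine (abs_add_le _ _).trans ?_
          rw [abs_mul, abs_mul, abs_of_pos hA, abs_of_nonneg he']
          have h7 := mul_le_mul_of_nonneg_left h.he hA.le
          have h8 := mul_le_mul_of_nonneg_left hbb he'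
          linarith
        exact le_of_mul_le_mul_right h4 hAe
      have h4 : |κ' - 1| ≤ c := by
        refine le_trans ?_ h3
        exact le_mul_of_one_le_right (abs_nonneg _) (by linarith [abs_nonneg (bc y.1)])
      have h5 : |bc y'.1 - κ' * bc y.1| ≤ 2 * c := by
        have e1 : bc y'.1 - κ' * bc y.1 = -(bc y.1 - bc y'.1) + (1 - κ') * bc y.1 := by ring
        rw [e1]
        refine (abs_add_le _ _).trans ?_
        rw [abs_mul, abs_sub_comm 1 κ', abs_neg]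
        have h6 : |κ' - 1| * |bc y.1| ≤ |κ' - 1| * (1 + |bc y.1|) :=
          mul_le_mul_of_nonneg_left (by linarith) (abs_nonneg _)
        have := h.hb
        linarith
      have h6 : |eta y' - κ' * eta y| ≤ c := by
        have h7 : |eta y' - κ' * eta y| * (1 + |bc y'.1| + ec y'.1)
            ≤ c * (1 + |bc y'.1| + ec y'.1) := by
          have h8 : |eta y' - κ' * eta y| * (1 + |bc y'.1| + ec y'.1)
              = |(eta y' - κ' * eta y) * (1 + |bc y'.1| + ec y'.1)| := by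
            rw [abs_mul, abs_of_pos hAe]
          rw [h8]
          have h9 : (eta y' - κ' * eta y) * (1 + |bc y'.1| + ec y'.1)
              = (y'.2 - y.2) * (1 + |bc y'.1|) := h2
          rw [h9, abs_mul, abs_of_pos hA, abs_sub_comm]
          have h10 := mul_le_mul_of_nonneg_right h.ht hA.le
          have h11 := mul_nonneg hc he'
          linarith
        exact le_of_mul_le_mul_right h7 hAe
      refine ⟨κ', hκ', ?_, ?_⟩
      · have := (abs_le.1 h4).2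
        linarith
      · have h7 : κ' * ‖zeta y‖ = ‖((κ' : ℝ) : ℂ) * zeta y‖ := by
          rw [norm_mul, Complex.norm_real, Real.norm_of_nonneg hκ'.le]
        rw [h7]
        refine (abs_norm_sub_norm_le _ _).trans ?_
        rw [zeta_sub_smul]
        refine (norm_le_abs_add_abs _ _).trans ?_
        linarith
    obtain ⟨κ', hκ', h1, h2⟩ := hNear'
    rw [abs_le] at h2
    have h5 : κ' * ‖zeta y‖ ≤ (1 + c) * ‖zeta y‖ :=
      mul_le_mul_of_nonneg_right h1 (norm_nonneg _)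
    have h6 : K * ‖zeta y‖ = (1 + c) * ‖zeta y‖ + (1 + c) * ‖zeta y‖ := by
      simp only [K]; ring
    have h7 : ‖zeta y‖ ≤ (1 + c) * ‖zeta y‖ := by nlinarith
    rw [h6]
    linarith
  have hω := hR₁ ‖zeta y‖ ‖zeta y'‖ g1 k1 k2
  have q1 : 1 / (1 + ‖zeta y‖) ≤ ε / 4 := by
    rw [div_le_iff₀ (by positivity)]
    rw [div_le_iff₀ hε] at g4
    nlinarith
  have q2 : 1 / (1 + ‖zeta y'‖) ≤ ε / 4 := by
    rw [div_le_iff₀ (by positivity)]
    rw [div_le_iff₀ hε] at g3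
    have h5 : 4 * K ≤ K * ‖zeta y'‖ * ε := g3.trans (mul_le_mul_of_nonneg_right k1 hε.le)
    have h6 : 4 ≤ ‖zeta y'‖ * ε := by
      have h7 : K * 4 ≤ K * (‖zeta y'‖ * ε) := by linarith
      exact le_of_mul_le_mul_left h7 hK
    nlinarith
  have q3 : 2 * ‖zeta y - ((κ : ℝ) : ℂ) * zeta y'‖ / ‖zeta y‖ ≤ ε / 4 := by
    rw [div_le_iff₀ hρ]
    rw [div_le_iff₀ hε] at g5
    nlinarith
  have hd := hh_dist (ω := ω) hκ hρ hρ'
  rw [Prod.dist_eq]
  apply max_le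
  · rw [Pm_fst, Pm_fst, dist_eq_norm]
    linarith
  · rw [Pm_snd, Pm_snd, Real.dist_eq]
    have t0 := tanh_nonneg' (ec_nonneg y.1.2)
    have t1 := (Real.tanh_lt_one (ec y.1)).le
    have t0' := tanh_nonneg' (ec_nonneg y'.1.2)
    have t1' := (Real.tanh_lt_one (ec y'.1)).le
    have w1 : Real.tanh (ec y.1) / (1 + ‖zeta y‖) ≤ 1 / (1 + ‖zeta y‖) :=
      div_le_div_of_nonneg_right t1 (by positivity)
    have w2 : Real.tanh (ec y'.1) / (1 + ‖zeta y'‖) ≤ 1 / (1 + ‖zeta y'‖) :=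
      div_le_div_of_nonneg_right t1' (by positivity)
    have w3 : 0 ≤ Real.tanh (ec y.1) / (1 + ‖zeta y‖) := by positivity
    have w4 : 0 ≤ Real.tanh (ec y'.1) / (1 + ‖zeta y'‖) := by positivity
    rw [abs_le]
    constructor <;> linarith

/-- Case two: points of bounded planar coordinate and large height. -/
theorem high_case (hω : Continuous ω) (c ε R : ℝ) (hε : 0 < ε) : ∃ E : ℝ, ∀ y y' : Y,
    Near c y y' → ‖zeta y‖ ≤ R → ‖zeta y'‖ ≤ R → E ≤ ec y.1 → E ≤ ec y'.1 →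
    dist (Pm ω y) (Pm ω y') ≤ ε := by
  by_cases hc : 0 ≤ c
  swap
  · refine ⟨0, fun y y' h _ => ?_⟩
    exact absurd ((abs_nonneg _).trans h.hb) hc
  by_cases hR : 0 ≤ R
  swap
  · refine ⟨0, fun y y' _ h => ?_⟩
    exact absurd ((norm_nonneg _).trans h) hR
  have huc : UniformContinuousOn (hh ω) (Metric.closedBall 0 R) :=
    (isCompact_closedBall (0 : ℂ) R).uniformContinuousOn_of_continuous
      (continuous_hh hω).continuousOn
  obtain ⟨δ, hδ, hδ'⟩ := Metric.uniformContinuousOn_iff.1 huc ε hε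
  let C₅ : ℝ := c + c * (1 + R) + c * (R + 2) * R
  have hC₅ : 0 ≤ C₅ := by positivity
  refine ⟨max 1 (max ((C₅ + 1) / δ) (max (2 * (C₅ + 1) / ε) (2 / ε))), ?_⟩
  intro y y' h hζ hζ' hE hE'
  obtain ⟨E, hEdef⟩ : ∃ E : ℝ, E = max 1 (max ((C₅ + 1) / δ) (max (2 * (C₅ + 1) / ε) (2 / ε))) :=
    ⟨_, rfl⟩
  rw [← hEdef] at hE hE'
  have E1 : 1 ≤ E := by rw [hEdef]; exact le_max_left _ _
  have E2 : (C₅ + 1) / δ ≤ E := by
    rw [hEdef]; exact (le_max_left _ _).trans (le_max_right _ _)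
  have E3 : 2 * (C₅ + 1) / ε ≤ E := by
    rw [hEdef]
    exact (le_max_left _ _).trans ((le_max_right _ _).trans (le_max_right _ _))
  have E4 : 2 / ε ≤ E := by
    rw [hEdef]
    exact (le_max_right _ _).trans ((le_max_right _ _).trans (le_max_right _ _))
  have E0 : 0 < E := by linarith
  have he := ec_nonneg y.1.2
  have he' := ec_nonneg y'.1.2
  obtain ⟨κ, hκ, h1, h2⟩ := ratio (b := bc y.1) (b' := bc y'.1) (t := y.2) (t' := y'.2) he he'
  have hA : 0 < 1 + |bc y.1| := by positivity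
  have hA' : 0 < 1 + |bc y'.1| := by positivity
  have hAe : 0 < 1 + |bc y.1| + ec y.1 := denom_pos y
  have hbR : |bc y.1| ≤ R := by
    rw [← zeta_re]
    exact (Complex.abs_re_le_norm _).trans hζ
  have hηR : |eta y'| ≤ R := by
    rw [← zeta_im]
    exact (Complex.abs_im_le_norm _).trans hζ'
  have hbb : |(|bc y.1| - |bc y'.1|)| ≤ |bc y.1 - bc y'.1| := abs_abs_sub_abs_le_abs_sub _ _
  have hbE : |bc y.1 - bc y'.1| ≤ c / E := by
    rw [le_div_iff₀ E0]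
    exact (mul_le_mul_of_nonneg_left hE (abs_nonneg _)).trans h.hbe
  have hκ1 : |κ - 1| ≤ c * (R + 2) / E := by
    have h4 : |κ - 1| * ((1 + |bc y.1| + ec y.1) * (1 + |bc y'.1|)) ≤ c * (R + 2) := by
      have h5 : |κ - 1| * ((1 + |bc y.1| + ec y.1) * (1 + |bc y'.1|))
          = |(κ - 1) * ((1 + |bc y.1| + ec y.1) * (1 + |bc y'.1|))| := by
        rw [abs_mul, abs_of_pos (mul_pos hAe hA')]
      rw [h5, h1]
      refine (abs_add_le _ _).trans ?_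
      rw [abs_mul, abs_mul, abs_of_pos hA, abs_of_nonneg he]
      have h6 := h.he
      rw [abs_sub_comm] at h6
      have h7 := mul_le_mul_of_nonneg_left h6 hA.le
      have h8 := mul_le_mul_of_nonneg_left hbb he
      have h9 := h.hbe
      have h10 : (1 + |bc y.1|) * c ≤ (1 + R) * c := mul_le_mul_of_nonneg_right (by linarith) hc
      linarith
    rw [le_div_iff₀ E0]
    refine le_trans ?_ h4
    apply mul_le_mul_of_nonneg_left _ (abs_nonneg _)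
    nlinarith [abs_nonneg (bc y.1), abs_nonneg (bc y'.1)]
  have hη : |eta y - κ * eta y'| ≤ c * (1 + R) / E := by
    have h7 : |eta y - κ * eta y'| * (1 + |bc y.1| + ec y.1) ≤ c * (1 + R) := by
      have h8 : |eta y - κ * eta y'| * (1 + |bc y.1| + ec y.1)
          = |(eta y - κ * eta y') * (1 + |bc y.1| + ec y.1)| := by
        rw [abs_mul, abs_of_pos hAe]
      rw [h8]
      have h9 : (eta y - κ * eta y') * (1 + |bc y.1| + ec y.1)
          = (y.2 - y'.2) * (1 + |bc y.1|) := h2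
      rw [h9, abs_mul, abs_of_pos hA]
      exact mul_le_mul h.ht (by linarith) hA.le hc
    rw [le_div_iff₀ E0]
    refine le_trans ?_ h7
    apply mul_le_mul_of_nonneg_left _ (abs_nonneg _)
    linarith [abs_nonneg (bc y.1)]
  have hηη : |eta y - eta y'| ≤ c * (1 + R) / E + c * (R + 2) / E * R := by
    have e1 : eta y - eta y' = (eta y - κ * eta y') + (κ - 1) * eta y' := by ring
    rw [e1]
    refine (abs_add_le _ _).trans (add_le_add hη ?_)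
    rw [abs_mul]
    exact mul_le_mul hκ1 hηR (abs_nonneg _) (by positivity)
  have hzz : ‖zeta y - zeta y'‖ ≤ C₅ / E := by
    rw [zeta_sub]
    refine (norm_le_abs_add_abs _ _).trans ?_
    have e1 : C₅ / E = c / E + (c * (1 + R) / E + c * (R + 2) / E * R) := by
      simp only [C₅]
      field_simp
      ring
    rw [e1]
    linarith
  have hzz1 : ‖zeta y - zeta y'‖ < δ := by
    refine hzz.trans_lt ?_
    rw [div_lt_iff₀ E0]
    rw [div_le_iff₀ hδ] at E2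
    linarith
  have hzz2 : ‖zeta y - zeta y'‖ ≤ ε / 2 := by
    refine hzz.trans ?_
    rw [div_le_iff₀ E0]
    rw [div_le_iff₀ hε] at E3
    linarith
  rw [Prod.dist_eq]
  apply max_le
  · rw [Pm_fst, Pm_fst]
    exact (hδ' (zeta y) (by simpa using hζ) (zeta y') (by simpa using hζ') (by
      rw [dist_eq_norm]; exact hzz1)).le
  · rw [Pm_snd, Pm_snd, Real.dist_eq]
    have t0' := tanh_nonneg' he'
    have t1 := (Real.tanh_lt_one (ec y.1)).le
    have t1' := (Real.tanh_lt_one (ec y'.1)).le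
    have hey : 0 < ec y.1 := by linarith
    have hey' : 0 < ec y'.1 := by linarith
    have s1 := one_sub_tanh_le hey
    have s2 := one_sub_tanh_le hey'
    have s3 : 1 / ec y.1 ≤ 1 / E := one_div_le_one_div_of_le E0 hE
    have s4 : 1 / ec y'.1 ≤ 1 / E := one_div_le_one_div_of_le E0 hE'
    have s5 : 1 / E ≤ ε / 2 := by
      rw [div_le_iff₀ E0]
      rw [div_le_iff₀ hε] at E4
      linarith
    have hta : |Real.tanh (ec y.1) - Real.tanh (ec y'.1)| ≤ ε / 2 := by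
      rw [abs_le]
      constructor <;> linarith
    have hn : |‖zeta y'‖ - ‖zeta y‖| ≤ ε / 2 := by
      rw [abs_sub_comm]
      exact (abs_norm_sub_norm_le _ _).trans hzz2
    have p1 : 0 < 1 + ‖zeta y‖ := by positivity
    have p2 : 0 < 1 + ‖zeta y'‖ := by positivity
    have e1 : Real.tanh (ec y.1) / (1 + ‖zeta y‖) - Real.tanh (ec y'.1) / (1 + ‖zeta y'‖) =
        (Real.tanh (ec y.1) - Real.tanh (ec y'.1)) / (1 + ‖zeta y‖) +
        Real.tanh (ec y'.1) * (‖zeta y'‖ - ‖zeta y‖) / ((1 + ‖zeta y‖) * (1 + ‖zeta y'‖)) := by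
      field_simp
      ring
    rw [e1]
    refine (abs_add_le _ _).trans ?_
    rw [abs_div, abs_div, abs_mul, abs_of_pos p1, abs_of_pos (mul_pos p1 p2), abs_of_nonneg t0']
    have r1 : |Real.tanh (ec y.1) - Real.tanh (ec y'.1)| / (1 + ‖zeta y‖) ≤ ε / 2 :=
      (div_le_self (abs_nonneg _) (by linarith [norm_nonneg (zeta y)])).trans hta
    have r2 : Real.tanh (ec y'.1) * |‖zeta y'‖ - ‖zeta y‖| /
        ((1 + ‖zeta y‖) * (1 + ‖zeta y'‖)) ≤ ε / 2 := by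
      have r3 : 1 ≤ (1 + ‖zeta y‖) * (1 + ‖zeta y'‖) := by
        nlinarith [norm_nonneg (zeta y), norm_nonneg (zeta y'),
          mul_nonneg (norm_nonneg (zeta y)) (norm_nonneg (zeta y'))]
      refine (div_le_self (by positivity) r3).trans ?_
      exact (mul_le_of_le_one_left (abs_nonneg _) t1').trans hn
    linarith

/-- The compact exhaustion. -/
theorem exists_compact (R E : ℝ) : ∃ M : Set Y, IsCompact M ∧
    ∀ y : Y, ‖zeta y‖ ≤ R → ec y.1 ≤ E → y ∈ M := by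
  let M₁ : Set V := (fun q : ℝ × ℝ => Lam q.1 q.2) '' (Icc (-R) R ×ˢ Icc 0 E)
  have hM₁ : IsCompact M₁ := (isCompact_Icc.prod isCompact_Icc).image continuous_Lam
  let M₂ : Set ↥Th := Subtype.val ⁻¹' M₁
  have hM₂ : IsCompact M₂ := isClosed_Th.isClosedEmbedding_subtypeVal.isCompact_preimage hM₁
  refine ⟨M₂ ×ˢ Icc (-(R * (1 + E))) (R * (1 + E)), hM₂.prod isCompact_Icc, ?_⟩
  intro y hR hE
  have he := ec_nonneg y.1.2
  have hb : |bc y.1| ≤ R := by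
    rw [← zeta_re]
    exact (Complex.abs_re_le_norm _).trans hR
  have hη : |eta y| ≤ R := by
    rw [← zeta_im]
    exact (Complex.abs_im_le_norm _).trans hR
  refine ⟨⟨(bc y.1, ec y.1), ⟨abs_le.1 hb, he, hE⟩, Lam_coord y.1.2⟩, ?_⟩
  have h1 : y.2 = eta y * ((1 + |bc y.1| + ec y.1) / (1 + |bc y.1|)) := by
    rw [eta]
    have h2 := denom_pos y
    have h3 : 0 < 1 + |bc y.1| := by positivity
    field_simp
  have h2 : (1 + |bc y.1| + ec y.1) / (1 + |bc y.1|) ≤ 1 + E := by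
    rw [div_le_iff₀ (by positivity)]
    nlinarith [abs_nonneg (bc y.1), mul_nonneg (he.trans hE) (abs_nonneg (bc y.1))]
  have h3 : 0 ≤ (1 + |bc y.1| + ec y.1) / (1 + |bc y.1|) := by positivity
  have h4 : |y.2| ≤ R * (1 + E) := by
    rw [h1, abs_mul, abs_of_nonneg h3]
    exact mul_le_mul hη h2 h3 ((abs_nonneg _).trans hη)
  exact abs_le.1 h4

/-- The main estimate. -/
theorem null_estimate (hω : Continuous ω) (hs : Slow ω) (C ε : ℝ) (hC : 0 ≤ C) (hε : 0 < ε) :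
    ∃ M : Set Y, IsCompact M ∧ ∀ y y' : Y, y ∉ M → y' ∉ M → -B y.1 y'.1 ≤ C →
      |y.2 - y'.2| ≤ C → dist (Pm ω y) (Pm ω y') ≤ ε := by
  obtain ⟨R, hR⟩ := far_case hs (2 * √C + C) ε hε
  obtain ⟨E, hE⟩ := high_case hω (2 * √C + C) ε R hε
  obtain ⟨M, hM, hM'⟩ := exists_compact R E
  refine ⟨M, hM, fun y y' hy hy' hB ht => ?_⟩
  have hn : Near (2 * √C + C) y y' := near_of_dist hC hB ht
  have hn' : Near (2 * √C + C) y' y := near_of_dist hC (by rw [B_symm]; exact hB) (by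
    rw [abs_sub_comm]; exact ht)
  rcases le_total R ‖zeta y‖ with h1 | h1
  · exact hR y y' hn h1
  rcases le_total R ‖zeta y'‖ with h2 | h2
  · rw [dist_comm]
    exact hR y' y hn' h2
  have h3 : E ≤ ec y.1 := by
    by_contra hcon
    push Not at hcon
    exact hy (hM' y h1 hcon.le)
  have h4 : E ≤ ec y'.1 := by
    by_contra hcon
    push Not at hcon
    exact hy' (hM' y' h2 hcon.le)
  exact hE y y' hn h1 h2 h3 h4

end ZBdry.Tw
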