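import Pool.Agent.Helper81.CENull

/-!
# The Z-structures, and the path-connected boundary
-/

open Set Topology
open scoped unitInterval

namespace ZBdry.Tw

open ZBdry.Cox

variable {ω : ℝ → ℝ}

/-- The transported action. -/
@[reducible] noncomputable def trAct (hω : Continuous ω) : MulAction G ↥((Zt ω)ᶜ) where
  smul g p := Psi hω (g • (Psi hω).symm p)
  one_smul p := by
    show Psi hω ((1 : G) • (Psi hω).symm p) = p
    rw [one_smul, Homeomorph.apply_symm_apply]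
  mul_smul g g' p := by
    show Psi hω ((g * g') • (Psi hω).symm p) =
      Psi hω (g • (Psi hω).symm (Psi hω (g' • (Psi hω).symm p)))
    rw [Homeomorph.symm_apply_apply, mul_smul]

theorem isZStructure (hω : Continuous ω) (hs : Slow ω) : IsZStructure G ↥(Xt ω) (Zt ω) := by
  refine ⟨retract_Xt hω, isZSet_Zt hω, trAct hω, ?_, ?_, ?_, ?_⟩
  · intro g
    exact (Psi hω).continuous.comp ((continuous_const_smul g).comp (Psi hω).symm.continuous)
  · intro p
    obtain ⟨U, hU, hyU, h⟩ := covering ((Psi hω).symm p)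
    refine ⟨(Psi hω).symm ⁻¹' U, hU.preimage (Psi hω).symm.continuous, hyU, fun g hg => ?_⟩
    rw [Set.disjoint_left]
    rintro _ ⟨q, hq, rfl⟩ hq'
    have h1 : (Psi hω).symm (Psi hω (g • (Psi hω).symm q)) ∈ U := hq'
    rw [Homeomorph.symm_apply_apply] at h1
    exact Set.disjoint_left.1 (h g hg) ⟨_, hq, rfl⟩ h1
  · obtain ⟨C, hC, hcov⟩ := cocompact
    let _ := trAct hω
    have hC' : IsCompact (Psi hω '' C) := hC.image (Psi hω).continuous
    have hq : Continuous (Quotient.mk (MulAction.orbitRel G ↥((Zt ω)ᶜ))) := continuous_quot_mk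
    refine ⟨?_⟩
    have h1 : (univ : Set (MulAction.orbitRel.Quotient G ↥((Zt ω)ᶜ))) =
        Quotient.mk (MulAction.orbitRel G ↥((Zt ω)ᶜ)) '' (Psi hω '' C) := by
      symm
      rw [eq_univ_iff_forall]
      intro x
      induction x using Quotient.inductionOn with
      | h p =>
        obtain ⟨g, hg⟩ := hcov ((Psi hω).symm p)
        refine ⟨Psi hω (g • (Psi hω).symm p), ⟨_, hg, rfl⟩, ?_⟩
        apply Quotient.sound
        exact ⟨g, rfl⟩
    rw [h1]
    exact hC'.image hq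
  · intro K' hK' ε hε
    let L : Set Y := (Psi hω).symm '' K'
    have hL : IsCompact L := hK'.image (Psi hω).symm.continuous
    have hcB : Continuous fun q : Y × Y => -B q.1.1 q.2.1 := by
      apply Continuous.neg
      exact continuous_B.comp ((continuous_subtype_val.comp (continuous_fst.comp
        continuous_fst)).prodMk (continuous_subtype_val.comp (continuous_fst.comp continuous_snd)))
    have hct : Continuous fun q : Y × Y => |q.1.2 - q.2.2| := by fun_prop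
    obtain ⟨C₁, hC₁⟩ := (hL.prod hL).bddAbove_image hcB.continuousOn
    obtain ⟨C₂, hC₂⟩ := (hL.prod hL).bddAbove_image hct.continuousOn
    let C : ℝ := max 0 (max C₁ C₂)
    obtain ⟨M, hM, hM'⟩ := null_estimate hω hs C ε (le_max_left _ _) hε
    refine (ProperlyDiscontinuousSMul.finite_disjoint_inter_image (Γ := G) hL hM).subset ?_
    intro g hg
    have hg' : ε < Metric.diam ((fun y : ↥((Zt ω)ᶜ) =>
      ((Psi hω (g • (Psi hω).symm y) : ↥((Zt ω)ᶜ)) : ↥(Xt ω))) '' K') := hg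
    by_contra hcon
    have hempty : ∀ y ∈ L, g • y ∉ M := by
      intro y hy hyM
      exact hcon ⟨g • y, ⟨y, hy, rfl⟩, hyM⟩
    apply absurd hg'
    rw [not_lt]
    apply Metric.diam_le_of_forall_dist_le hε.le
    rintro _ ⟨p, hp, rfl⟩ _ ⟨p', hp', rfl⟩
    have hpL : (Psi hω).symm p ∈ L := ⟨p, hp, rfl⟩
    have hpL' : (Psi hω).symm p' ∈ L := ⟨p', hp', rfl⟩
    have h1 := hM' (g • (Psi hω).symm p) (g • (Psi hω).symm p') (hempty _ hpL) (hempty _ hpL') (by
      have h2 := hC₁ ⟨((Psi hω).symm p, (Psi hω).symm p'), ⟨hpL, hpL'⟩, rfl⟩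
      have h3 : -B (g • (Psi hω).symm p).1.1 (g • (Psi hω).symm p').1.1 =
          -B ((Psi hω).symm p).1.1 ((Psi hω).symm p').1.1 := by
        rw [smul_fst, smul_fst, smul_coe, smul_coe, G0_B]
      rw [h3]
      exact h2.trans ((le_max_left _ _).trans (le_max_right _ _))) (by
      have h2 := hC₂ ⟨((Psi hω).symm p, (Psi hω).symm p'), ⟨hpL, hpL'⟩, rfl⟩
      have h3 : (g • (Psi hω).symm p).2 - (g • (Psi hω).symm p').2 =
          ((Psi hω).symm p).2 - ((Psi hω).symm p').2 := by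
        rw [smul_snd, smul_snd]; ring
      rw [h3]
      exact h2.trans ((le_max_right _ _).trans (le_max_right _ _)))
    exact h1

/-- The boundary of the twisted structure is a Z-structure boundary of `G`. -/
theorem isZBoundary (hω : Continuous ω) (hs : Slow ω) : IsZBoundary G ↥(Zt ω) :=
  ⟨↥(Xt ω), inferInstance, Zt ω, isZStructure hω hs, ⟨Homeomorph.refl _⟩⟩

/-! ### Points of the boundary -/

theorem mem_Xt_of {w : ℂ} (h1 : ‖w‖ ≤ 1) (h2 : ‖w‖ < 1 → ff (kk ω w).re = 1) :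
    ((w, 1 - ‖w‖) : ℂ × ℝ) ∈ Xt ω := by
  refine ⟨h1, by show 0 ≤ 1 - ‖w‖; linarith, ?_⟩
  show 1 - ‖w‖ ≤ Phi ω w
  rcases h1.lt_or_eq with h | h
  · rw [Phi_of_lt h, h2 h, mul_one]
  · rw [h, sub_self]
    exact Phi_nonneg _

/-- The boundary point over `w`. -/
noncomputable def zp {w : ℂ} (h1 : ‖w‖ ≤ 1) (h2 : ‖w‖ < 1 → ff (kk ω w).re = 1) : ↥(Zt ω) :=
  ⟨⟨(w, 1 - ‖w‖), mem_Xt_of h1 h2⟩, rfl⟩

/-- The planar coordinate of a boundary point. -/
noncomputable def wc (p : ↥(Zt ω)) : ℂ := p.1.1.1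

theorem continuous_wc : Continuous (wc (ω := ω)) :=
  continuous_fst.comp (continuous_subtype_val.comp continuous_subtype_val)

theorem wc_le (p : ↥(Zt ω)) : ‖wc p‖ ≤ 1 := p.1.2.1

theorem wc_ff (p : ↥(Zt ω)) (h : ‖wc p‖ < 1) : ff (kk ω (wc p)).re = 1 := by
  have h1 : p.1.1.2 = 1 - ‖p.1.1.1‖ := p.2
  have h2 := p.1.2.2.2
  have h3 : ‖p.1.1.1‖ < 1 := h
  rw [h1, Phi_of_lt h3] at h2
  have h4 := ff_le_one (kk ω (wc p)).re
  have h5 : 0 < 1 - ‖p.1.1.1‖ := by linarith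
  apply le_antisymm h4
  have h6 : (1 - ‖p.1.1.1‖) * 1 ≤ (1 - ‖p.1.1.1‖) * ff (kk ω (wc p)).re := by
    rw [mul_one]; exact h2
  exact le_of_mul_le_mul_left h6 h5

theorem eq_zp (p : ↥(Zt ω)) : p = zp (wc_le p) (wc_ff p) := by
  apply Subtype.ext
  apply Subtype.ext
  apply Prod.ext
  · rfl
  · exact p.2

theorem zp_congr {w w' : ℂ} (h : w = w') (h1 : ‖w‖ ≤ 1) (h2 : ‖w‖ < 1 → ff (kk ω w).re = 1)
    (h1' : ‖w'‖ ≤ 1) (h2' : ‖w'‖ < 1 → ff (kk ω w').re = 1) : zp h1 h2 = zp h1' h2' := by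
  subst h
  rfl

theorem joined_of_path (c : I → ℂ) (hc : Continuous c) (h1 : ∀ t, ‖c t‖ ≤ 1)
    (h2 : ∀ t, ‖c t‖ < 1 → ff (kk ω (c t)).re = 1) : Joined (zp (h1 0) (h2 0)) (zp (h1 1) (h2 1)) := by
  refine ⟨⟨⟨fun t => zp (h1 t) (h2 t), ?_⟩, rfl, rfl⟩⟩
  apply Continuous.subtype_mk
  apply Continuous.subtype_mk
  exact hc.prodMk (continuous_const.sub (continuous_norm.comp hc))

theorem norm_I_le : ‖Complex.I‖ ≤ 1 := by rw [Complex.norm_I]
theorem norm_I_not (ω : ℝ → ℝ) : ‖Complex.I‖ < 1 → ff (kk ω Complex.I).re = 1 := by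
  rw [Complex.norm_I]
  intro h
  exact absurd h (lt_irrefl _)

theorem kk_zero' (w : ℂ) : kk (fun _ => 0) w = ((1 / (1 - ‖w‖) : ℝ) : ℂ) * w := by
  simp [kk]

theorem joined_circle {w : ℂ} (h1 : ‖w‖ ≤ 1) (h2 : ‖w‖ < 1 → ff (kk ω w).re = 1)
    (hw : ‖w‖ = 1) : Joined (zp h1 h2) (zp norm_I_le (norm_I_not ω)) := by
  let c : I → ℂ := fun t =>
    Complex.exp ((((1 - (t : ℝ)) * Complex.arg w + t * (Real.pi / 2) : ℝ) : ℂ) * Complex.I)
  have hn : ∀ t, ‖c t‖ = 1 := fun t => Complex.norm_exp_ofReal_mul_I _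
  have hc : Continuous c := by
    show Continuous fun t : I =>
      Complex.exp ((((1 - (t : ℝ)) * Complex.arg w + t * (Real.pi / 2) : ℝ) : ℂ) * Complex.I)
    fun_prop
  have hJ := joined_of_path (ω := ω) c hc (fun t => (hn t).le)
    (fun t h => absurd (hn t) h.ne)
  have e0 : c 0 = w := by
    show Complex.exp ((((1 - ((0 : I) : ℝ)) * Complex.arg w + ((0 : I) : ℝ) * (Real.pi / 2) : ℝ) :
      ℂ) * Complex.I) = w
    rw [show ((0 : I) : ℝ) = 0 from rfl, sub_zero, one_mul, zero_mul, add_zero]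
    have := Complex.norm_mul_exp_arg_mul_I w
    rw [hw] at this
    simpa using this
  have e1 : c 1 = Complex.I := by
    show Complex.exp ((((1 - ((1 : I) : ℝ)) * Complex.arg w + ((1 : I) : ℝ) * (Real.pi / 2) : ℝ) :
      ℂ) * Complex.I) = Complex.I
    rw [show ((1 : I) : ℝ) = 1 from rfl, sub_self, zero_mul, zero_add, one_mul]
    push_cast
    exact Complex.exp_pi_div_two_mul_I
  rw [zp_congr e0 _ _ h1 h2, zp_congr e1 _ _ norm_I_le (norm_I_not ω)] at hJ
  exact hJ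

theorem joined_line {w : ℂ} (h1 : ‖w‖ ≤ 1)
    (h2 : ‖w‖ < 1 → ff (kk (fun _ => 0) w).re = 1) (hw : ‖w‖ < 1) :
    Joined (zp h1 h2) (zp norm_I_le (norm_I_not (fun _ => 0))) := by
  have hw' : 0 < 1 - ‖w‖ := by linarith
  let ζ : ℂ := kk (fun _ => 0) w
  let N : I → ℂ := fun t => ((1 - (t : ℝ) : ℝ) : ℂ) * ζ + ((t : ℝ) : ℂ) * Complex.I
  have hN : Continuous N := by
    show Continuous fun t : I => ((1 - (t : ℝ) : ℝ) : ℂ) * ζ + ((t : ℝ) : ℂ) * Complex.I
    fun_prop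
  let D : I → ℝ := fun t => (1 - (t : ℝ)) + ‖N t‖
  have hD : ∀ t, 0 < D t := by
    intro t
    rcases t.2.2.lt_or_eq with h | h
    · have : 0 ≤ ‖N t‖ := norm_nonneg _
      show 0 < (1 - (t : ℝ)) + ‖N t‖
      linarith
    · have e : N t = Complex.I := by
        simp only [N]
        rw [h]
        simp
      show 0 < (1 - (t : ℝ)) + ‖N t‖
      rw [e, h, Complex.norm_I]
      norm_num
  have hDc : Continuous D := by
    show Continuous fun t : I => (1 - (t : ℝ)) + ‖N t‖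
    fun_prop
  let c : I → ℂ := fun t => ((1 / D t : ℝ) : ℂ) * N t
  have hc : Continuous c := by
    apply Continuous.mul _ hN
    apply Complex.continuous_ofReal.comp
    exact continuous_const.div hDc fun t => (hD t).ne'
  have hcn : ∀ t, ‖c t‖ = ‖N t‖ / D t := by
    intro t
    show ‖((1 / D t : ℝ) : ℂ) * N t‖ = _
    rw [norm_mul, Complex.norm_real, Real.norm_of_nonneg (by have := hD t; positivity)]
    ring
  have hc1 : ∀ t, 1 - ‖c t‖ = (1 - (t : ℝ)) / D t := by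
    intro t
    rw [hcn]
    have := (hD t).ne'
    field_simp
    simp only [D]
    ring
  have hcle : ∀ t, ‖c t‖ ≤ 1 := by
    intro t
    have h3 : 0 ≤ (1 - (t : ℝ)) / D t := div_nonneg (by linarith [t.2.2]) (hD t).le
    rw [← hc1] at h3
    linarith
  have hff : ∀ t, ‖c t‖ < 1 → ff (kk (fun _ => 0) (c t)).re = 1 := by
    intro t ht
    have h3 : 0 < (1 - (t : ℝ)) / D t := by
      rw [← hc1]; linarith
    have h4 : 0 < 1 - (t : ℝ) := by
      by_contra hcon
      push Not at hcon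
      have := div_nonpos_of_nonpos_of_nonneg hcon (hD t).le
      linarith
    have h5 : kk (fun _ => 0) (c t) = ζ + (((t : ℝ) / (1 - (t : ℝ)) : ℝ) : ℂ) * Complex.I := by
      rw [kk_zero', hc1, one_div_div]
      simp only [c, N]
      have h6 : ((D t : ℝ) : ℂ) ≠ 0 := by exact_mod_cast (hD t).ne'
      have h7 : ((1 - (t : ℝ) : ℝ) : ℂ) ≠ 0 := by exact_mod_cast h4.ne'
      rw [Complex.ofReal_div, Complex.ofReal_div, Complex.ofReal_div, Complex.ofReal_one]
      field_simp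
    rw [h5]
    have h6 : (ζ + (((t : ℝ) / (1 - (t : ℝ)) : ℝ) : ℂ) * Complex.I).re = ζ.re := by
      rw [Complex.add_re, Complex.re_ofReal_mul, Complex.I_re, mul_zero, add_zero]
    rw [h6]
    exact h2 hw
  have hJ := joined_of_path c hc hcle hff
  have e0 : c 0 = w := by
    have h3 : N 0 = ζ := by simp [N]
    have h4 : D 0 = 1 + ‖ζ‖ := by simp [D, h3]
    show ((1 / D 0 : ℝ) : ℂ) * N 0 = w
    rw [h3, h4]
    have h5 : hh (fun _ => 0) ζ = w := hh_kk hw
    have h6 : hh (fun _ => 0) ζ = ((1 / (1 + ‖ζ‖) : ℝ) : ℂ) * ζ := by simp [hh]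
    rw [← h6, h5]
  have e1 : c 1 = Complex.I := by
    have h3 : N 1 = Complex.I := by simp [N]
    have h4 : D 1 = 1 := by simp [D, h3]
    show ((1 / D 1 : ℝ) : ℂ) * N 1 = Complex.I
    rw [h3, h4]
    simp
  rw [zp_congr e0 _ _ h1 h2, zp_congr e1 _ _ norm_I_le (norm_I_not (fun _ => 0))] at hJ
  exact hJ

theorem pathConnected_Zt_zero : PathConnectedSpace ↥(Zt (fun _ => (0 : ℝ))) := by
  have key : ∀ p : ↥(Zt (fun _ => (0 : ℝ))),
      Joined p (zp norm_I_le (norm_I_not (fun _ => 0))) := by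
    intro p
    rw [eq_zp p]
    rcases (wc_le p).lt_or_eq with h | h
    · exact joined_line _ _ h
    · exact joined_circle _ _ h
  exact ⟨⟨zp norm_I_le (norm_I_not (fun _ => 0))⟩, fun x y => (key x).trans (key y).symm⟩

end ZBdry.Tw
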