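import Pool.Agent.Helper81.CEStruct
import Pool.Agent.Helper81.CENonCE

/-!
# The twisted boundary
-/

open Set Topology
open scoped unitInterval

namespace ZBdry.Tw

open ZBdry.Cox

/-- The twisting function. -/
noncomputable def tw (ρ : ℝ) : ℝ := Real.log (1 + Real.log (1 + |ρ|))

theorem log_nonneg' (ρ : ℝ) : 0 ≤ Real.log (1 + |ρ|) :=
  Real.log_nonneg (by linarith [abs_nonneg ρ])

theorem continuous_tw : Continuous tw := by
  have h1 : Continuous fun ρ : ℝ => Real.log (1 + |ρ|) :=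
    Continuous.log (by fun_prop) fun ρ => by
      have := abs_nonneg ρ
      positivity
  exact Continuous.log (by fun_prop) fun ρ => by
    have := log_nonneg' ρ
    positivity

theorem log_diff_le {x y : ℝ} (hx : 0 < x) (hy : 0 < y) : Real.log x - Real.log y ≤ (x - y) / y := by
  rw [← Real.log_div hx.ne' hy.ne']
  have h1 := Real.log_le_sub_one_of_pos (div_pos hx hy)
  have h2 : x / y - 1 = (x - y) / y := by
    field_simp
  linarith

theorem slow_tw : Slow tw := by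
  intro K hK ε hε
  let k : ℝ := Real.log (max K 1)
  have hk : 0 ≤ k := Real.log_nonneg (le_max_right _ _)
  have hK1 : 0 < max K 1 := by positivity
  refine ⟨max 1 (Real.exp (k / ε + k)), ?_⟩
  intro ρ ρ' hR h1 h2
  have hρ1 : 1 ≤ ρ := (le_max_left _ _).trans hR
  have hρe : Real.exp (k / ε + k) ≤ ρ := (le_max_right _ _).trans hR
  have hρ' : 0 < ρ' := by
    by_contra hcon
    push Not at hcon
    have := mul_nonpos_of_nonneg_of_nonpos hK.le hcon
    linarith
  have hρ : 0 < ρ := by linarith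
  have e1 : |ρ| = ρ := abs_of_pos hρ
  have e2 : |ρ'| = ρ' := abs_of_pos hρ'
  simp only [tw, e1, e2]
  have hL : 0 ≤ Real.log (1 + ρ) := Real.log_nonneg (by linarith)
  have hL' : 0 ≤ Real.log (1 + ρ') := Real.log_nonneg (by linarith)
  have b1 : Real.log (1 + ρ) ≤ k + Real.log (1 + ρ') := by
    simp only [k]
    rw [← Real.log_mul hK1.ne' (by positivity)]
    apply Real.log_le_log (by positivity)
    have h3 : K * ρ' ≤ max K 1 * ρ' := mul_le_mul_of_nonneg_right (le_max_left _ _) hρ'.le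
    have h4 : (1 : ℝ) ≤ max K 1 := le_max_right _ _
    nlinarith
  have b2 : Real.log (1 + ρ') ≤ k + Real.log (1 + ρ) := by
    simp only [k]
    rw [← Real.log_mul hK1.ne' (by positivity)]
    apply Real.log_le_log (by positivity)
    have h3 : K * ρ ≤ max K 1 * ρ := mul_le_mul_of_nonneg_right (le_max_left _ _) hρ.le
    have h4 : (1 : ℝ) ≤ max K 1 := le_max_right _ _
    nlinarith
  have b3 : k / ε + k ≤ Real.log (1 + ρ) := by
    rw [Real.le_log_iff_exp_le (by positivity)]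
    linarith
  have c1 := log_diff_le (x := 1 + Real.log (1 + ρ)) (y := 1 + Real.log (1 + ρ'))
    (by positivity) (by positivity)
  have c2 := log_diff_le (x := 1 + Real.log (1 + ρ')) (y := 1 + Real.log (1 + ρ))
    (by positivity) (by positivity)
  have hke : k / ε * ε = k := by field_simp
  have d1 : (1 + Real.log (1 + ρ) - (1 + Real.log (1 + ρ'))) / (1 + Real.log (1 + ρ')) ≤ ε := by
    rw [div_le_iff₀ (by positivity)]
    have : k / ε ≤ Real.log (1 + ρ') := by linarith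
    nlinarith
  have d2 : (1 + Real.log (1 + ρ') - (1 + Real.log (1 + ρ))) / (1 + Real.log (1 + ρ)) ≤ ε := by
    rw [div_le_iff₀ (by positivity)]
    have : k / ε ≤ Real.log (1 + ρ) := by linarith
    nlinarith
  rw [abs_le]
  constructor <;> linarith

theorem slow_zero : Slow (fun _ => (0 : ℝ)) := by
  intro K _ ε hε
  exact ⟨0, fun _ _ _ _ _ => by simpa using hε.le⟩

/-- The twisting function is unbounded. -/
theorem tw_bound (T : ℝ) : ∃ R : ℝ, 0 ≤ R ∧ ∀ ρ : ℝ, 0 ≤ ρ → tw ρ ≤ T → ρ ≤ R := by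
  refine ⟨Real.exp (Real.exp T), (Real.exp_pos _).le, fun ρ hρ h => ?_⟩
  simp only [tw, abs_of_nonneg hρ] at h
  have h1 : 0 ≤ Real.log (1 + ρ) := Real.log_nonneg (by linarith)
  rw [Real.log_le_iff_le_exp (by positivity)] at h
  have h2 : Real.log (1 + ρ) ≤ Real.exp T := by linarith
  rw [Real.log_le_iff_le_exp (by positivity)] at h2
  linarith

theorem kk_ne_zero (p : ↥(Zt tw)) (h : ‖wc p‖ < 1) : kk tw (wc p) ≠ 0 := by
  intro h0
  have h1 := wc_ff p h
  rw [h0] at h1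
  exact ff_zero_ne h1

theorem wc_ne_zero (p : ↥(Zt tw)) : wc p ≠ 0 := by
  intro h0
  have h : ‖wc p‖ < 1 := by rw [h0, norm_zero]; norm_num
  apply kk_ne_zero p h
  rw [h0]
  simp [kk]

theorem norm_unit (p : ↥(Zt tw)) : ‖((1 / ‖wc p‖ : ℝ) : ℂ) * wc p‖ = 1 := by
  have h : ‖wc p‖ ≠ 0 := norm_ne_zero_iff.2 (wc_ne_zero p)
  rw [norm_mul, Complex.norm_real, Real.norm_of_nonneg (by positivity), one_div_mul_cancel h]

/-- The angle map of the twisted boundary. -/
noncomputable def am : C(↥(Zt tw), Circle) where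
  toFun p := ⟨((1 / ‖wc p‖ : ℝ) : ℂ) * wc p, mem_sphere_zero_iff_norm.2 (norm_unit p)⟩
  continuous_toFun := by
    apply Continuous.subtype_mk
    apply Continuous.mul _ continuous_wc
    apply Complex.continuous_ofReal.comp
    exact continuous_const.div (continuous_norm.comp continuous_wc)
      fun p => norm_ne_zero_iff.2 (wc_ne_zero p)

theorem am_coe (p : ↥(Zt tw)) : ((am p : Circle) : ℂ) = ((1 / ‖wc p‖ : ℝ) : ℂ) * wc p := rfl

theorem polar_identity {ζ : ℂ} (hζ : 0 < ‖ζ‖) :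
    Complex.exp (((Complex.arg ζ + tw ‖ζ‖ : ℝ) : ℂ) * Complex.I) =
      ((1 / (‖ζ‖ / (1 + ‖ζ‖)) : ℝ) : ℂ) * hh tw ζ := by
  have h1 : ((1 / (‖ζ‖ / (1 + ‖ζ‖)) : ℝ) : ℂ) * ((1 / (1 + ‖ζ‖) : ℝ) : ℂ)
      = ((1 / ‖ζ‖ : ℝ) : ℂ) := by
    rw [← Complex.ofReal_mul]
    congr 1
    field_simp
  have h2 : ((1 / ‖ζ‖ : ℝ) : ℂ) * ((‖ζ‖ : ℝ) : ℂ) = 1 := by
    rw [← Complex.ofReal_mul, one_div_mul_cancel hζ.ne', Complex.ofReal_one]
  have h3 := Complex.norm_mul_exp_arg_mul_I ζ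
  calc Complex.exp (((Complex.arg ζ + tw ‖ζ‖ : ℝ) : ℂ) * Complex.I)
      = 1 * (Complex.exp ((Complex.arg ζ : ℂ) * Complex.I) *
          Complex.exp (((tw ‖ζ‖ : ℝ) : ℂ) * Complex.I)) := by
        rw [one_mul, ← Complex.exp_add]
        congr 1
        push_cast
        ring
    _ = ((1 / ‖ζ‖ : ℝ) : ℂ) * (((‖ζ‖ : ℝ) : ℂ) * Complex.exp ((Complex.arg ζ : ℂ) * Complex.I)) *
          Complex.exp (((tw ‖ζ‖ : ℝ) : ℂ) * Complex.I) := by
        rw [← h2]; ring
    _ = ((1 / ‖ζ‖ : ℝ) : ℂ) * ζ * Complex.exp (((tw ‖ζ‖ : ℝ) : ℂ) * Complex.I) := by rw [h3]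
    _ = _ := by
        rw [← h1, hh]; ring

/-- The lifted angle on the lines. -/
noncomputable def psi (p : ↥(Zt tw)) : ℝ :=
  Complex.arg (kk tw (wc p)) + tw ‖kk tw (wc p)‖

theorem exp_psi (p : ↥(Zt tw)) (h : ‖wc p‖ < 1) : Circle.exp (psi p) = am p := by
  apply Circle.ext
  rw [Circle.coe_exp, am_coe, psi]
  have hw : hh tw (kk tw (wc p)) = wc p := hh_kk h
  have hρ : 0 < ‖kk tw (wc p)‖ := norm_pos_iff.2 (kk_ne_zero p h)
  have hn : ‖kk tw (wc p)‖ / (1 + ‖kk tw (wc p)‖) = ‖wc p‖ := by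
    rw [← norm_hh (ω := tw), hw]
  rw [polar_identity hρ, hn, hw]

/-- The sheet over the lines whose base coordinate is between `u` and `v`. -/
def VV (u v : ℝ) : Set (↥(Zt tw) × ℝ) :=
  {q | ‖wc q.1‖ < 1 ∧ (kk tw (wc q.1)).re ∈ Ioo u v ∧ q.2 = psi q.1}

/-- The total space of the infinite cyclic cover. -/
def EE : Set (↥(Zt tw) × ℝ) := {q | Circle.exp q.2 = am q.1}

theorem isClosed_EE : IsClosed EE :=
  isClosed_eq (Circle.exp.continuous.comp continuous_snd) (am.continuous.comp continuous_fst)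

theorem VV_subset (u v : ℝ) : VV u v ⊆ EE := by
  intro q hq
  show Circle.exp q.2 = am q.1
  rw [hq.2.2, exp_psi q.1 hq.1]

theorem mem_Ioo_of_Icc {u v : ℝ} (hu : ff u ≠ 1) (hv : ff v ≠ 1) {b : ℝ} (hb : ff b = 1)
    (h : b ∈ Icc u v) : b ∈ Ioo u v := by
  refine ⟨lt_of_le_of_ne h.1 ?_, lt_of_le_of_ne h.2 ?_⟩
  · rintro rfl
    exact hu hb
  · rintro rfl
    exact hv hb

/-- The closed truncations of the sheet. -/
theorem isClosed_trunc {u v s : ℝ} (hu : 0 < u) (hs : s < 1) :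
    IsClosed {q : ↥(Zt tw) × ℝ | ‖wc q.1‖ ≤ s ∧ (kk tw (wc q.1)).re ∈ Icc u v ∧ q.2 = psi q.1} := by
  let S₁ : Set (↥(Zt tw) × ℝ) := {q | ‖wc q.1‖ ≤ s}
  have hS₁ : IsClosed S₁ :=
    isClosed_le (continuous_norm.comp (continuous_wc.comp continuous_fst)) continuous_const
  have hk : ContinuousOn (fun q : ↥(Zt tw) × ℝ => kk tw (wc q.1)) S₁ := by
    intro q hq
    apply ContinuousAt.continuousWithinAt
    have h1 : ContinuousAt (kk tw) (wc q.1) :=
      continuousAt_kk continuous_tw (lt_of_le_of_lt hq hs)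
    exact ContinuousAt.comp (f := fun q : ↥(Zt tw) × ℝ => wc q.1) h1
      (continuous_wc.comp continuous_fst).continuousAt
  have hre : ContinuousOn (fun q : ↥(Zt tw) × ℝ => (kk tw (wc q.1)).re) S₁ :=
    Complex.continuous_re.comp_continuousOn hk
  let S₂ : Set (↥(Zt tw) × ℝ) := S₁ ∩ (fun q : ↥(Zt tw) × ℝ => (kk tw (wc q.1)).re) ⁻¹' Icc u v
  have hS₂ : IsClosed S₂ := hre.preimage_isClosed_of_isClosed hS₁ isClosed_Icc
  have hk2 : ContinuousOn (fun q : ↥(Zt tw) × ℝ => kk tw (wc q.1)) S₂ := hk.mono inter_subset_left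
  have hpsi : ContinuousOn (fun q : ↥(Zt tw) × ℝ => q.2 - psi q.1) S₂ := by
    apply ContinuousOn.sub continuousOn_snd
    apply ContinuousOn.add
    · intro q hq
      have h1 : ContinuousAt Complex.arg (kk tw (wc q.1)) := by
        apply Complex.continuousAt_arg
        left
        exact lt_of_lt_of_le hu hq.2.1
      exact ContinuousAt.comp_continuousWithinAt (f := fun q : ↥(Zt tw) × ℝ => kk tw (wc q.1))
        h1 (hk2 q hq)
    · exact continuous_tw.comp_continuousOn (continuous_norm.comp_continuousOn hk2)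
  have hS₃ := hpsi.preimage_isClosed_of_isClosed hS₂ (isClosed_singleton (x := (0 : ℝ)))
  convert hS₃ using 1
  ext q
  constructor
  · rintro ⟨h1, h2, h3⟩
    exact ⟨⟨h1, h2⟩, by show q.2 - psi q.1 = 0; rw [h3, sub_self]⟩
  · rintro ⟨⟨h1, h2⟩, h3⟩
    exact ⟨h1, h2, by have : q.2 - psi q.1 = 0 := h3; linarith⟩

theorem isClosed_VV {u v : ℝ} (hu : 0 < u) (hfu : ff u ≠ 1) (hfv : ff v ≠ 1) :
    IsClosed (VV u v) := by
  apply isClosed_of_closure_subset
  intro x hx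
  obtain ⟨R, hR0, hR⟩ := tw_bound (x.2 + 1 + Real.pi)
  let s : ℝ := R / (1 + R)
  have hs : s < 1 := by
    simp only [s]
    rw [div_lt_one (by linarith)]
    linarith
  have hopen : IsOpen {q : ↥(Zt tw) × ℝ | q.2 < x.2 + 1} :=
    isOpen_lt continuous_snd continuous_const
  have hx1 : x ∈ {q : ↥(Zt tw) × ℝ | q.2 < x.2 + 1} := by
    show x.2 < x.2 + 1
    linarith
  have hx2 := hopen.inter_closure ⟨hx1, hx⟩
  have hsub : {q : ↥(Zt tw) × ℝ | q.2 < x.2 + 1} ∩ VV u v ⊆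
      {q : ↥(Zt tw) × ℝ | ‖wc q.1‖ ≤ s ∧ (kk tw (wc q.1)).re ∈ Icc u v ∧ q.2 = psi q.1} := by
    rintro q ⟨h1, h2, h3, h4⟩
    refine ⟨?_, Ioo_subset_Icc_self h3, h4⟩
    have h1' : q.2 < x.2 + 1 := h1
    have h5 : tw ‖kk tw (wc q.1)‖ ≤ x.2 + 1 + Real.pi := by
      rw [h4, psi] at h1'
      have := Complex.neg_pi_lt_arg (kk tw (wc q.1))
      linarith
    have h6 := hR _ (norm_nonneg _) h5
    have h7 : ‖wc q.1‖ = ‖kk tw (wc q.1)‖ / (1 + ‖kk tw (wc q.1)‖) := by
      rw [← norm_hh (ω := tw), hh_kk h2]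
    rw [h7]
    simp only [s]
    rw [div_le_div_iff₀ (by positivity) (by linarith)]
    nlinarith
  have hx3 := closure_minimal hsub (isClosed_trunc (v := v) hu hs) hx2
  have hlt : ‖wc x.1‖ < 1 := lt_of_le_of_lt hx3.1 hs
  exact ⟨hlt, mem_Ioo_of_Icc hfu hfv (wc_ff x.1 hlt) hx3.2.1, hx3.2.2⟩

theorem isClosed_VV' {u v : ℝ} (hu : 0 < u) : IsClosed (EE \ VV u v) := by
  rw [← isOpen_compl_iff, isOpen_iff_mem_nhds]
  intro x hx
  by_cases hE : x ∈ EE
  · have hV : x ∈ VV u v := by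
      by_contra hcon
      exact hx ⟨hE, hcon⟩
    obtain ⟨h1, h2, h3⟩ := hV
    have hw : ContinuousAt (fun q : ↥(Zt tw) × ℝ => wc q.1) x :=
      (continuous_wc.comp continuous_fst).continuousAt
    have hk : ContinuousAt (fun q : ↥(Zt tw) × ℝ => kk tw (wc q.1)) x :=
      ContinuousAt.comp (f := fun q : ↥(Zt tw) × ℝ => wc q.1)
        (continuousAt_kk continuous_tw h1) hw
    have hre : ContinuousAt (fun q : ↥(Zt tw) × ℝ => (kk tw (wc q.1)).re) x :=
      Complex.continuous_re.continuousAt.comp hk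
    have harg : ContinuousAt (fun q : ↥(Zt tw) × ℝ => Complex.arg (kk tw (wc q.1))) x := by
      have h4 : ContinuousAt Complex.arg (kk tw (wc x.1)) := by
        apply Complex.continuousAt_arg
        left
        exact lt_trans hu h2.1
      exact ContinuousAt.comp (f := fun q : ↥(Zt tw) × ℝ => kk tw (wc q.1)) h4 hk
    have hpsi : ContinuousAt (fun q : ↥(Zt tw) × ℝ => q.2 - psi q.1) x := by
      apply ContinuousAt.sub continuousAt_snd
      apply ContinuousAt.add harg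
      exact continuous_tw.continuousAt.comp (continuous_norm.continuousAt.comp hk)
    have n1 : ∀ᶠ q in 𝓝 x, ‖wc q.1‖ < 1 :=
      (continuous_norm.continuousAt.comp hw).eventually_lt continuousAt_const h1
    have n2 : ∀ᶠ q in 𝓝 x, (kk tw (wc q.1)).re ∈ Ioo u v :=
      hre.eventually (Ioo_mem_nhds h2.1 h2.2)
    have n3 : ∀ᶠ q in 𝓝 x, q.2 - psi q.1 ∈ Ioo (-1 : ℝ) 1 := by
      apply hpsi.eventually
      have h5 : x.2 - psi x.1 = 0 := by rw [h3, sub_self]
      show ∀ᶠ y in 𝓝 (x.2 - psi x.1), y ∈ Ioo (-1 : ℝ) 1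
      rw [h5]
      exact Ioo_mem_nhds (by norm_num) (by norm_num)
    filter_upwards [n1, n2, n3] with q m1 m2 m3
    rintro ⟨hqE, hqV⟩
    apply hqV
    refine ⟨m1, m2, ?_⟩
    have h5 : Circle.exp q.2 = Circle.exp (psi q.1) := by
      rw [exp_psi q.1 m1]
      exact hqE
    obtain ⟨k, hk⟩ := Circle.exp_eq_exp.1 h5
    have h6 : q.2 - psi q.1 = k * (2 * Real.pi) := by linarith
    rw [h6] at m3
    have hpi := Real.pi_gt_three
    have hk0 : k = 0 := by
      by_contra hk0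
      rcases lt_or_gt_of_ne hk0 with h | h
      · have h7 : (k : ℝ) ≤ -1 := by exact_mod_cast (by omega : k ≤ -1)
        nlinarith [m3.1]
      · have h7 : (1 : ℝ) ≤ k := by exact_mod_cast (by omega : 1 ≤ k)
        nlinarith [m3.2]
    rw [hk0] at h6
    simp at h6
    linarith
  · have : EEᶜ ∈ 𝓝 x := isClosed_EE.isOpen_compl.mem_nhds hE
    filter_upwards [this] with q hq
    exact fun h => hq h.1

/-- The two boundaries are not cell-like equivalent. -/
theorem not_cellLikeEquivalent.{u} :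
    ¬ CellLikeEquivalent.{u} ↥(Zt (fun _ => (0 : ℝ))) ↥(Zt tw) := by
  obtain ⟨u, v, s, hu, hus, hsv, hfu, hfv, hfs⟩ := exists_gap
  have := pathConnected_Zt_zero
  have hζ : ∀ z : ℂ, z = ((s : ℝ) : ℂ) → ff (kk tw (hh tw z)).re = 1 := by
    intro z hz
    rw [kk_hh, hz, Complex.ofReal_re]
    exact hfs
  let p₁ : ↥(Zt tw) := zp (norm_hh_lt (ω := tw) ((s : ℝ) : ℂ)).le (fun _ => hζ _ rfl)
  have hp₁ : wc p₁ = hh tw ((s : ℝ) : ℂ) := rfl
  refine ZBdry.not_cellLikeEquivalent am (VV u v) (EE \ VV u v) (isClosed_VV hu hfu hfv)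
    (isClosed_VV' hu) disjoint_sdiff_right ?_ (zp norm_I_le (norm_I_not tw)) ?_
    (p₁, psi p₁) ?_
  · intro x τ
    constructor
    · intro h
      by_cases hV : (x, τ) ∈ VV u v
      · exact Or.inl hV
      · exact Or.inr ⟨h, hV⟩
    · rintro (h | h)
      · exact VV_subset u v h
      · exact h.1
  · intro τ h
    have h1 : ‖Complex.I‖ < 1 := h.1
    rw [Complex.norm_I] at h1
    exact lt_irrefl _ h1
  · refine ⟨?_, ?_, rfl⟩
    · show ‖wc p₁‖ < 1
      rw [hp₁]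
      exact norm_hh_lt _
    · show (kk tw (wc p₁)).re ∈ Ioo u v
      rw [hp₁, kk_hh, Complex.ofReal_re]
      exact ⟨hus, hsv⟩

end ZBdry.Tw
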