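import Pool.Agent.Helper81.CEDefs

/-!
# A criterion for Z-sets and for Euclidean retracts
-/

open Set Topology Module
open scoped unitInterval

namespace ZBdry

variable {X : Type*} [MetricSpace X]

/-- A nonnegative continuous function positive exactly on the open set `U`. -/
theorem exists_gauge (U : Set X) (hU : IsOpen U) :
    ∃ ρ : X → ℝ, Continuous ρ ∧ (∀ x, 0 ≤ ρ x) ∧ ∀ x, 0 < ρ x ↔ x ∈ U := by
  rcases (Uᶜ).eq_empty_or_nonempty with h | h
  · refine ⟨fun _ => 1, continuous_const, fun _ => zero_le_one, fun x => ?_⟩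
    have : x ∈ U := by
      by_contra hx
      have : x ∈ Uᶜ := hx
      rw [h] at this
      exact this
    simp [this]
  · refine ⟨fun x => Metric.infDist x Uᶜ, Metric.continuous_infDist_pt _,
      fun _ => Metric.infDist_nonneg, fun x => ?_⟩
    rw [← hU.isClosed_compl.notMem_iff_infDist_pos h]
    simp

/-- An instantaneous deformation off `Z` makes `Z` a Z-set. -/
theorem isZSet_of_deformation (Z : Set X) (hZ : IsCompact Z) (H : X × I → X)
    (hH : Continuous H) (h0 : ∀ x, H (x, 0) = x) (h1 : ∀ x (t : I), 0 < t → H (x, t) ∉ Z) :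
    IsZSet Z := by
  refine ⟨hZ, fun U hU => ?_⟩
  obtain ⟨ρ, hρc, hρ0, hρ⟩ := exists_gauge U hU
  let φ : X → I → ℝ := fun x t => (t : ℝ) + ρ (H (x, t))
  have hφ : Continuous ↿φ := by
    show Continuous fun p : X × I => (p.2 : ℝ) + ρ (H (p.1, p.2))
    fun_prop
  let m : X → ℝ := fun x => sInf (φ x '' univ)
  have hm : Continuous m := isCompact_univ.continuous_sInf hφ
  have hφx : ∀ x, Continuous (φ x) := fun x => by
    show Continuous fun t : I => (t : ℝ) + ρ (H (x, t))
    fun_prop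
  have hmle : ∀ x t, m x ≤ φ x t := fun x t =>
    csInf_le ((isCompact_univ.image (hφx x)).bddBelow) ⟨t, trivial, rfl⟩
  have hmpos : ∀ x ∈ U, 0 < m x := by
    intro x hx
    obtain ⟨t, _, ht⟩ := isCompact_univ.exists_sInf_image_eq (s := univ) ⟨(0 : I), trivial⟩
      (hφx x).continuousOn
    show 0 < sInf (φ x '' univ)
    rw [ht]
    show 0 < (t : ℝ) + ρ (H (x, t))
    rcases eq_or_lt_of_le t.2.1 with h | h
    · have ht0 : t = 0 := Subtype.ext h.symm
      rw [ht0, h0]
      have := (hρ x).2 hx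
      simpa using this
    · have := hρ0 (H (x, t))
      linarith
  have hm1 : ∀ x, m x ≤ 1 + ρ (H (x, 1)) := fun x => hmle x 1
  -- the time function
  let ε : X → ℝ := fun x => min 1 (m x / 2)
  have hε : Continuous ε := by fun_prop
  have hmnn : ∀ x, 0 ≤ m x := fun x => by
    apply Real.sInf_nonneg
    rintro _ ⟨t, _, rfl⟩
    exact add_nonneg t.2.1 (hρ0 _)
  have hεI : ∀ x, ε x ∈ I := fun x =>
    ⟨le_min zero_le_one (by have := hmnn x; positivity), min_le_left _ _⟩
  have hεpos : ∀ x ∈ U, 0 < ε x := fun x hx => lt_min one_pos (by have := hmpos x hx; positivity)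
  have hstay : ∀ x ∈ U, ∀ t : I, (t : ℝ) ≤ ε x → H (x, t) ∈ U := by
    intro x hx t ht
    rw [← hρ]
    have h2 := hmle x t
    have h3 : (t : ℝ) ≤ m x / 2 := ht.trans (min_le_right _ _)
    have h4 := hmpos x hx
    have h5 : φ x t = (t : ℝ) + ρ (H (x, t)) := rfl
    rw [h5] at h2
    linarith
  -- the time used in the homotopies
  let T : I × X → I := fun p => p.1 * ⟨ε p.2, hεI p.2⟩
  have hT : Continuous T := by
    apply Continuous.mul continuous_fst
    exact Continuous.subtype_mk (hε.comp continuous_snd) _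
  have hTle : ∀ p : I × X, (T p : ℝ) ≤ ε p.2 := by
    intro p
    have h2 : (T p : ℝ) = (p.1 : ℝ) * ε p.2 := rfl
    rw [h2]
    exact mul_le_of_le_one_left (hεI p.2).1 p.1.2.2
  have hT0 : ∀ x, T (0, x) = 0 := fun x => by simp [T]
  have hT1 : ∀ x, T (1, x) = ⟨ε x, hεI x⟩ := fun x => by simp [T]
  have hTpos : ∀ p : I × X, 0 < p.1 → p.2 ∈ U → 0 < T p := by
    intro p hp hpU
    have h2 : (T p : ℝ) = (p.1 : ℝ) * ε p.2 := rfl
    have h3 : (0 : ℝ) < T p := by
      rw [h2]
      exact mul_pos hp (hεpos _ hpU)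
    exact h3
  have hg : ∀ x ∈ U, H (x, T (1, x)) ∈ U \ Z := by
    intro x hx
    exact ⟨hstay x hx _ (hTle (1, x)), h1 x _ (hTpos (1, x) one_pos hx)⟩
  let g : C(↥U, ↥(U \ Z)) := ⟨fun x => ⟨H (x, T (1, x)), hg x x.2⟩, by
    apply Continuous.subtype_mk
    exact hH.comp (by fun_prop)⟩
  have hK1 : ∀ (s : I) (x : X), x ∈ U \ Z → H (x, T (s, x)) ∈ U \ Z := by
    intro s x hx
    refine ⟨hstay x hx.1 _ (hTle (s, x)), ?_⟩
    rcases eq_or_lt_of_le (unitInterval.nonneg s : (0 : ℝ) ≤ s) with h | h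
    · have hs : s = 0 := Subtype.ext h.symm
      rw [hs, hT0, h0]
      exact hx.2
    · exact h1 x _ (hTpos (s, x) h hx.1)
  refine ⟨g, ?_, ?_⟩
  · refine ContinuousMap.Homotopic.symm ⟨⟨⟨fun p => ⟨H (p.2, T (p.1, p.2)), hK1 p.1 p.2 p.2.2⟩,
      ?_⟩, ?_, ?_⟩⟩
    · apply Continuous.subtype_mk
      exact hH.comp (by fun_prop)
    · intro x
      apply Subtype.ext
      show H (x, T (0, x)) = x
      rw [hT0, h0]
    · intro x
      apply Subtype.ext
      rfl
  · refine ContinuousMap.Homotopic.symm ⟨⟨⟨fun p => ⟨H (p.2, T (p.1, p.2)),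
      hstay p.2 p.2.2 _ (hTle (p.1, p.2))⟩, ?_⟩, ?_, ?_⟩⟩
    · apply Continuous.subtype_mk
      exact hH.comp (by fun_prop)
    · intro x
      apply Subtype.ext
      show H (x, T (0, x)) = x
      rw [hT0, h0]
    · intro x
      apply Subtype.ext
      rfl

/-- A compact retract of a finite-dimensional normed space is a Euclidean retract. -/
theorem isEuclideanRetract_of_retract {E : Type*} [NormedAddCommGroup E] [NormedSpace ℝ E]
    [FiniteDimensional ℝ E] (S : Set E) (hS : IsCompact S) (r : E → E) (hr : Continuous r)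
    (hm : ∀ x, r x ∈ S) (hid : ∀ x ∈ S, r x = x) : IsEuclideanRetract ↥S := by
  let L : E ≃L[ℝ] EuclideanSpace ℝ (Fin (finrank ℝ E)) := toEuclidean
  refine ⟨isCompact_iff_compactSpace.1 hS, finrank ℝ E, fun x => L x.1,
    fun x => ⟨r (L.symm x), hm _⟩, ?_, ?_, ?_⟩
  · exact L.toHomeomorph.isEmbedding.comp IsEmbedding.subtypeVal
  · exact Continuous.subtype_mk (hr.comp L.symm.continuous) _
  · intro x
    apply Subtype.ext
    show r (L.symm (L x.1)) = x.1
    rw [ContinuousLinearEquiv.symm_apply_apply]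
    exact hid _ x.2

end ZBdry
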