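import Mathlib

/-!
# Free boundary stationarity and axially symmetric vector fields

Basic definitions (divergence along a subspace, free boundary stationary data) and the formula for
the divergence along a `k`-plane of a vector field which is expressed in polar coordinates about an
exterior point `y`.
-/

open MeasureTheory Module
open scoped RealInnerProductSpace ContDiff

namespace FBM

/-- The Euclidean space of dimension `n`. -/
abbrev E (n : ℕ) := EuclideanSpace ℝ (Fin n)

/-- The divergence at `x` of the vector field `X` along the linear subspace `T`: the trace of the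
composition of the derivative of `X` with the orthogonal projection to `T`. -/
noncomputable def divAlong {n : ℕ} (T : Submodule ℝ (E n)) (X : E n → E n) (x : E n) : ℝ :=
  LinearMap.trace ℝ (E n)
    ((T.starProjection : E n →ₗ[ℝ] E n) ∘ₗ (fderiv ℝ X x : E n →ₗ[ℝ] E n))

/-- Free boundary stationary data of dimension `k` in the closed unit ball of `ℝ ^ n`.

`S` with the finite measure `μ` is the (weighted) submanifold with its `k`-dimensional volume,
`u : S → ℝ ^ n` its position, `T p` its tangent space at `p`; `Γ` with the finite measure `σ` is its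
boundary with its `(k - 1)`-dimensional volume, `b : Γ → ℝ ^ n` the position of the boundary, in the
unit sphere. The last field is the first variation identity of a minimal submanifold which meets the
unit sphere orthogonally (its outward unit conormal at a boundary point is the position vector):
`∫ div_T X = ∫ ⟪X, x⟫` for all smooth vector fields `X` on `ℝ ^ n`. -/
structure IsFreeBoundaryStationary {n : ℕ} (k : ℕ) {S Γ : Type*} [MeasurableSpace S]
    [MeasurableSpace Γ] (μ : Measure S) (u : S → E n) (T : S → Submodule ℝ (E n))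
    (σ : Measure Γ) (b : Γ → E n) : Prop where
  finite_interior : IsFiniteMeasure μ
  finite_boundary : IsFiniteMeasure σ
  aemeasurable_interior : AEMeasurable u μ
  aestronglyMeasurable_tangent : AEStronglyMeasurable (fun p => (T p).starProjection) μ
  aemeasurable_boundary : AEMeasurable b σ
  interior_mem : ∀ᵐ p ∂μ, ‖u p‖ ≤ 1
  finrank_tangent : ∀ᵐ p ∂μ, finrank ℝ (T p) = k
  boundary_mem : ∀ᵐ p ∂σ, ‖b p‖ = 1
  first_variation : ∀ X : E n → E n, ContDiff ℝ ∞ X →
    ∫ p, divAlong (T p) X (u p) ∂μ = ∫ p, ⟪X (b p), b p⟫ ∂σ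

section Trace

variable {n : ℕ}

lemma trace_starProjection (T : Submodule ℝ (E n)) :
    LinearMap.trace ℝ (E n) (T.starProjection : E n →ₗ[ℝ] E n) = (finrank ℝ T : ℝ) := by
  apply LinearMap.IsProj.trace (p := T)
  constructor
  · intro x; simp
  · intro x hx
    exact T.starProjection_eq_self_iff.mpr hx

lemma trace_comp_smulRight (T : Submodule ℝ (E n)) (φ : E n →L[ℝ] ℝ) (v : E n) :
    LinearMap.trace ℝ (E n) ((T.starProjection : E n →ₗ[ℝ] E n) ∘ₗ
      ((φ.smulRight v : E n →L[ℝ] E n) : E n →ₗ[ℝ] E n)) = φ (T.starProjection v) := by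
  have : ((T.starProjection : E n →ₗ[ℝ] E n) ∘ₗ
      ((φ.smulRight v : E n →L[ℝ] E n) : E n →ₗ[ℝ] E n))
      = (φ : E n →ₗ[ℝ] ℝ).smulRight (T.starProjection v) := by
    ext x
    simp
  rw [this, LinearMap.trace_smulRight]
  rfl

/-- The radial one-form `h ↦ ⟪x - y, h⟫ / R ^ 2`. -/
noncomputable def om1 (x y : E n) (R : ℝ) : E n →L[ℝ] ℝ := (1 / R ^ 2) • innerSL ℝ (x - y)
/-- The axial one-form `h ↦ ⟪y, h⟫ / (s R)`. -/
noncomputable def om2 (y : E n) (s R : ℝ) : E n →L[ℝ] ℝ := (1 / (s * R)) • innerSL ℝ y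

lemma inner_star_star (T : Submodule ℝ (E n)) (a b : E n) :
    ⟪a, T.starProjection b⟫ = ⟪a, b⟫ - ⟪a - T.starProjection a, b - T.starProjection b⟫ := by
  have h1 : ⟪a - T.starProjection a, T.starProjection b⟫ = 0 :=
    T.starProjection_inner_eq_zero _ _ (by simp)
  have h2 : ⟪T.starProjection a, b - T.starProjection b⟫ = 0 := by
    rw [real_inner_comm]
    exact T.starProjection_inner_eq_zero _ _ (by simp)
  simp only [inner_sub_left, inner_sub_right] at *
  linarith

theorem div_polar {k : ℕ} (T : Submodule ℝ (E n)) (hT : finrank ℝ T = k) (x y : E n)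
    (s R c κ F F1 Fc b b1 bc : ℝ) (hs : ‖y‖ = s) (hs0 : 0 < s) (hR : ‖x - y‖ = R) (hR0 : 0 < R)
    (hc : ⟪x - y, y⟫ = -(s * R * c)) (hinc : F1 = (k - 1) * c * b - (1 - c ^ 2) * bc)
    (A B : E n → ℝ) (hA : A x = κ * (F - c * b))
    (dA : HasFDerivAt A (κ • ((-k * (F - c * b) + (F1 - c * b1) - c * (Fc - b - c * bc)) • om1 x y R
      - (Fc - b - c * bc) • om2 y s R)) x)
    (dB : HasFDerivAt B ((κ * (R / s)) • ((-(k - 1) * b + b1 - c * bc) • om1 x y R
      - bc • om2 y s R)) x) :
    divAlong T (fun z => A z • (z - y) - B z • y) x =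
      κ * ((k * F - F1 - c * b) * ‖(1 / R) • ((x - y) - T.starProjection (x - y))‖ ^ 2
        + (Fc - k * b + b1) * ⟪(1 / R) • ((x - y) - T.starProjection (x - y)),
            (1 / s) • (y - T.starProjection y) + c • (1 / R) • ((x - y) - T.starProjection (x - y))⟫
        + (-bc) * ‖(1 / s) • (y - T.starProjection y)
            + c • (1 / R) • ((x - y) - T.starProjection (x - y))‖ ^ 2) := by
  have hW : HasFDerivAt (fun z => A z • (z - y) - B z • y)
      (A x • ContinuousLinearMap.id ℝ (E n)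
        + (κ • ((-k * (F - c * b) + (F1 - c * b1) - c * (Fc - b - c * bc)) • om1 x y R
      - (Fc - b - c * bc) • om2 y s R)).smulRight (x - y)
        - ((κ * (R / s)) • ((-(k - 1) * b + b1 - c * bc) • om1 x y R
      - bc • om2 y s R)).smulRight y) x := by
    have h1 : HasFDerivAt (fun z : E n => z - y) (ContinuousLinearMap.id ℝ (E n)) x :=
      (hasFDerivAt_id x).sub_const y
    exact (dA.smul h1).sub (dB.smul_const y)
  unfold divAlong
  rw [hW.fderiv]
  have hlin : ((T.starProjection : E n →ₗ[ℝ] E n) ∘ₗ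
      ((A x • ContinuousLinearMap.id ℝ (E n)
        + (κ • ((-k * (F - c * b) + (F1 - c * b1) - c * (Fc - b - c * bc)) • om1 x y R
      - (Fc - b - c * bc) • om2 y s R)).smulRight (x - y)
        - ((κ * (R / s)) • ((-(k - 1) * b + b1 - c * bc) • om1 x y R
      - bc • om2 y s R)).smulRight y : E n →L[ℝ] E n) : E n →ₗ[ℝ] E n))
      = A x • (T.starProjection : E n →ₗ[ℝ] E n)
        + (T.starProjection : E n →ₗ[ℝ] E n) ∘ₗ
          (((κ • ((-k * (F - c * b) + (F1 - c * b1) - c * (Fc - b - c * bc)) • om1 x y R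
      - (Fc - b - c * bc) • om2 y s R)).smulRight (x - y) : E n →L[ℝ] E n) : E n →ₗ[ℝ] E n)
        - (T.starProjection : E n →ₗ[ℝ] E n) ∘ₗ
          ((((κ * (R / s)) • ((-(k - 1) * b + b1 - c * bc) • om1 x y R
      - bc • om2 y s R)).smulRight y : E n →L[ℝ] E n) : E n →ₗ[ℝ] E n) := by
    ext z
    simp
  rw [hlin, map_sub, map_add, map_smul, trace_starProjection, trace_comp_smulRight,
    trace_comp_smulRight, hT, hA]
  simp only [om1, om2, _root_.smul_apply, _root_.sub_apply,
    innerSL_apply_apply, smul_eq_mul]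
  rw [inner_star_star T (x - y) (x - y), inner_star_star T y (x - y),
    inner_star_star T (x - y) y, inner_star_star T y y]
  rw [← real_inner_self_eq_norm_sq, ← real_inner_self_eq_norm_sq]
  simp only [inner_add_left, inner_add_right, inner_smul_left, inner_smul_right,
    RCLike.conj_to_real]
  rw [real_inner_self_eq_norm_sq (x - y), real_inner_self_eq_norm_sq y, hR, hs, hc,
    real_inner_comm (x - y) y, hc]
  set X := ⟪x - y - T.starProjection (x - y), x - y - T.starProjection (x - y)⟫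
  have hsym : ⟪y - T.starProjection y, x - y - T.starProjection (x - y)⟫
    = ⟪x - y - T.starProjection (x - y), y - T.starProjection y⟫ := real_inner_comm _ _
  rw [hsym]
  set Y := ⟪x - y - T.starProjection (x - y), y - T.starProjection y⟫
  set Z := ⟪y - T.starProjection y, y - T.starProjection y⟫
  rw [hinc]
  field_simp
  ring

/-- Nonnegativity of a positive semidefinite quadratic form in two vectors. -/
lemma quad_nonneg {g e h : ℝ} (hh : 0 < h) (hdet : e ^ 2 ≤ 4 * h * g) (v w : E n) :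
    0 ≤ g * ‖v‖ ^ 2 + e * ⟪v, w⟫ + h * ‖w‖ ^ 2 := by
  have h1 : 0 ≤ ‖(2 * h) • w + e • v‖ ^ 2 := sq_nonneg _
  have h2 : ‖(2 * h) • w + e • v‖ ^ 2 = 4 * h ^ 2 * ‖w‖ ^ 2 + 4 * h * e * ⟪v, w⟫
      + e ^ 2 * ‖v‖ ^ 2 := by
    rw [← real_inner_self_eq_norm_sq, ← real_inner_self_eq_norm_sq, ← real_inner_self_eq_norm_sq]
    simp only [inner_add_left, inner_add_right, inner_smul_left, inner_smul_right,
      RCLike.conj_to_real]
    rw [real_inner_comm v w]
    ring
  have h3 : 0 ≤ (4 * h * g - e ^ 2) * ‖v‖ ^ 2 :=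
    mul_nonneg (by linarith) (sq_nonneg _)
  have h4 : 0 ≤ 4 * h * (g * ‖v‖ ^ 2 + e * ⟪v, w⟫ + h * ‖w‖ ^ 2) := by
    nlinarith
  exact nonneg_of_mul_nonneg_right h4 (by positivity)

lemma quad_pos_def {g e h : ℝ} (hh : 0 < h) (hdet : e ^ 2 < 4 * h * g) (v w : E n)
    (h0 : g * ‖v‖ ^ 2 + e * ⟪v, w⟫ + h * ‖w‖ ^ 2 = 0) : v = 0 ∧ w = 0 := by
  have h1 : 0 ≤ ‖(2 * h) • w + e • v‖ ^ 2 := sq_nonneg _
  have h2 : ‖(2 * h) • w + e • v‖ ^ 2 = 4 * h ^ 2 * ‖w‖ ^ 2 + 4 * h * e * ⟪v, w⟫
      + e ^ 2 * ‖v‖ ^ 2 := by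
    rw [← real_inner_self_eq_norm_sq, ← real_inner_self_eq_norm_sq, ← real_inner_self_eq_norm_sq]
    simp only [inner_add_left, inner_add_right, inner_smul_left, inner_smul_right,
      RCLike.conj_to_real]
    rw [real_inner_comm v w]
    ring
  have h3 : (4 * h * g - e ^ 2) * ‖v‖ ^ 2 ≤ 0 := by
    have : 4 * h * (g * ‖v‖ ^ 2 + e * ⟪v, w⟫ + h * ‖w‖ ^ 2) = 0 := by rw [h0, mul_zero]
    nlinarith
  have hv : ‖v‖ ^ 2 = 0 := by
    have h5 : 0 < 4 * h * g - e ^ 2 := by linarith
    have h6 : ‖v‖ ^ 2 ≤ 0 := nonpos_of_mul_nonpos_right h3 h5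
    exact le_antisymm h6 (sq_nonneg _)
  have hv' : v = 0 := by
    rwa [sq_eq_zero_iff, norm_eq_zero] at hv
  refine ⟨hv', ?_⟩
  rw [hv'] at h0
  simp only [norm_zero, inner_zero_left, mul_zero, ne_eq, OfNat.ofNat_ne_zero, not_false_eq_true,
    zero_pow, add_zero, zero_add] at h0
  rcases mul_eq_zero.mp h0 with h | h
  · exact absurd h hh.ne'
  · rwa [sq_eq_zero_iff, norm_eq_zero] at h

end Trace

end FBM
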