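import Pool.Agent.Helper81.FBMBasic

/-!
# Calibrating vector fields give the boundary volume inequality
-/

open MeasureTheory Module Metric
open scoped RealInnerProductSpace ContDiff Topology

namespace FBM

variable {n : ℕ}

/-- The trace as a linear functional on continuous endomorphisms. -/
noncomputable def trL (n : ℕ) : (E n →L[ℝ] E n) →ₗ[ℝ] ℝ :=
  (LinearMap.trace ℝ (E n)) ∘ₗ (ContinuousLinearMap.coeLM ℝ)

lemma divAlong_eq_trL (T : Submodule ℝ (E n)) (X : E n → E n) (x : E n) :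
    divAlong T X x = trL n (T.starProjection ∘L fderiv ℝ X x) := rfl

lemma continuous_trL : Continuous (trL n) := LinearMap.continuous_of_finiteDimensional _

theorem integrable_divAlong {k : ℕ} {S Γ : Type*} [MeasurableSpace S]
    [MeasurableSpace Γ] {μ : Measure S} {u : S → E n} {T : S → Submodule ℝ (E n)}
    {σ : Measure Γ} {b : Γ → E n} (h : IsFreeBoundaryStationary k μ u T σ b)
    {X : E n → E n} (hX : ContDiff ℝ ∞ X) :
    Integrable (fun p => divAlong (T p) X (u p)) μ := by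
  have := h.finite_interior
  have hcont : Continuous (fun q : (E n →L[ℝ] E n) × E n => trL n (q.1 ∘L fderiv ℝ X q.2)) := by
    refine continuous_trL.comp ?_
    exact continuous_fst.clm_comp ((hX.continuous_fderiv (by simp)).comp continuous_snd)
  have hcomp : IsCompact ((closedBall (0 : E n →L[ℝ] E n) 1) ×ˢ (closedBall (0 : E n) 1)) :=
    (isCompact_closedBall _ _).prod (isCompact_closedBall _ _)
  obtain ⟨C, hC⟩ := hcomp.exists_bound_of_continuousOn hcont.continuousOn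
  refine Integrable.of_bound (C := C) ?_ ?_
  · have hm : AEStronglyMeasurable (fun p => ((T p).starProjection, u p)) μ :=
      h.aestronglyMeasurable_tangent.prodMk h.aemeasurable_interior.aestronglyMeasurable
    exact hcont.comp_aestronglyMeasurable hm
  · filter_upwards [h.interior_mem] with p hp
    have := hC ((T p).starProjection, u p) ⟨by
      simpa using (T p).starProjection_norm_le, by simpa using hp⟩
    simpa [divAlong_eq_trL] using this

theorem exists_extension {y : E n} (hy : 1 < ‖y‖) {W : E n → E n}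
    (hW : ∀ x, ‖x‖ < ‖y‖ → ContDiffAt ℝ ∞ W x) :
    ∃ X : E n → E n, ContDiff ℝ ∞ X ∧ ∀ x, ‖x‖ ≤ 1 → X =ᶠ[𝓝 x] W := by
  let f : ContDiffBump (0 : E n) := ⟨(2 + ‖y‖) / 3, (1 + 2 * ‖y‖) / 3, by linarith, by linarith⟩
  refine ⟨fun x => f x • W x, ?_, ?_⟩
  · rw [contDiff_iff_contDiffAt]
    intro x
    by_cases hx : ‖x‖ < ‖y‖
    · exact f.contDiffAt.smul (hW x hx)
    · have hev : (fun x => f x • W x) =ᶠ[𝓝 x] fun _ => 0 := by
        have hopen : {z : E n | (1 + 2 * ‖y‖) / 3 < ‖z‖} ∈ 𝓝 x := by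
          refine (isOpen_lt continuous_const continuous_norm).mem_nhds ?_
          simp only [Set.mem_ofPred_eq]
          push Not at hx
          linarith
        filter_upwards [hopen] with z hz
        have : f z = 0 := f.zero_of_le_dist (by
          rw [dist_zero_right]
          exact le_of_lt hz)
        rw [this, zero_smul]
      exact contDiffAt_const.congr_of_eventuallyEq hev
  · intro x hx
    have h1 : f =ᶠ[𝓝 x] 1 := f.eventuallyEq_one_of_mem_ball (by
      rw [mem_ball, dist_zero_right]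
      show ‖x‖ < (2 + ‖y‖) / 3
      linarith)
    filter_upwards [h1] with z hz
    rw [hz]
    simp

theorem main_of_field {k : ℕ} {S Γ : Type*} [MeasurableSpace S]
    [MeasurableSpace Γ] {μ : Measure S} {u : S → E n} {T : S → Submodule ℝ (E n)}
    {σ : Measure Γ} {b : Γ → E n} (h : IsFreeBoundaryStationary k μ u T σ b)
    (y : E n) (hy : 1 < ‖y‖) (W : E n → E n)
    (hW : ∀ x, ‖x‖ < ‖y‖ → ContDiffAt ℝ ∞ W x)
    (hdiv : ∀ x, ‖x‖ ≤ 1 → ∀ T' : Submodule ℝ (E n), finrank ℝ T' = k → 0 ≤ divAlong T' W x)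
    (hstrict : ∀ x, ‖x‖ ≤ 1 → ∀ T' : Submodule ℝ (E n), finrank ℝ T' = k →
      divAlong T' W x = 0 → x ∈ T' ∧ y ∈ T')
    (hflux : ∀ x, ‖x‖ = 1 → ⟪W x, x⟫ = 1 - ((‖y‖ ^ 2 - 1) / ‖x - y‖ ^ 2) ^ (k - 1)) :
    (∫ p, ((‖y‖ ^ 2 - 1) / ‖b p - y‖ ^ 2) ^ (k - 1) ∂σ ≤ σ.real Set.univ) ∧
    (∫ p, ((‖y‖ ^ 2 - 1) / ‖b p - y‖ ^ 2) ^ (k - 1) ∂σ = σ.real Set.univ →
      ∀ᵐ p ∂μ, u p ∈ T p ∧ y ∈ T p) := by
  have := h.finite_interior
  have := h.finite_boundary
  obtain ⟨X, hX, hXW⟩ := exists_extension hy hW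
  have hfv := h.first_variation X hX
  have hdivX : ∀ x, ‖x‖ ≤ 1 → ∀ T' : Submodule ℝ (E n), divAlong T' X x = divAlong T' W x := by
    intro x hx T'
    unfold divAlong
    rw [(hXW x hx).fderiv_eq]
  have hnn : 0 ≤ᵐ[μ] fun p => divAlong (T p) X (u p) := by
    filter_upwards [h.interior_mem, h.finrank_tangent] with p hp1 hp2
    simp only [Pi.zero_apply]
    rw [hdivX _ hp1]
    exact hdiv _ hp1 _ hp2
  have hR : ∫ p, ⟪X (b p), b p⟫ ∂σ
      = ∫ p, (1 - ((‖y‖ ^ 2 - 1) / ‖b p - y‖ ^ 2) ^ (k - 1)) ∂σ := by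
    refine integral_congr_ae ?_
    filter_upwards [h.boundary_mem] with p hp
    rw [(hXW _ hp.le).eq_of_nhds]
    exact hflux _ hp
  have hint : Integrable (fun p => ((‖y‖ ^ 2 - 1) / ‖b p - y‖ ^ 2) ^ (k - 1)) σ := by
    refine Integrable.of_bound (C := ((‖y‖ ^ 2 - 1) / (‖y‖ - 1) ^ 2) ^ (k - 1)) ?_ ?_
    · have : AEMeasurable (fun p => ((‖y‖ ^ 2 - 1) / ‖b p - y‖ ^ 2) ^ (k - 1)) σ :=
        ((((h.aemeasurable_boundary.sub_const y).norm).pow_const 2).const_div _).pow_const _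
      exact this.aestronglyMeasurable
    · filter_upwards [h.boundary_mem] with p hp
      have h1 : ‖y‖ - 1 ≤ ‖b p - y‖ := by
        have := norm_sub_norm_le y (b p)
        rw [hp, norm_sub_rev] at this
        exact this
      have h2 : 0 < ‖y‖ - 1 := by linarith
      have h3 : 0 < ‖y‖ ^ 2 - 1 := by nlinarith
      rw [norm_pow, Real.norm_eq_abs, abs_of_nonneg (by positivity)]
      refine pow_le_pow_left₀ (by positivity) ?_ _
      gcongr
  have hsplit : ∫ p, (1 - ((‖y‖ ^ 2 - 1) / ‖b p - y‖ ^ 2) ^ (k - 1)) ∂σ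
      = σ.real Set.univ - ∫ p, ((‖y‖ ^ 2 - 1) / ‖b p - y‖ ^ 2) ^ (k - 1) ∂σ := by
    rw [integral_sub (integrable_const _) hint]
    simp
  rw [hR, hsplit] at hfv
  have h0 : 0 ≤ ∫ p, divAlong (T p) X (u p) ∂μ := integral_nonneg_of_ae hnn
  refine ⟨by linarith, fun heq => ?_⟩
  have hz : ∫ p, divAlong (T p) X (u p) ∂μ = 0 := by rw [hfv, heq, sub_self]
  have hae := (integral_eq_zero_iff_of_nonneg_ae hnn (integrable_divAlong h hX)).mp hz
  filter_upwards [hae, h.interior_mem, h.finrank_tangent] with p hp1 hp2 hp3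
  refine hstrict _ hp2 _ hp3 ?_
  rw [← hdivX _ hp2]
  exact hp1

end FBM
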