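import Pool.Agent.Helper81.FBMCalib

/-!
# Polar coordinates about the exterior point `y`
-/

open MeasureTheory Module Metric
open scoped RealInnerProductSpace ContDiff Topology

namespace FBM

variable {n : ℕ}

/-- `r = (s ^ 2 - 1) / (2 s R)`. -/
noncomputable def rf (y : E n) (z : E n) : ℝ := (‖y‖ ^ 2 - 1) / (2 * ‖y‖) * (‖z - y‖)⁻¹
/-- `q = R / (2 s)`. -/
noncomputable def qf (y : E n) (z : E n) : ℝ := ‖z - y‖ / (2 * ‖y‖)
/-- The cosine of the angle at `y` between `z - y` and `-y`. -/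
noncomputable def cf (y : E n) (z : E n) : ℝ := -(⟪z - y, y⟫ / ‖y‖) * (‖z - y‖)⁻¹

lemma hasFDerivAt_R (y x : E n) (hx : 0 < ‖x - y‖) :
    HasFDerivAt (fun z => ‖z - y‖) (‖x - y‖ • om1 x y ‖x - y‖) x := by
  have h1 : HasFDerivAt (fun z : E n => z - y) (ContinuousLinearMap.id ℝ (E n)) x :=
    (hasFDerivAt_id x).sub_const y
  have h2 := h1.norm_sq.sqrt (by positivity)
  have h3 : (fun z => ‖z - y‖) = fun z => √(‖z - y‖ ^ 2) := by
    funext z
    rw [Real.sqrt_sq (norm_nonneg _)]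
  rw [h3]
  refine h2.congr_fderiv ?_
  ext v
  simp only [om1, _root_.smul_apply, ContinuousLinearMap.comp_apply,
    ContinuousLinearMap.id_apply, innerSL_apply_apply, smul_eq_mul,
    Real.sqrt_sq (norm_nonneg (x - y))]
  simp only [nsmul_eq_mul, Nat.cast_ofNat]
  field_simp

lemma hasFDerivAt_Rinv (y x : E n) (hx : 0 < ‖x - y‖) :
    HasFDerivAt (fun z => (‖z - y‖)⁻¹) (-(‖x - y‖)⁻¹ • om1 x y ‖x - y‖) x := by
  have h := (hasDerivAt_inv hx.ne').comp_hasFDerivAt x (hasFDerivAt_R y x hx)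
  refine h.congr_fderiv ?_
  ext v
  simp only [_root_.smul_apply, smul_eq_mul]
  field_simp

lemma hasFDerivAt_Rinvpow (y x : E n) (hx : 0 < ‖x - y‖) (K : ℝ) (k : ℕ) :
    HasFDerivAt (fun z => K * (‖z - y‖)⁻¹ ^ k)
      (-(k * (K * (‖x - y‖)⁻¹ ^ k)) • om1 x y ‖x - y‖) x := by
  have h := ((hasFDerivAt_Rinv y x hx).pow k).const_mul K
  refine h.congr_fderiv ?_
  ext v
  simp only [_root_.smul_apply, smul_eq_mul, nsmul_eq_mul]
  rcases k with _ | k
  · simp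
  · simp only [Nat.add_sub_cancel, pow_succ]
    push_cast
    ring

lemma hasFDerivAt_r (y x : E n) (hx : 0 < ‖x - y‖) :
    HasFDerivAt (rf y) (-(rf y x) • om1 x y ‖x - y‖) x := by
  have h := (hasFDerivAt_Rinv y x hx).const_mul ((‖y‖ ^ 2 - 1) / (2 * ‖y‖))
  refine h.congr_fderiv ?_
  ext v
  simp only [rf, _root_.smul_apply, smul_eq_mul]
  ring

lemma hasFDerivAt_q (y x : E n) (hx : 0 < ‖x - y‖) :
    HasFDerivAt (qf y) (qf y x • om1 x y ‖x - y‖) x := by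
  have h := (hasFDerivAt_R y x hx).mul_const ((2 * ‖y‖)⁻¹)
  have h2 : qf y = fun z => ‖z - y‖ * (2 * ‖y‖)⁻¹ := by
    funext z
    rw [qf, div_eq_mul_inv]
  rw [h2]
  refine h.congr_fderiv ?_
  ext v
  simp only [_root_.smul_apply, smul_eq_mul]
  ring

lemma hasFDerivAt_c (y x : E n) (hy : 0 < ‖y‖) (hx : 0 < ‖x - y‖) :
    HasFDerivAt (cf y) (-(cf y x) • om1 x y ‖x - y‖ - om2 y ‖y‖ ‖x - y‖) x := by
  have h1 : HasFDerivAt (fun z : E n => ⟪z - y, y⟫) (innerSL ℝ y) x := by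
    have h0 : HasFDerivAt (fun z : E n => innerSL ℝ y (z - y)) (innerSL ℝ y) x := by
      have := (innerSL ℝ y).hasFDerivAt.comp x ((hasFDerivAt_id x).sub_const y)
      exact this
    refine h0.congr_of_eventuallyEq (Filter.Eventually.of_forall fun z => ?_)
    simp only [innerSL_apply_apply]
    rw [real_inner_comm]
  have h2 := ((h1.mul_const (‖y‖)⁻¹).neg).mul (hasFDerivAt_Rinv y x hx)
  have h3 : cf y = (-fun z : E n => ⟪z - y, y⟫ * (‖y‖)⁻¹) * fun z : E n => (‖z - y‖)⁻¹ := by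
    funext z
    simp [cf, div_eq_mul_inv]
  rw [h3]
  refine h2.congr_fderiv ?_
  ext v
  simp only [om2, _root_.smul_apply, smul_eq_mul, _root_.sub_apply,
    _root_.add_apply, _root_.neg_apply, innerSL_apply_apply, Pi.neg_apply, Pi.mul_apply]
  field_simp
  ring

lemma contDiffAt_R (y x : E n) (hx : 0 < ‖x - y‖) : ContDiffAt ℝ ∞ (fun z => ‖z - y‖) x :=
  ContDiffAt.norm ℝ (contDiffAt_id.sub contDiffAt_const) (norm_pos_iff.mp hx)

lemma contDiffAt_Rinv (y x : E n) (hx : 0 < ‖x - y‖) :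
    ContDiffAt ℝ ∞ (fun z => (‖z - y‖)⁻¹) x :=
  (contDiffAt_R y x hx).inv hx.ne'

lemma contDiffAt_r (y x : E n) (hx : 0 < ‖x - y‖) : ContDiffAt ℝ ∞ (rf y) x :=
  contDiffAt_const.mul (contDiffAt_Rinv y x hx)

lemma contDiffAt_q (y x : E n) (hx : 0 < ‖x - y‖) : ContDiffAt ℝ ∞ (qf y) x :=
  (contDiffAt_R y x hx).div_const _

lemma contDiffAt_c (y x : E n) (hx : 0 < ‖x - y‖) : ContDiffAt ℝ ∞ (cf y) x := by
  have h1 : ContDiffAt ℝ ∞ (fun z : E n => ⟪z - y, y⟫) x :=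
    (contDiffAt_id.sub contDiffAt_const).inner ℝ contDiffAt_const
  exact ((h1.div_const _).neg).mul (contDiffAt_Rinv y x hx)

end FBM
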