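import Pool.Agent.Helper81.FBMPolar

/-!
# Reduction of the boundary volume inequality to a scalar profile
-/

open MeasureTheory Module Metric
open scoped RealInnerProductSpace ContDiff Topology

namespace FBM

variable {n : ℕ}

section Region

variable (y x : E n)

lemma dist_pos (hx : ‖x‖ < ‖y‖) : 0 < ‖x - y‖ := by
  rw [norm_pos_iff, sub_ne_zero]
  rintro rfl
  exact lt_irrefl _ hx

lemma inner_sub_self_y : ⟪x - y, y⟫ = ⟪x, y⟫ - ‖y‖ ^ 2 := by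
  rw [inner_sub_left, real_inner_self_eq_norm_sq]

lemma norm_sub_sq' : ‖x - y‖ ^ 2 = ‖x‖ ^ 2 - 2 * ⟪x, y⟫ + ‖y‖ ^ 2 := norm_sub_sq_real x y

lemma rf_pos (hy : 1 < ‖y‖) (hx : 0 < ‖x - y‖) : 0 < rf y x := by
  unfold rf
  have : 0 < ‖y‖ ^ 2 - 1 := by nlinarith
  positivity

lemma qf_pos (hy : 1 < ‖y‖) (hx : 0 < ‖x - y‖) : 0 < qf y x := by
  unfold qf
  positivity

lemma cf_sub (hy : 1 < ‖y‖) (hx : 0 < ‖x - y‖) :
    cf y x - rf y x - qf y x = (1 - ‖x‖ ^ 2) / (2 * ‖y‖ * ‖x - y‖) := by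
  unfold cf rf qf
  rw [inner_sub_self_y]
  have h := norm_sub_sq' y x
  have hs : (0 : ℝ) < ‖y‖ := by linarith
  field_simp
  nlinarith

lemma cf_sub_nonneg (hy : 1 < ‖y‖) (hx : ‖x‖ ≤ 1) : 0 ≤ cf y x - rf y x - qf y x := by
  have hR := dist_pos y x (by linarith)
  rw [cf_sub y x hy hR]
  have : 0 ≤ 1 - ‖x‖ ^ 2 := by nlinarith [norm_nonneg x]
  positivity

lemma cf_le_one (hx : 0 < ‖x - y‖) (hy : 1 < ‖y‖) : cf y x ≤ 1 := by
  unfold cf
  have h1 := abs_real_inner_le_norm (x - y) y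
  have h2 : -⟪x - y, y⟫ ≤ ‖x - y‖ * ‖y‖ := by
    have := neg_abs_le ⟪x - y, y⟫
    linarith
  have hs : (0 : ℝ) < ‖y‖ := by linarith
  rw [← div_eq_mul_inv, div_le_one hx, ← neg_div, div_le_iff₀ hs]
  exact h2

lemma cf_pos (hx : ‖x‖ < ‖y‖) (hy : 1 < ‖y‖) : 0 < cf y x := by
  have hR := dist_pos y x hx
  have hs : (0 : ℝ) < ‖y‖ := by linarith
  unfold cf
  rw [inner_sub_self_y]
  have h1 : ⟪x, y⟫ < ‖y‖ ^ 2 := by
    have := real_inner_le_norm x y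
    nlinarith
  have h2 : 0 < -((⟪x, y⟫ - ‖y‖ ^ 2) / ‖y‖) := by
    rw [← neg_div]
    apply div_pos _ hs
    linarith
  positivity

end Region

/-- The vector field with profile `F`, `β` in polar coordinates about `y`. -/
noncomputable def polarField (k : ℕ) (y : E n) (F b : E n → ℝ) (z : E n) : E n :=
  ((2 * ‖y‖) ^ (k - 2) * (‖z - y‖)⁻¹ ^ k * (F z - cf y z * b z)) • (z - y)
    - ((2 * ‖y‖) ^ (k - 2) * (‖z - y‖)⁻¹ ^ k * (‖z - y‖ / ‖y‖) * b z) • y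

theorem contDiffAt_polarField (k : ℕ) (y x : E n) (hx : 0 < ‖x - y‖) {F b : E n → ℝ}
    (hF : ContDiffAt ℝ ∞ F x) (hb : ContDiffAt ℝ ∞ b x) :
    ContDiffAt ℝ ∞ (polarField k y F b) x := by
  unfold polarField
  have h1 := contDiffAt_R y x hx
  have h2 := contDiffAt_Rinv y x hx
  have h3 := contDiffAt_c y x hx
  exact ((((contDiffAt_const.mul (h2.pow k)).mul (hF.sub (h3.mul hb))).smul
    (contDiffAt_id.sub contDiffAt_const)).sub
    ((((contDiffAt_const.mul (h2.pow k)).mul (h1.div_const _)).mul hb).smul contDiffAt_const))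

theorem div_polarField {k : ℕ} (y x : E n) (hy : 1 < ‖y‖) (hx : 0 < ‖x - y‖) (F b : E n → ℝ)
    (F1 Fc b1 bc : ℝ)
    (dF : HasFDerivAt F (F1 • om1 x y ‖x - y‖
      + Fc • (-(cf y x) • om1 x y ‖x - y‖ - om2 y ‖y‖ ‖x - y‖)) x)
    (db : HasFDerivAt b (b1 • om1 x y ‖x - y‖
      + bc • (-(cf y x) • om1 x y ‖x - y‖ - om2 y ‖y‖ ‖x - y‖)) x)
    (hinc : F1 = (k - 1) * cf y x * b x - (1 - cf y x ^ 2) * bc)
    (T : Submodule ℝ (E n)) (hT : finrank ℝ T = k) :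
    divAlong T (polarField k y F b) x =
      ((2 * ‖y‖) ^ (k - 2) * (‖x - y‖)⁻¹ ^ k) *
      ((k * F x - F1 - cf y x * b x)
          * ‖(1 / ‖x - y‖) • ((x - y) - T.starProjection (x - y))‖ ^ 2
        + (Fc - k * b x + b1) * ⟪(1 / ‖x - y‖) • ((x - y) - T.starProjection (x - y)),
            (1 / ‖y‖) • (y - T.starProjection y)
              + cf y x • (1 / ‖x - y‖) • ((x - y) - T.starProjection (x - y))⟫
        + (-bc) * ‖(1 / ‖y‖) • (y - T.starProjection y)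
            + cf y x • (1 / ‖x - y‖) • ((x - y) - T.starProjection (x - y))‖ ^ 2) := by
  have hs : (0 : ℝ) < ‖y‖ := by linarith
  have hk := hasFDerivAt_Rinvpow y x hx ((2 * ‖y‖) ^ (k - 2)) k
  have hR := hasFDerivAt_R y x hx
  have hc := hasFDerivAt_c y x hs hx
  apply div_polar T hT x y ‖y‖ ‖x - y‖ (cf y x) ((2 * ‖y‖) ^ (k - 2) * (‖x - y‖)⁻¹ ^ k) (F x) F1 Fc
    (b x) b1 bc rfl hs rfl hx ?_ hinc
    (fun z => (2 * ‖y‖) ^ (k - 2) * (‖z - y‖)⁻¹ ^ k * (F z - cf y z * b z))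
    (fun z => (2 * ‖y‖) ^ (k - 2) * (‖z - y‖)⁻¹ ^ k * (‖z - y‖ / ‖y‖) * b z) rfl
  · have h1 := hk.mul (dF.sub (hc.mul db))
    refine h1.congr_fderiv ?_
    ext v
    simp only [_root_.smul_apply, smul_eq_mul, _root_.sub_apply,
      _root_.add_apply, Pi.mul_apply, Pi.sub_apply]
    ring
  · have h1 := (hk.mul (hR.mul_const (‖y‖)⁻¹)).mul db
    have h2 : (fun z => (2 * ‖y‖) ^ (k - 2) * (‖z - y‖)⁻¹ ^ k * (‖z - y‖ / ‖y‖) * b z)
      = ((fun z => (2 * ‖y‖) ^ (k - 2) * (‖z - y‖)⁻¹ ^ k) * fun z => ‖z - y‖ * (‖y‖)⁻¹) * b := by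
      funext z
      simp [div_eq_mul_inv]
    rw [h2]
    refine h1.congr_fderiv ?_
    ext v
    simp only [_root_.smul_apply, smul_eq_mul, _root_.sub_apply,
      _root_.add_apply, Pi.mul_apply]
    ring
  · unfold cf
    field_simp

theorem main_of_profile {k : ℕ} (hk : 2 ≤ k) {S Γ : Type*} [MeasurableSpace S]
    [MeasurableSpace Γ] {μ : Measure S} {u : S → E n} {T : S → Submodule ℝ (E n)}
    {σ : Measure Γ} {b : Γ → E n} (h : IsFreeBoundaryStationary k μ u T σ b)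
    (y : E n) (hy : 1 < ‖y‖) (F β F1 Fc b1 bc : E n → ℝ)
    (hF : ∀ x, ‖x‖ < ‖y‖ → ContDiffAt ℝ ∞ F x) (hβ : ∀ x, ‖x‖ < ‖y‖ → ContDiffAt ℝ ∞ β x)
    (dF : ∀ x, ‖x‖ ≤ 1 → HasFDerivAt F (F1 x • om1 x y ‖x - y‖
      + Fc x • (-(cf y x) • om1 x y ‖x - y‖ - om2 y ‖y‖ ‖x - y‖)) x)
    (dβ : ∀ x, ‖x‖ ≤ 1 → HasFDerivAt β (b1 x • om1 x y ‖x - y‖
      + bc x • (-(cf y x) • om1 x y ‖x - y‖ - om2 y ‖y‖ ‖x - y‖)) x)
    (hinc : ∀ x, ‖x‖ ≤ 1 → F1 x = (k - 1) * cf y x * β x - (1 - cf y x ^ 2) * bc x)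
    (hbc : ∀ x, ‖x‖ ≤ 1 → bc x < 0)
    (hdet : ∀ x, ‖x‖ ≤ 1 → (Fc x - k * β x + b1 x) ^ 2
      < 4 * (-bc x) * (k * F x - F1 x - cf y x * β x))
    (hflux : ∀ x, ‖x‖ = 1 → (qf y x - rf y x) * F x - (1 - cf y x ^ 2) * β x
      = 2 * (qf y x ^ (k - 1) - rf y x ^ (k - 1))) :
    (∫ p, ((‖y‖ ^ 2 - 1) / ‖b p - y‖ ^ 2) ^ (k - 1) ∂σ ≤ σ.real Set.univ) ∧
    (∫ p, ((‖y‖ ^ 2 - 1) / ‖b p - y‖ ^ 2) ^ (k - 1) ∂σ = σ.real Set.univ →
      ∀ᵐ p ∂μ, u p ∈ T p ∧ y ∈ T p) := by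
  have hs : (0 : ℝ) < ‖y‖ := by linarith
  refine main_of_field h y hy (polarField k y F β) ?_ ?_ ?_ ?_
  · intro x hx
    exact contDiffAt_polarField k y x (dist_pos y x hx) (hF x hx) (hβ x hx)
  · intro x hx T' hT'
    have hR := dist_pos y x (by linarith)
    rw [div_polarField y x hy hR F β (F1 x) (Fc x) (b1 x) (bc x) (dF x hx) (dβ x hx)
      (hinc x hx) T' hT']
    refine mul_nonneg (by positivity) ?_
    exact quad_nonneg (neg_pos.mpr (hbc x hx)) (hdet x hx).le _ _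
  · intro x hx T' hT' h0
    have hR := dist_pos y x (by linarith)
    rw [div_polarField y x hy hR F β (F1 x) (Fc x) (b1 x) (bc x) (dF x hx) (dβ x hx)
      (hinc x hx) T' hT'] at h0
    have hκ : (2 * ‖y‖) ^ (k - 2) * (‖x - y‖)⁻¹ ^ k ≠ 0 := by positivity
    have h1 := (mul_eq_zero.mp h0).resolve_left hκ
    obtain ⟨hv, hw⟩ := quad_pos_def (neg_pos.mpr (hbc x hx)) (hdet x hx) _ _ h1
    have hv' : (x - y) - T'.starProjection (x - y) = 0 := by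
      rcases smul_eq_zero.mp hv with h | h
      · exact absurd h (by positivity)
      · exact h
    rw [hv'] at hw
    simp only [smul_zero, add_zero] at hw
    have hw' : y - T'.starProjection y = 0 := by
      rcases smul_eq_zero.mp hw with h | h
      · exact absurd h (by positivity)
      · exact h
    have hyT : y ∈ T' := T'.starProjection_eq_self_iff.mp (sub_eq_zero.mp hw').symm
    have hxyT : x - y ∈ T' := T'.starProjection_eq_self_iff.mp (sub_eq_zero.mp hv').symm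
    refine ⟨?_, hyT⟩
    have := T'.add_mem hxyT hyT
    simpa using this
  · intro x hx
    have hR := dist_pos y x (by linarith)
    have hc : cf y x = rf y x + qf y x := by
      have := cf_sub y x hy hR
      rw [hx] at this
      simp only [one_pow, sub_self, zero_div] at this
      linarith
    have hRs := norm_sub_sq' y x
    rw [hx] at hRs
    have hq : ‖x - y‖ = 2 * ‖y‖ * qf y x := by
      unfold qf
      field_simp
    have hr : 2 * ‖y‖ * ‖x - y‖ * rf y x = ‖y‖ ^ 2 - 1 := by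
      unfold rf
      field_simp
    have hfl := hflux x hx
    have hin1 : ⟪x - y, x⟫ = 1 - ⟪x, y⟫ := by
      rw [inner_sub_left, real_inner_self_eq_norm_sq, hx, real_inner_comm]
      norm_num
    have hP : ⟪x, y⟫ = ‖y‖ ^ 2 * (1 - 2 * qf y x * cf y x) := by
      have : cf y x * (‖x - y‖ * ‖y‖) = ‖y‖ ^ 2 - ⟪x, y⟫ := by
        unfold cf
        rw [inner_sub_self_y]
        field_simp
        ring
      rw [hq] at this
      linear_combination this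
    have hP2 : 1 - ⟪x, y⟫ = ‖x - y‖ * ‖y‖ * (qf y x - rf y x) := by
      have h1 : ‖x - y‖ * ‖y‖ * (2 * qf y x) = ‖x - y‖ ^ 2 := by
        rw [sq]
        nth_rewrite 3 [hq]
        ring
      nlinarith
    unfold polarField
    rw [inner_sub_left, inner_smul_left, inner_smul_left]
    simp only [RCLike.conj_to_real]
    rw [hin1, real_inner_comm x y, hP2, hP]
    obtain ⟨m, rfl⟩ : ∃ m, k = m + 2 := ⟨k - 2, by omega⟩
    simp only [Nat.add_sub_cancel] at *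
    have e1 : m + 2 - 1 = m + 1 := by omega
    rw [e1] at hfl ⊢
    have key : (2 * ‖y‖) ^ m * (‖x - y‖)⁻¹ ^ (m + 2) * (F x - cf y x * β x) *
          (‖x - y‖ * ‖y‖ * (qf y x - rf y x)) -
        (2 * ‖y‖) ^ m * (‖x - y‖)⁻¹ ^ (m + 2) * (‖x - y‖ / ‖y‖) * β x *
          (‖y‖ ^ 2 * (1 - 2 * qf y x * cf y x))
        = (2 * ‖y‖) ^ m * (‖x - y‖)⁻¹ ^ (m + 1) * ‖y‖ *
          ((qf y x - rf y x) * F x - (1 - cf y x ^ 2) * β x) := by
      rw [pow_succ (‖x - y‖)⁻¹ (m + 1)]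
      have : ‖x - y‖⁻¹ * ‖x - y‖ = 1 := inv_mul_cancel₀ hR.ne'
      field_simp
      rw [hc]
      ring
    rw [key, hfl]
    have h3 : (2 * ‖y‖) ^ m * (‖x - y‖)⁻¹ ^ (m + 1) * ‖y‖ *
        (2 * (qf y x ^ (m + 1) - rf y x ^ (m + 1)))
        = (2 * ‖y‖ * (‖x - y‖)⁻¹ * qf y x) ^ (m + 1)
          - (2 * ‖y‖ * (‖x - y‖)⁻¹ * rf y x) ^ (m + 1) := by
      simp only [mul_pow]
      ring
    rw [h3]
    have h4 : 2 * ‖y‖ * (‖x - y‖)⁻¹ * qf y x = 1 := by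
      unfold qf
      field_simp
    have h5 : 2 * ‖y‖ * (‖x - y‖)⁻¹ * rf y x = (‖y‖ ^ 2 - 1) / ‖x - y‖ ^ 2 := by
      unfold rf
      field_simp
    rw [h4, h5, one_pow]

end FBM
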